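import Pool.Agent.W_8cdb14_h41.Norms

/-!
Legendre duality for Minkowski norms.

Proof.  `m = 0` is trivial (`H = 0`).  `F` is continuous (homogeneous and continuous on the unit
sphere of the sup norm), `Σ = {F = 1}` is compact (bounded because `F ≥ c ‖·‖`).  Euler:
`fderiv F u u = F u` for `u ≠ 0`; `grad F` is continuous off `0`.
`H p := sup {p ⬝ᵥ u | u ∈ Σ}` (attained).  (a) `H (s p) = s H p` for `s ≥ 0`, `H p > 0` for
`p ≠ 0` (take `u = p / F p`), `H` Lipschitz, hence continuous; `p ⬝ᵥ w ≤ H p * F w` for all `w`.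
(b) If `u ∈ Σ` is a maximiser for `p ≠ 0` then `w ↦ H p * F w - p ⬝ᵥ w` has a minimum at `u`, so
`p = H p • grad F u`.  (c) `grad F` is injective on `Σ`: if `u₁ ≠ u₂` in `Σ` have the same gradient
`p'`; if `u₂ = - c u₁` with `c > 0` then `p' ⬝ᵥ u₁ = 1 = p' ⬝ᵥ u₂ = - c`, absurd; otherwise the
segment avoids `0` and `t ↦ fderiv (F²) (u₁ + t h) h` (`h = u₂ - u₁`) is strictly increasing, but
at both ends it equals `2 F(uᵢ) p' ⬝ᵥ h = 2 p' ⬝ᵥ h`.  So the maximiser `u(p)` is unique.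
(d) `H (grad F u) = 1` for `u ∈ Σ`: support inequality `F w ≥ grad F u ⬝ᵥ w` for all `w` (along the
segment from `u` to `w`, if it avoids `0`, `F²` is convex, so
`F w ^ 2 ≥ 1 + 2 grad F u ⬝ᵥ (w - u) = 2 grad F u ⬝ᵥ w - 1`; for `w ∈ Σ` this is
`grad F u ⬝ᵥ w ≤ 1`; if the segment meets `0` then `w = - c u` and
`grad F u ⬝ᵥ w = - c < 1`).  So `H (grad F u) = 1`, attained at `u`.
(e) `H` is differentiable at `p ≠ 0` with gradient `u(p)`:
`(q - p) ⬝ᵥ u(p) ≤ H q - H p ≤ (q - p) ⬝ᵥ u(q)` and `u(q) → u(p)` as `q → p` (compactness and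
uniqueness).  So `grad H (grad F u) = u`.
(f) if `H p = 1` then `p = grad F u(p)` by (b).
-/

open Filter Topology Set

namespace Pool.Agent.W_8cdb14_h41

variable {m : ℕ}

/-- The pairing as a continuous linear map. -/
noncomputable def legL (u : Fin m → ℝ) : (Fin m → ℝ) →L[ℝ] ℝ :=
  LinearMap.toContinuousLinearMap
    { toFun := fun q => q ⬝ᵥ u
      map_add' := fun a b => add_dotProduct a b u
      map_smul' := fun c a => by simp [smul_dotProduct] }

theorem legL_apply (u q : Fin m → ℝ) : legL u q = q ⬝ᵥ u := rfl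

theorem leg_grad (F : (Fin m → ℝ) → ℝ) (u h : Fin m → ℝ) : fderiv ℝ F u h = grad F u ⬝ᵥ h := by
  have hh : h = ∑ i, h i • (Pi.single i (1 : ℝ) : Fin m → ℝ) := by
    ext j; simp [Finset.sum_apply, Pi.single_apply]
  conv_lhs => rw [hh]
  rw [map_sum, dotProduct]
  refine Finset.sum_congr rfl fun i _ => ?_
  rw [map_smul, smul_eq_mul, mul_comm]
  rfl

theorem leg_abs_dot (p u : Fin m → ℝ) : |p ⬝ᵥ u| ≤ m * ‖p‖ * ‖u‖ := by
  calc |p ⬝ᵥ u| ≤ ∑ i, |p i * u i| := Finset.abs_sum_le_sum_abs _ _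
    _ ≤ ∑ _i : Fin m, ‖p‖ * ‖u‖ := by
        refine Finset.sum_le_sum fun i _ => ?_
        rw [abs_mul]
        exact mul_le_mul (norm_le_pi_norm p i) (norm_le_pi_norm u i) (abs_nonneg _)
          (norm_nonneg _)
    _ = m * ‖p‖ * ‖u‖ := by
        rw [Finset.sum_const, Finset.card_univ, Fintype.card_fin, nsmul_eq_mul]; ring

section

variable {F : (Fin m → ℝ) → ℝ} (hF : Minkowski F)
include hF

theorem leg_smooth {u : Fin m → ℝ} (hu : u ≠ 0) : ContDiffAt ℝ 2 F u :=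
  hF.smooth.contDiffAt (isOpen_compl_singleton.mem_nhds hu)

theorem leg_diff {u : Fin m → ℝ} (hu : u ≠ 0) : DifferentiableAt ℝ F u :=
  (leg_smooth hF hu).differentiableAt (by norm_num)

theorem leg_F0 : F 0 = 0 := by
  have := hF.homog 0 0 le_rfl
  simpa using this

theorem leg_nonneg (u : Fin m → ℝ) : 0 ≤ F u := by
  by_cases h : u = 0
  · rw [h, leg_F0 hF]
  · exact (hF.pos u h).le

theorem leg_ne {u : Fin m → ℝ} (hu : F u = 1) : u ≠ 0 := by
  rintro rfl
  rw [leg_F0 hF] at hu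
  exact zero_ne_one hu

theorem leg_unit {u : Fin m → ℝ} (hu : u ≠ 0) : F ((F u)⁻¹ • u) = 1 := by
  rw [hF.homog _ _ (inv_nonneg.2 (hF.pos u hu).le), inv_mul_cancel₀ (hF.pos u hu).ne']

theorem leg_euler {u : Fin m → ℝ} (hu : u ≠ 0) : fderiv ℝ F u u = F u := by
  have h1 : HasDerivAt (fun s : ℝ => F (s • u)) (fderiv ℝ F u u) 1 := by
    have h2 : HasFDerivAt F (fderiv ℝ F u) ((1 : ℝ) • u) := by
      rw [one_smul]
      exact (leg_diff hF hu).hasFDerivAt
    have h3 : HasDerivAt (fun s : ℝ => s • u) u 1 := by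
      simpa using (hasDerivAt_id (1 : ℝ)).smul_const u
    exact h2.comp_hasDerivAt (1 : ℝ) h3
  have h4 : HasDerivAt (fun s : ℝ => s * F u) (F u) 1 := by
    simpa using (hasDerivAt_id (1 : ℝ)).mul_const (F u)
  have h5 : (fun s : ℝ => F (s • u)) =ᶠ[𝓝 1] fun s : ℝ => s * F u := by
    filter_upwards [lt_mem_nhds (zero_lt_one' ℝ)] with s hs
    exact hF.homog s u hs.le
  exact (h1.congr_of_eventuallyEq h5.symm).unique h4 

/-- Bounds by the norm. -/
theorem leg_bounds : ∃ c C : ℝ, 0 < c ∧ ∀ u, c * ‖u‖ ≤ F u ∧ F u ≤ C * ‖u‖ := by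
  by_cases hm : ∃ u : Fin m → ℝ, u ≠ 0
  · obtain ⟨u0, hu0⟩ := hm
    have hK : IsCompact (Metric.sphere (0 : Fin m → ℝ) 1) := isCompact_sphere 0 1
    have hne : (Metric.sphere (0 : Fin m → ℝ) 1).Nonempty :=
      ⟨‖u0‖⁻¹ • u0, by
        rw [mem_sphere_zero_iff_norm, norm_smul, norm_inv, norm_norm,
          inv_mul_cancel₀ (norm_ne_zero_iff.2 hu0)]⟩
    have hc : ContinuousOn F (Metric.sphere (0 : Fin m → ℝ) 1) := fun u hu =>
      (leg_diff hF (u := u) (by
        rintro rfl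
        simp at hu)).continuousAt.continuousWithinAt
    obtain ⟨a, ha, hamin⟩ := hK.exists_isMinOn hne hc
    obtain ⟨b, hb, hbmax⟩ := hK.exists_isMaxOn hne hc
    have ha0 : a ≠ 0 := by
      rintro rfl
      simp at ha
    refine ⟨F a, F b, hF.pos a ha0, fun u => ?_⟩
    by_cases hu : u = 0
    · subst hu
      rw [leg_F0 hF]; simp
    · have hu1 : ‖u‖ ≠ 0 := norm_ne_zero_iff.2 hu
      have hs : ‖u‖⁻¹ • u ∈ Metric.sphere (0 : Fin m → ℝ) 1 := by
        rw [mem_sphere_zero_iff_norm, norm_smul, norm_inv, norm_norm, inv_mul_cancel₀ hu1]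
      have h1 : F u = ‖u‖ * F (‖u‖⁻¹ • u) := by
        rw [← hF.homog _ _ (norm_nonneg _), smul_smul, mul_inv_cancel₀ hu1, one_smul]
      have h2 : F a ≤ F (‖u‖⁻¹ • u) := hamin hs
      have h3 : F (‖u‖⁻¹ • u) ≤ F b := hbmax hs
      rw [h1]
      constructor
      · rw [mul_comm]; exact mul_le_mul_of_nonneg_left h2 (norm_nonneg _)
      · rw [mul_comm (F b)]; exact mul_le_mul_of_nonneg_left h3 (norm_nonneg _)
  · push Not at hm
    refine ⟨1, 1, one_pos, fun u => ?_⟩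
    rw [hm u, leg_F0 hF]; simp

theorem leg_cont : Continuous F := by
  rw [continuous_iff_continuousAt]
  intro u
  by_cases hu : u = 0
  · subst hu
    obtain ⟨c, C, hc, hb⟩ := leg_bounds hF
    rw [ContinuousAt, leg_F0 hF]
    refine squeeze_zero (fun u => leg_nonneg hF u) (fun u => (hb u).2) ?_
    have : Tendsto (fun u : Fin m → ℝ => C * ‖u‖) (𝓝 0) (𝓝 (C * ‖(0 : Fin m → ℝ)‖)) :=
      (continuous_const.mul continuous_norm).tendsto 0
    simpa using this
  · exact (leg_diff hF hu).continuousAt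

theorem leg_compact : IsCompact {u | F u = 1} := by
  obtain ⟨c, C, hc, hb⟩ := leg_bounds hF
  refine Metric.isCompact_of_isClosed_isBounded (isClosed_eq (leg_cont hF) continuous_const) ?_
  refine (Metric.isBounded_closedBall (x := (0 : Fin m → ℝ)) (r := c⁻¹)).subset ?_
  intro u hu
  rw [mem_closedBall_zero_iff]
  have h1 : c * ‖u‖ ≤ 1 := by
    have := (hb u).1
    rwa [show F u = 1 from hu] at this
  rw [← one_div, le_div_iff₀ hc, mul_comm]
  exact h1

/-- The derivative of `F²`. -/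
theorem leg_fderiv_sq {u : Fin m → ℝ} (hu : u ≠ 0) (h : Fin m → ℝ) :
    fderiv ℝ (fun y => F y ^ 2) u h = 2 * F u * fderiv ℝ F u h := by
  have h1 := ((leg_diff hF hu).hasFDerivAt.pow 2).fderiv
  rw [h1]
  simp [mul_assoc]

/-- Strict convexity of `F²` along a segment avoiding the origin. -/
theorem leg_seg {u h : Fin m → ℝ} (hh : h ≠ 0) (hs : ∀ t ∈ Icc (0 : ℝ) 1, u + t • h ≠ 0) :
    fderiv ℝ (fun y => F y ^ 2) u h < fderiv ℝ (fun y => F y ^ 2) (u + h) h ∧
      F u ^ 2 + fderiv ℝ (fun y => F y ^ 2) u h < F (u + h) ^ 2 := by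
  have hg : ∀ v : Fin m → ℝ, v ≠ 0 → ContDiffAt ℝ 2 (fun y => F y ^ 2) v := fun v hv =>
    (leg_smooth hF hv).pow 2
  have hl : ∀ t : ℝ, HasDerivAt (fun t : ℝ => u + t • h) h t := fun t => by
    simpa using ((hasDerivAt_id t).smul_const h).const_add u
  have hd1 : ∀ t ∈ Icc (0 : ℝ) 1, HasDerivAt (fun t : ℝ => F (u + t • h) ^ 2)
      (fderiv ℝ (fun y => F y ^ 2) (u + t • h) h) t := fun t ht => by
    have h1 : HasFDerivAt (fun y => F y ^ 2) (fderiv ℝ (fun y => F y ^ 2) (u + t • h))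
        (u + t • h) := ((hg _ (hs t ht)).differentiableAt (by norm_num)).hasFDerivAt
    exact h1.comp_hasDerivAt t (hl t)
  have hd2 : ∀ t ∈ Icc (0 : ℝ) 1,
      HasDerivAt (fun t : ℝ => fderiv ℝ (fun y => F y ^ 2) (u + t • h) h)
      (fderiv ℝ (fderiv ℝ (fun y => F y ^ 2)) (u + t • h) h h) t := fun t ht => by
    have h1 : DifferentiableAt ℝ (fderiv ℝ (fun y => F y ^ 2)) (u + t • h) :=
      ((hg _ (hs t ht)).fderiv_right (m := 1) (by norm_num)).differentiableAt (by norm_num)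
    have h2 := h1.hasFDerivAt.comp_hasDerivAt t (hl t)
    exact h2.clm_apply (hasDerivAt_const t h) |>.congr_deriv (by simp)
  have hmono : StrictMonoOn (fun t : ℝ => fderiv ℝ (fun y => F y ^ 2) (u + t • h) h)
      (Icc 0 1) := by
    refine strictMonoOn_of_deriv_pos (convex_Icc 0 1)
      (fun t ht => (hd2 t ht).continuousAt.continuousWithinAt) fun t ht => ?_
    rw [interior_Icc] at ht
    rw [(hd2 t ⟨ht.1.le, ht.2.le⟩).deriv]
    exact hF.convex _ _ (hs t ⟨ht.1.le, ht.2.le⟩) hh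
  have h0 : (0 : ℝ) ∈ Icc (0 : ℝ) 1 := ⟨le_rfl, zero_le_one⟩
  have h1 : (1 : ℝ) ∈ Icc (0 : ℝ) 1 := ⟨zero_le_one, le_rfl⟩
  refine ⟨by simpa using hmono h0 h1 zero_lt_one, ?_⟩
  obtain ⟨ξ, hξ, hξ'⟩ := exists_hasDerivAt_eq_slope _ _ (zero_lt_one' ℝ)
    (fun t ht => (hd1 t ht).continuousAt.continuousWithinAt)
    (fun t ht => hd1 t ⟨ht.1.le, ht.2.le⟩)
  have h2 := hmono h0 ⟨hξ.1.le, hξ.2.le⟩ hξ.1
  have h3 : fderiv ℝ (fun y => F y ^ 2) u h <
      fderiv ℝ (fun y => F y ^ 2) (u + ξ • h) h := by simpa using h2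
  have h4 : fderiv ℝ (fun y => F y ^ 2) (u + ξ • h) h = F (u + h) ^ 2 - F u ^ 2 := by
    rw [hξ']; simp
  linarith

/-- Support inequality. -/
theorem leg_support {u : Fin m → ℝ} (hu : F u = 1) (w : Fin m → ℝ) :
    grad F u ⬝ᵥ w ≤ F w := by
  have hu0 := leg_ne hF hu
  have key : ∀ w, F w = 1 → fderiv ℝ F u w ≤ 1 := by
    intro w hw
    have hE : fderiv ℝ F u u = 1 := by rw [leg_euler hF hu0, hu]
    by_cases hwu : w = u
    · rw [hwu, hE]
    by_cases hs : ∀ t ∈ Icc (0 : ℝ) 1, u + t • (w - u) ≠ 0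
    · have h1 := (leg_seg hF (sub_ne_zero.2 hwu) hs).2
      rw [leg_fderiv_sq hF hu0, hu, add_sub_cancel, hw, map_sub, hE] at h1
      linarith
    · push Not at hs
      obtain ⟨t, ht, h0⟩ := hs
      have ht0 : t ≠ 0 := by
        rintro rfl
        rw [zero_smul, add_zero] at h0
        exact hu0 h0
      have htp : 0 < t := lt_of_le_of_ne ht.1 (Ne.symm ht0)
      have h1 : fderiv ℝ F u (u + t • (w - u)) = 0 := by rw [h0, map_zero]
      rw [map_add, map_smul, map_sub, hE, smul_eq_mul] at h1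
      by_contra hcon
      push Not at hcon
      have : 0 < t * (fderiv ℝ F u w - 1) := mul_pos htp (by linarith)
      linarith
  rw [← leg_grad]
  by_cases hw : w = 0
  · rw [hw, map_zero, leg_F0 hF]
  · have h1 := key _ (leg_unit hF hw)
    rw [map_smul, smul_eq_mul, ← div_eq_inv_mul, div_le_one (hF.pos w hw)] at h1
    exact h1

/-- The gradient is injective on the unit sphere of `F`. -/
theorem leg_inj {u v : Fin m → ℝ} (hu : F u = 1) (hv : F v = 1) (h : grad F u = grad F v) :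
    u = v := by
  have hu0 := leg_ne hF hu
  have hv0 := leg_ne hF hv
  have hD : ∀ w, fderiv ℝ F u w = fderiv ℝ F v w := fun w => by
    rw [leg_grad, leg_grad, h]
  have hEu : fderiv ℝ F u u = 1 := by rw [leg_euler hF hu0, hu]
  have hEv : fderiv ℝ F u v = 1 := by rw [hD, leg_euler hF hv0, hv]
  by_contra hne
  have hne' : v - u ≠ 0 := sub_ne_zero.2 (Ne.symm hne)
  by_cases hs : ∀ t ∈ Icc (0 : ℝ) 1, u + t • (v - u) ≠ 0
  · have h1 := (leg_seg hF hne' hs).1
    rw [add_sub_cancel, leg_fderiv_sq hF hu0, leg_fderiv_sq hF hv0, hu, hv, ← hD] at h1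
    exact lt_irrefl _ h1
  · push Not at hs
    obtain ⟨t, ht, h0⟩ := hs
    have h1 : fderiv ℝ F u (u + t • (v - u)) = 0 := by rw [h0, map_zero]
    rw [map_add, map_smul, map_sub, hEu, hEv, smul_eq_mul] at h1
    linarith

end

/-- The Legendre dual, from a choice of maximisers. -/
theorem leg_main {F : (Fin m → ℝ) → ℝ} (hF : Minkowski F) (hm : m ≠ 0) :
    ∃ H : (Fin m → ℝ) → ℝ, IsNorm H ∧ (∀ u, F u = 1 → H (grad F u) = 1 ∧ grad H (grad F u) = u) ∧
      ∀ p, H p = 1 → ∃ u, F u = 1 ∧ grad F u = p := by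
  have hK := leg_compact hF
  obtain ⟨u0, hu0⟩ : ∃ u : Fin m → ℝ, u ≠ 0 := by
    have : Nonempty (Fin m) := ⟨⟨0, Nat.pos_of_ne_zero hm⟩⟩
    exact exists_ne 0
  have hne : {u | F u = 1}.Nonempty := ⟨_, leg_unit hF hu0⟩
  have hex : ∀ p : Fin m → ℝ, ∃ u, F u = 1 ∧ ∀ v, F v = 1 → p ⬝ᵥ v ≤ p ⬝ᵥ u := by
    intro p
    have hc : ContinuousOn (fun u : Fin m → ℝ => p ⬝ᵥ u) {u | F u = 1} :=
      (Continuous.continuousOn (by fun_prop))
    obtain ⟨u, hu, hmax⟩ := hK.exists_isMaxOn hne hc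
    exact ⟨u, hu, fun v hv => hmax hv⟩
  choose U hU hmax using hex
  obtain ⟨R, hR⟩ := hK.isBounded.exists_norm_le
  have hUR : ∀ p, ‖U p‖ ≤ R := fun p => hR _ (hU p)
  have hR0 : 0 ≤ R := (norm_nonneg _).trans (hUR 0)
  -- basic inequalities
  have hsub : ∀ p q : Fin m → ℝ, (q - p) ⬝ᵥ U p ≤ q ⬝ᵥ U q - p ⬝ᵥ U p := by
    intro p q
    have := hmax q (U p) (hU p)
    rw [sub_dotProduct]
    linarith
  have hH0 : ∀ p : Fin m → ℝ, p ≠ 0 → 0 < p ⬝ᵥ U p := by
    intro p hp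
    have h1 := hmax p _ (leg_unit hF hp)
    rw [dotProduct_smul, smul_eq_mul] at h1
    have h2 : 0 < p ⬝ᵥ p := by
      have : 0 ≤ p ⬝ᵥ p := Finset.sum_nonneg fun i _ => mul_self_nonneg _
      refine lt_of_le_of_ne this (fun h => hp ?_)
      exact dotProduct_self_eq_zero.1 h.symm
    exact lt_of_lt_of_le (mul_pos (inv_pos.2 (hF.pos p hp)) h2) h1
  have hineq : ∀ p w : Fin m → ℝ, p ⬝ᵥ w ≤ (p ⬝ᵥ U p) * F w := by
    intro p w
    by_cases hw : w = 0
    · subst hw; rw [dotProduct_zero, leg_F0 hF, mul_zero]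
    · have h1 := hmax p _ (leg_unit hF hw)
      rw [dotProduct_smul, smul_eq_mul, ← div_eq_inv_mul, div_le_iff₀ (hF.pos w hw)] at h1
      exact h1
  -- a maximiser has gradient proportional to `p`
  have hmaxgrad : ∀ p u : Fin m → ℝ, F u = 1 → (∀ v, F v = 1 → p ⬝ᵥ v ≤ p ⬝ᵥ u) →
      p = (p ⬝ᵥ U p) • grad F u := by
    intro p u hu hmx
    have hval : p ⬝ᵥ u = p ⬝ᵥ U p := le_antisymm (hmax p u hu) (hmx _ (hU p))
    have hmin : IsLocalMin (fun w => (p ⬝ᵥ U p) * F w - p ⬝ᵥ w) u := by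
      refine Filter.Eventually.of_forall fun w => ?_
      have h1 := hineq p w
      simp only
      rw [hu, mul_one, hval, sub_self]
      linarith
    have h0 := hmin.fderiv_eq_zero
    have h1 : HasFDerivAt (fun w => (p ⬝ᵥ U p) * F w - p ⬝ᵥ w)
        ((p ⬝ᵥ U p) • fderiv ℝ F u - legL p) u := by
      refine ((leg_diff hF (leg_ne hF hu)).hasFDerivAt.const_mul _).sub ?_
      have h2 : (fun w : Fin m → ℝ => p ⬝ᵥ w) = legL p := by
        funext w; rw [legL_apply, dotProduct_comm]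
      have h3 := (legL p).hasFDerivAt (x := u)
      rw [← h2] at h3
      exact h3
    rw [h1.fderiv] at h0
    funext i
    have h3 := DFunLike.congr_fun h0 (Pi.single i 1)
    simp only [_root_.sub_apply, _root_.smul_apply,
      _root_.zero_apply, smul_eq_mul, legL_apply, single_one_dotProduct] at h3
    rw [Pi.smul_apply, smul_eq_mul]
    unfold grad
    linarith
  have huniq : ∀ p u : Fin m → ℝ, p ≠ 0 → F u = 1 → (∀ v, F v = 1 → p ⬝ᵥ v ≤ p ⬝ᵥ u) →
      u = U p := by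
    intro p u hp hu hmx
    have h1 := hmaxgrad p u hu hmx
    have h2 := hmaxgrad p (U p) (hU p) (hmax p)
    refine leg_inj hF hu (hU p) ?_
    have h3 : (p ⬝ᵥ U p) • grad F u = (p ⬝ᵥ U p) • grad F (U p) := by rw [← h1, ← h2]
    exact smul_right_injective _ (hH0 p hp).ne' h3
  -- Lipschitz
  have hlip : ∀ p q : Fin m → ℝ, |q ⬝ᵥ U q - p ⬝ᵥ U p| ≤ m * ‖q - p‖ * R := by
    intro p q
    have h1 := hsub p q
    have h2 := hsub q p
    have h3 := leg_abs_dot (q - p) (U p)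
    have h4 := leg_abs_dot (p - q) (U q)
    have h5 : (m : ℝ) * ‖q - p‖ * ‖U p‖ ≤ m * ‖q - p‖ * R :=
      mul_le_mul_of_nonneg_left (hUR p) (by positivity)
    have h6 : (m : ℝ) * ‖p - q‖ * ‖U q‖ ≤ m * ‖q - p‖ * R := by
      rw [norm_sub_rev p q]
      exact mul_le_mul_of_nonneg_left (hUR q) (by positivity)
    rw [abs_le] at *
    constructor <;> linarith [h3.1, h4.1]
  have hcont : Continuous fun p : Fin m → ℝ => p ⬝ᵥ U p := by
    rw [continuous_iff_continuousAt]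
    intro p
    rw [ContinuousAt, tendsto_iff_dist_tendsto_zero]
    refine squeeze_zero (g := fun q : Fin m → ℝ => m * ‖q - p‖ * R) (fun _ => dist_nonneg)
      (fun q => ?_) ?_
    · rw [Real.dist_eq]; exact hlip p q
    have : Tendsto (fun q : Fin m → ℝ => m * ‖q - p‖ * R) (𝓝 p) (𝓝 (m * ‖p - p‖ * R)) :=
      Continuous.tendsto (by fun_prop) p
    simpa using this
  -- continuity of the maximiser
  have hUcont : ∀ p : Fin m → ℝ, p ≠ 0 → Tendsto U (𝓝 p) (𝓝 (U p)) := by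
    intro p hp
    refine hK.tendsto_nhds_of_unique_mapClusterPt (Filter.Eventually.of_forall fun q => hU q) ?_
    intro v hv hcl
    refine huniq p v hp hv fun w hw => ?_
    by_contra hcon
    push Not at hcon
    -- `p ⬝ᵥ U q → p ⬝ᵥ U p`
    have ht : Tendsto (fun q => p ⬝ᵥ U q) (𝓝 p) (𝓝 (p ⬝ᵥ U p)) := by
      have h1 : Tendsto (fun q : Fin m → ℝ => (p - q) ⬝ᵥ U q) (𝓝 p) (𝓝 0) := by
        rw [tendsto_zero_iff_abs_tendsto_zero]
        refine squeeze_zero (g := fun q : Fin m → ℝ => m * ‖p - q‖ * R)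
          (fun _ => abs_nonneg _) (fun q => ?_) ?_
        · exact (leg_abs_dot _ _).trans (mul_le_mul_of_nonneg_left (hUR q) (by positivity))
        · have : Tendsto (fun q : Fin m → ℝ => m * ‖p - q‖ * R) (𝓝 p)
              (𝓝 (m * ‖p - p‖ * R)) := Continuous.tendsto (by fun_prop) p
          simpa using this
      have h2 := (hcont.tendsto p).add h1
      simp only [add_zero] at h2
      refine h2.congr fun q => ?_
      rw [sub_dotProduct]; ring
    have h3 : p ⬝ᵥ v < p ⬝ᵥ U p := lt_of_lt_of_le hcon (hmax p w hw)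
    have h4 : ∀ᶠ q in 𝓝 p, (p ⬝ᵥ v + p ⬝ᵥ U p) / 2 < p ⬝ᵥ U q :=
      ht.eventually (lt_mem_nhds (by linarith))
    have h5 : {v' : Fin m → ℝ | p ⬝ᵥ v' < (p ⬝ᵥ v + p ⬝ᵥ U p) / 2} ∈ 𝓝 v := by
      refine IsOpen.mem_nhds (isOpen_lt (by fun_prop) continuous_const) ?_
      show p ⬝ᵥ v < _
      linarith
    have h6 := (mapClusterPt_iff_frequently.1 hcl _ h5).and_eventually h4
    obtain ⟨q, hq1, hq2⟩ := h6.exists
    exact lt_asymm hq1 hq2
  -- differentiability
  have hdiff : ∀ p : Fin m → ℝ, p ≠ 0 →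
      HasFDerivAt (fun p : Fin m → ℝ => p ⬝ᵥ U p) (legL (U p)) p := by
    intro p hp
    rw [hasFDerivAt_iff_isLittleO, Asymptotics.isLittleO_iff]
    intro c hc
    have h1 : ∀ᶠ q in 𝓝 p, ‖U q - U p‖ < c / (m + 1) := by
      have := (hUcont p hp)
      rw [tendsto_iff_norm_sub_tendsto_zero] at this
      exact this.eventually (gt_mem_nhds (by positivity))
    filter_upwards [h1] with q hq
    have h2 := hsub p q
    have h3 := hsub q p
    have h4 := leg_abs_dot (q - p) (U q - U p)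
    have h5 : (q - p) ⬝ᵥ (U q - U p) = (q - p) ⬝ᵥ U q - (q - p) ⬝ᵥ U p := by
      rw [dotProduct_sub]
    have h6 : (p - q) ⬝ᵥ U q = - ((q - p) ⬝ᵥ U q) := by rw [← neg_sub q p, neg_dotProduct]
    rw [legL_apply, Real.norm_eq_abs, abs_of_nonneg (by linarith)]
    have h7 : (m : ℝ) * ‖q - p‖ * ‖U q - U p‖ ≤ c * ‖q - p‖ := by
      have h8 : (m : ℝ) * ‖U q - U p‖ ≤ c := by
        have h9 : (m : ℝ) * ‖U q - U p‖ ≤ (m + 1) * (c / (m + 1)) :=
          mul_le_mul (by linarith) hq.le (norm_nonneg _) (by positivity)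
        rwa [mul_div_cancel₀ _ (by positivity : ((m : ℝ) + 1) ≠ 0)] at h9
      calc (m : ℝ) * ‖q - p‖ * ‖U q - U p‖ = (m * ‖U q - U p‖) * ‖q - p‖ := by ring
        _ ≤ c * ‖q - p‖ := mul_le_mul_of_nonneg_right h8 (norm_nonneg _)
    have h8 := le_abs_self ((q - p) ⬝ᵥ (U q - U p))
    linarith
  have hnorm : IsNorm (fun p : Fin m → ℝ => p ⬝ᵥ U p) := by
    refine ⟨hcont, fun s q hs => ?_, hH0, fun q hq => (hdiff q hq).differentiableAt⟩
    apply le_antisymm
    · rw [smul_dotProduct, smul_eq_mul]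
      exact mul_le_mul_of_nonneg_left (hmax q _ (hU _)) hs
    · have := hmax (s • q) (U q) (hU q)
      rwa [smul_dotProduct, smul_eq_mul] at this
  refine ⟨fun p => p ⬝ᵥ U p, hnorm, fun u hu => ?_, fun p hp => ?_⟩
  · have hE : grad F u ⬝ᵥ u = 1 := by rw [← leg_grad, leg_euler hF (leg_ne hF hu), hu]
    have hp : grad F u ≠ 0 := by
      intro h
      rw [h, zero_dotProduct] at hE
      exact zero_ne_one hE
    have hmx : ∀ v, F v = 1 → grad F u ⬝ᵥ v ≤ grad F u ⬝ᵥ u := fun v hv => by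
      rw [hE, ← hv]; exact leg_support hF hu v
    have h1 := huniq _ u hp hu hmx
    refine ⟨by simp only; rw [← h1, hE], ?_⟩
    funext i
    unfold grad
    have h2 := (hdiff _ hp).fderiv
    unfold grad at h2
    rw [h2, legL_apply, single_one_dotProduct]
    unfold grad at h1
    rw [← h1]
  · refine ⟨U p, hU p, ?_⟩
    have h2 := hmaxgrad p (U p) (hU p) (hmax p)
    simp only at hp
    rw [hp, one_smul] at h2
    exact h2.symm

theorem legendre {F : (Fin m → ℝ) → ℝ} (hF : Minkowski F) :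
    ∃ H : (Fin m → ℝ) → ℝ, IsNorm H ∧ (∀ u, F u = 1 → H (grad F u) = 1 ∧ grad H (grad F u) = u) ∧
      ∀ p, H p = 1 → ∃ u, F u = 1 ∧ grad F u = p := by
  by_cases hm : m = 0
  · subst hm
    have hz : ∀ u : Fin 0 → ℝ, u = 0 := fun u => Subsingleton.elim _ _
    refine ⟨fun _ => 0, ⟨continuous_const, fun s q _ => by simp, fun q hq => absurd (hz q) hq,
      fun q hq => absurd (hz q) hq⟩, fun u hu => ?_, fun p hp => absurd hp zero_ne_one⟩
    rw [hz u, leg_F0 hF] at hu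
    exact absurd hu zero_ne_one
  · exact leg_main hF hm

end Pool.Agent.W_8cdb14_h41
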