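import Pool.Agent.W_8cdb14_h41.Norms

/-!
# Locally homogeneous Finsler manifolds `Γ \ G / K` and their geodesic flows

`G` is a Lie group with Lie algebra `𝔤`, `K` a compact connected subgroup with Lie algebra `k`,
`Γ` a discrete subgroup.  A `G`-invariant Finsler metric on `G / K` is a `K`-invariant Minkowski
norm on `𝔤 / k = T_o(G / K)`.
-/

open MeasureTheory Matrix
open scoped Manifold

namespace Pool.Agent.W_8cdb14_h41

/-- A `G`-invariant Finsler metric on `G / K`, in a basis `e` of the Lie algebra `𝔤` whose last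
`l` vectors span the Lie algebra `k` of `K`; the first `m` vectors give linear coordinates on
`𝔤 / k = T_o(G / K)`, and `F` is the metric on `T_o(G / K) = ℝ^m`. -/
structure HomFinsler (𝔤 : Type) [LieRing 𝔤] [LieAlgebra ℝ 𝔤] (m l : ℕ) where
  /-- the basis -/
  e : Module.Basis (Fin m ⊕ Fin l) ℝ 𝔤
  /-- the Finsler metric at the base point -/
  F : (Fin m → ℝ) → ℝ

namespace HomFinsler

variable {𝔤 : Type} [LieRing 𝔤] [LieAlgebra ℝ 𝔤] {m l : ℕ} (D : HomFinsler 𝔤 m l)

/-- The Lie algebra `k` of the isotropy group `K`. -/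
def k : Submodule ℝ 𝔤 := Submodule.span ℝ (Set.range fun j => D.e (Sum.inr j))

/-- The class of `z` in `𝔤 / k`, in coordinates. -/
noncomputable def hor (z : 𝔤) : Fin m → ℝ := fun i => D.e.repr z (Sum.inl i)

/-- The vector of `𝔤` with coordinates `u` and no component in `k`. -/
noncomputable def vec (u : Fin m → ℝ) : 𝔤 := ∑ i, u i • D.e (Sum.inl i)

/-- The group generated by the `exp (ad y)`, `y ∈ k`, in the basis `e`: the group `Ad(K)`. -/
noncomputable def K0 : Submonoid (Matrix (Fin m ⊕ Fin l) (Fin m ⊕ Fin l) ℝ) :=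
  Submonoid.closure {g | ∃ y ∈ D.k, g = NormedSpace.exp
    (LinearMap.toMatrix D.e D.e (LieAlgebra.ad ℝ 𝔤 y))}

/-- The data are those of a `G`-invariant Finsler metric on `G / K` with `K` compact connected and
acting almost effectively: `k` is a subalgebra, `e` is orthonormal for an `Ad(K)`-invariant inner
product, `Ad(K)` is closed, `F` is a Minkowski norm and `F` is invariant under `K`. -/
structure Valid : Prop where
  sub : ∀ y ∈ D.k, ∀ z ∈ D.k, ⁅y, z⁆ ∈ D.k
  skew : ∀ y ∈ D.k, ∀ a b, D.e.repr ⁅y, D.e a⁆ b = -D.e.repr ⁅y, D.e b⁆ a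
  effective : ∀ y ∈ D.k, (∀ z : 𝔤, ⁅y, z⁆ = 0) → y = 0
  closed : IsClosed (D.K0 : Set (Matrix (Fin m ⊕ Fin l) (Fin m ⊕ Fin l) ℝ))
  minkowski : Minkowski D.F
  invariant : ∀ y ∈ D.k, ∀ u : Fin m → ℝ, u ≠ 0 → fderiv ℝ D.F u (D.hor ⁅y, D.vec u⁆) = 0

/-- The body momentum of the velocity `ξ` (the Legendre transform of its class in `𝔤 / k`), a
linear form on `𝔤` which vanishes on `k`. -/
noncomputable def mom (ξ z : 𝔤) : ℝ := fderiv ℝ D.F (D.hor ξ) (D.hor z)

end HomFinsler

section Flow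

variable {E : Type} [NormedAddCommGroup E] [NormedSpace ℝ E]
  {M : Type} [TopologicalSpace M] {I : ModelWithCorners ℝ E M}
  {G : Type} [TopologicalSpace G] [ChartedSpace M G] [Group G]
  [LieGroup I (minSmoothness ℝ 3) G] [CompleteSpace E] {m l : ℕ}

/-- `x` is a curve in `G` with body velocity `ξ` (so `x' = x ξ`) whose projection to `G / K` is a
unit speed geodesic of the invariant Finsler metric `D`: Euler-Poincare equation
`p' = ad*_ξ p` for the body momentum `p = D.mom ξ`. -/
structure IsGeodesicLift (D : HomFinsler (GroupLieAlgebra I G) m l) (x : ℝ → G)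
    (ξ : ℝ → GroupLieAlgebra I G) : Prop where
  cont : Continuous ξ
  velocity : ∀ t, HasMFDerivAt 𝓘(ℝ, ℝ) I x t
    (ContinuousLinearMap.toSpanSingleton ℝ (mulInvariantVectorField (ξ t) (x t)))
  unit : ∀ t, D.F (D.hor (ξ t)) = 1
  euler : ∀ t (z : GroupLieAlgebra I G),
    HasDerivAt (fun s => D.mom (ξ s) z) (D.mom (ξ t) ⁅ξ t, z⁆) t

/-- The points `(x, u)` with `F u = 1`, i.e. the unit tangent vectors `x · u` of `G / K` at `x K`,
pulled back to `G`. -/
def unitBundle (D : HomFinsler (GroupLieAlgebra I G) m l) : Set (G × (Fin m → ℝ)) :=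
  {z | D.F z.2 = 1}

/-- The Liouville measure: the product of a Haar measure of `G` and of the cone measure of the
unit cosphere (image of the unit sphere by the Legendre transform `u ↦ grad F u`). -/
noncomputable def liouville [MeasurableSpace G] (μ : Measure G)
    (D : HomFinsler (GroupLieAlgebra I G) m l) (S : Set (G × (Fin m → ℝ))) : ENNReal :=
  (μ.prod volume) {z | ∃ s ∈ Set.Ioc (0 : ℝ) 1, ∃ u, (z.1, u) ∈ S ∧ z.2 = s • grad D.F u}

/-- Ergodicity of the geodesic flow of `Γ \ G / K` for the Liouville measure. -/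
def IsErgodic [MeasurableSpace G] (μ : Measure G) (Γ : Subgroup G)
    (D : HomFinsler (GroupLieAlgebra I G) m l) : Prop :=
  ∀ S ⊆ unitBundle D, MeasurableSet S →
    (∀ γ ∈ Γ, ∀ z ∈ S, (γ * z.1, z.2) ∈ S) →
    (∀ x ξ, IsGeodesicLift D x ξ → ∀ s t, (x s, D.hor (ξ s)) ∈ S → (x t, D.hor (ξ t)) ∈ S) →
    liouville μ D S = 0 ∨ liouville μ D (unitBundle D \ S) = 0

end Flow

end Pool.Agent.W_8cdb14_h41
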