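import Pool.Agent.W_8cdb14_h41.Core
import Pool.Agent.W_8cdb14_h41.Legendre
import Pool.Agent.W_8cdb14_h41.Model

/-!
From the coordinates to Lie groups.
-/

set_option linter.unusedSectionVars false

open MeasureTheory Matrix
open scoped Manifold

namespace Pool.Agent.W_8cdb14_h41

namespace HomFinsler

variable {𝔤 : Type} [LieRing 𝔤] [LieAlgebra ℝ 𝔤] {m l : ℕ} (D : HomFinsler 𝔤 m l)

/-- The matrices of `ad`. -/
noncomputable def AA : (Fin m ⊕ Fin l → ℝ) →ₗ[ℝ] Matrix (Fin m ⊕ Fin l) (Fin m ⊕ Fin l) ℝ where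
  toFun x := LinearMap.toMatrix D.e D.e (LieAlgebra.ad ℝ 𝔤 (D.e.equivFun.symm x))
  map_add' x y := by rw [map_add, map_add, map_add]
  map_smul' c x := by rw [map_smul, map_smul, map_smul]; rfl

theorem AA_apply (x : Fin m ⊕ Fin l → ℝ) :
    D.AA x = LinearMap.toMatrix D.e D.e (LieAlgebra.ad ℝ 𝔤 (D.e.equivFun.symm x)) := rfl

theorem AA_mulVec (x y : Fin m ⊕ Fin l → ℝ) :
    D.AA x *ᵥ y = D.e.equivFun ⁅D.e.equivFun.symm x, D.e.equivFun.symm y⁆ := by
  rw [AA_apply]
  have h := LinearMap.toMatrix_mulVec_repr D.e D.e (LieAlgebra.ad ℝ 𝔤 (D.e.equivFun.symm x))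
    (D.e.equivFun.symm y)
  have h2 : (D.e.repr (D.e.equivFun.symm y) : Fin m ⊕ Fin l → ℝ) = y := by
    have := D.e.equivFun.apply_symm_apply y
    exact this
  rw [h2] at h
  rw [h]
  rfl

theorem isAd : IsAd D.AA where
  jacobi x y := by
    have h : ∀ X Y : 𝔤, LieAlgebra.ad ℝ 𝔤 ⁅X, Y⁆ =
        LieAlgebra.ad ℝ 𝔤 X * LieAlgebra.ad ℝ 𝔤 Y - LieAlgebra.ad ℝ 𝔤 Y * LieAlgebra.ad ℝ 𝔤 X := by
      intro X Y
      ext z
      simp
    rw [AA_mulVec, AA_apply, LinearEquiv.symm_apply_apply, h,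
      map_sub, LinearMap.toMatrix_mul, LinearMap.toMatrix_mul]
    rfl
  skew x y := by
    rw [AA_mulVec, AA_mulVec, ← lie_skew, map_neg]

theorem mem_k {z : 𝔤} : z ∈ D.k ↔ D.e.equivFun z ∈ kk m l := by
  constructor
  · intro hz
    refine Submodule.span_induction ?_ ?_ ?_ ?_ hz
    · rintro _ ⟨j, rfl⟩ i
      simp [Module.Basis.equivFun_apply, Finsupp.single_apply]
    · rw [map_zero]; exact Submodule.zero_mem _
    · intro a b _ _ ha hb
      rw [map_add]; exact Submodule.add_mem _ ha hb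
    · intro c a _ ha
      rw [map_smul]; exact Submodule.smul_mem _ _ ha
  · intro hz
    rw [← D.e.sum_equivFun z, Fintype.sum_sum_type]
    refine Submodule.add_mem _ ?_ ?_
    · rw [Finset.sum_eq_zero]
      · exact Submodule.zero_mem _
      · intro i _
        rw [mem_kk.1 hz i, zero_smul]
    · exact Submodule.sum_mem _ fun j _ => Submodule.smul_mem _ _
        (Submodule.subset_span ⟨j, rfl⟩)

theorem K0_eq : D.K0 = Kgrp D.AA := by
  unfold K0 Kgrp
  congr 1
  ext g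
  constructor
  · rintro ⟨y, hy, rfl⟩
    exact ⟨D.e.equivFun y, D.mem_k.1 hy, by rw [AA_apply, LinearEquiv.symm_apply_apply]⟩
  · rintro ⟨y, hy, rfl⟩
    exact ⟨D.e.equivFun.symm y, D.mem_k.2 (by rwa [LinearEquiv.apply_symm_apply]), rfl⟩

theorem skewA (hD : D.Valid) : ∀ y ∈ kk m l, (D.AA y)ᵀ = -D.AA y := by
  intro y hy
  have hY : D.e.equivFun.symm y ∈ D.k := D.mem_k.2 (by rwa [LinearEquiv.apply_symm_apply])
  ext a b
  rw [Matrix.transpose_apply, Matrix.neg_apply, AA_apply, LinearMap.toMatrix_apply,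
    LinearMap.toMatrix_apply]
  exact hD.skew _ hY a b

theorem cenA (hD : D.Valid) : ∀ y ∈ kk m l, D.AA y = 0 → y = 0 := by
  intro y hy h
  have hY : D.e.equivFun.symm y ∈ D.k := D.mem_k.2 (by rwa [LinearEquiv.apply_symm_apply])
  have h1 : LieAlgebra.ad ℝ 𝔤 (D.e.equivFun.symm y) = 0 := by
    rw [AA_apply] at h
    exact (LinearMap.toMatrix D.e D.e).map_eq_zero_iff.1 h
  have h2 := hD.effective _ hY (fun z => by
    have := LinearMap.congr_fun h1 z
    exact this)
  exact D.e.equivFun.symm.map_eq_zero_iff.1 h2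

theorem traceA (hU : ∀ x : 𝔤, LinearMap.trace ℝ 𝔤 (LieAlgebra.ad ℝ 𝔤 x) = 0) :
    ∀ x, (D.AA x).trace = 0 := by
  intro x
  rw [AA_apply, ← LinearMap.trace_eq_matrix_trace ℝ D.e]
  exact hU _

theorem mom_eq (ξ z : 𝔤) :
    D.mom ξ z = emb m l (grad D.F (D.hor ξ)) ⬝ᵥ D.e.equivFun z := by
  rw [dotProduct, Fintype.sum_sum_type]
  simp only [emb_inl, emb_inr, zero_mul, Finset.sum_const_zero, add_zero]
  unfold mom
  have hu : D.hor z = ∑ i, (D.hor z i) • (Pi.single i (1 : ℝ) : Fin m → ℝ) := by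
    ext j; simp [Finset.sum_apply, Pi.single_apply]
  conv_lhs => rw [hu]
  rw [map_sum]
  refine Finset.sum_congr rfl fun i _ => ?_
  rw [map_smul, smul_eq_mul, mul_comm]
  rfl

end HomFinsler

/-- Elements of the isotropy group are orthogonal and their transposes belong to it. -/
theorem Kgrp_orth {m l : ℕ}
    {A : (Fin m ⊕ Fin l → ℝ) →ₗ[ℝ] Matrix (Fin m ⊕ Fin l) (Fin m ⊕ Fin l) ℝ}
    (hs : ∀ y ∈ kk m l, (A y)ᵀ = -A y) {g : Matrix (Fin m ⊕ Fin l) (Fin m ⊕ Fin l) ℝ}
    (hg : g ∈ Kgrp A) : g * gᵀ = 1 ∧ gᵀ ∈ Kgrp A := by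
  refine Submonoid.closure_induction ?_ ?_ ?_ hg
  · rintro _ ⟨y, hy, rfl⟩
    have h1 := exp_orth (hs y hy) 1
    rw [one_smul] at h1
    refine ⟨h1, ?_⟩
    rw [← Matrix.exp_transpose, hs y hy, ← map_neg]
    exact Submonoid.subset_closure ⟨-y, (kk m l).neg_mem hy, rfl⟩
  · exact ⟨by simp, by simp [Submonoid.one_mem]⟩
  · rintro a b _ _ ⟨ha, ha'⟩ ⟨hb, hb'⟩
    refine ⟨?_, ?_⟩
    · rw [Matrix.transpose_mul, mul_assoc, ← mul_assoc b, hb, one_mul, ha]
    · rw [Matrix.transpose_mul]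
      exact Submonoid.mul_mem _ hb' ha'

theorem orb_closed {m l : ℕ}
    {A : (Fin m ⊕ Fin l → ℝ) →ₗ[ℝ] Matrix (Fin m ⊕ Fin l) (Fin m ⊕ Fin l) ℝ}
    (hs : ∀ y ∈ kk m l, (A y)ᵀ = -A y)
    (hc : IsClosed (Kgrp A : Set (Matrix (Fin m ⊕ Fin l) (Fin m ⊕ Fin l) ℝ)))
    (v : Fin m ⊕ Fin l → ℝ) : IsClosed (orb A v) := by
  have hK : IsCompact (Kgrp A : Set (Matrix (Fin m ⊕ Fin l) (Fin m ⊕ Fin l) ℝ)) := by
    have h1 : IsCompact (Set.univ.pi fun _ : Fin m ⊕ Fin l =>
        (Set.univ.pi fun _ : Fin m ⊕ Fin l => Set.Icc (-1 : ℝ) 1)) :=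
      isCompact_univ_pi fun _ => isCompact_univ_pi fun _ => isCompact_Icc
    refine IsCompact.of_isClosed_subset h1 hc ?_
    intro g hg i _ j _
    have h2 := congrFun (congrFun (Kgrp_orth hs hg).1 i) i
    rw [Matrix.mul_apply, Matrix.one_apply_eq] at h2
    have h3 : g i j * g i j ≤ 1 := by
      rw [← h2]
      exact Finset.single_le_sum (f := fun j => g i j * gᵀ j i)
        (fun k _ => mul_self_nonneg (g i k)) (Finset.mem_univ j)
    constructor <;> nlinarith
  have h4 : orb A v = (fun g => (WithLp.toLp 2 (v ᵥ* g) : EuclideanSpace ℝ (Fin m ⊕ Fin l))) ''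
      (Kgrp A : Set (Matrix (Fin m ⊕ Fin l) (Fin m ⊕ Fin l) ℝ)) := by
    ext p
    constructor
    · rintro ⟨g, hg, rfl⟩; exact ⟨g, hg, rfl⟩
    · rintro ⟨g, hg, rfl⟩; exact ⟨g, hg, rfl⟩
  rw [h4]
  refine (hK.image ?_).isClosed
  refine (PiLp.continuous_toLp 2 (fun _ : Fin m ⊕ Fin l => ℝ)).comp ?_
  exact Continuous.matrix_vecMul continuous_const continuous_id

/-- The gradient of a Euclidean norm. -/
theorem grad_of_euclid {m : ℕ} {H : (Fin m → ℝ) → ℝ} (hH : IsNorm H) {r : ℝ} (hr : 0 < r)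
    (h : ∀ q, H q ^ 2 * r = ∑ i, q i ^ 2) {v : Fin m → ℝ} (hv : H v = 1) : r • grad H v = v := by
  have hd := (hH.diff v (hH.ne_zero hv)).hasFDerivAt
  have h1 : HasFDerivAt (fun q => H q ^ 2 * r)
      (r • ((2 • H v ^ (2 - 1)) • fderiv ℝ H v)) v := (hd.pow 2).mul_const r
  have h2 : HasFDerivAt (fun q : Fin m → ℝ => ∑ i, q i ^ 2)
      (∑ i, (2 • v i ^ (2 - 1)) • ContinuousLinearMap.proj (R := ℝ) (φ := fun _ : Fin m => ℝ) i)
      v := by
    apply HasFDerivAt.fun_sum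
    intro i _
    exact ((ContinuousLinearMap.proj (R := ℝ) (φ := fun _ : Fin m => ℝ) i).hasFDerivAt
      (x := v)).pow 2
  have h3 : (fun q => H q ^ 2 * r) = fun q : Fin m → ℝ => ∑ i, q i ^ 2 := funext h
  rw [h3] at h1
  have h4 := h1.unique h2
  funext i
  have h5 := congrArg (fun L => L (Pi.single i (1 : ℝ))) h4
  simp only [_root_.smul_apply, _root_.sum_apply,
    ContinuousLinearMap.proj_apply, hv, smul_eq_mul] at h5
  rw [Finset.sum_eq_single i (fun j _ hj => by simp [Pi.single_apply, hj])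
    (fun hi => absurd (Finset.mem_univ i) hi)] at h5
  simp at h5
  rw [Pi.smul_apply, smul_eq_mul]
  unfold grad
  linarith

section Flow

variable {E : Type} [NormedAddCommGroup E] [NormedSpace ℝ E]
  {M : Type} [TopologicalSpace M] {I : ModelWithCorners ℝ E M}
  {G : Type} [TopologicalSpace G] [ChartedSpace M G] [Group G]
  [LieGroup I (minSmoothness ℝ 3) G] [CompleteSpace E] {m l : ℕ}

theorem flowCurve_of_lift {D : HomFinsler (GroupLieAlgebra I G) m l}
    {H : (Fin m → ℝ) → ℝ}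
    (hL : ∀ u, D.F u = 1 → H (grad D.F u) = 1 ∧ grad H (grad D.F u) = u)
    {x : ℝ → G} {ξ : ℝ → GroupLieAlgebra I G} (h : IsGeodesicLift D x ξ) :
    FlowCurve D.AA H (fun t => grad D.F (D.hor (ξ t))) (fun t => D.e.equivFun (ξ t)) where
  cont := by
    have : FiniteDimensional ℝ (GroupLieAlgebra I G) :=
      Module.Basis.finiteDimensional_of_finite D.e
    have : T2Space (GroupLieAlgebra I G) := inferInstanceAs (T2Space E)
    have h1 : Continuous (D.e.equivFun.toLinearMap : GroupLieAlgebra I G → _) :=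
      LinearMap.continuous_of_finiteDimensional D.e.equivFun.toLinearMap
    exact h1.comp h.cont
  unit t := (hL _ (h.unit t)).1
  hor t i := by
    have h1 := (hL _ (h.unit t)).2
    have h2 := congrFun h1 i
    exact h2.symm
  mom t := by
    rw [hasDerivAt_pi]
    intro a
    have h1 : ∀ s, emb m l (grad D.F (D.hor (ξ s))) a = D.mom (ξ s) (D.e a) := by
      intro s
      rw [HomFinsler.mom_eq]
      simp [dotProduct, Finsupp.single_apply]
    have h2 := h.euler t (D.e a)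
    have h3 : D.mom (ξ t) ⁅ξ t, D.e a⁆ =
        (emb m l (grad D.F (D.hor (ξ t))) ᵥ* D.AA (D.e.equivFun (ξ t))) a := by
      rw [HomFinsler.mom_eq, HomFinsler.AA_apply, LinearEquiv.symm_apply_apply]
      simp only [Matrix.vecMul, dotProduct, LinearMap.toMatrix_apply]
      rfl
    rw [← h3]
    refine h2.congr_of_eventuallyEq ?_
    filter_upwards with s
    exact h1 s

theorem main [MeasurableSpace G] (μ : Measure G) [μ.IsHaarMeasure] (Γ : Subgroup G)
    (D : HomFinsler (GroupLieAlgebra I G) m l) (hD : D.Valid)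
    (hU : ∀ x : GroupLieAlgebra I G, LinearMap.trace ℝ (GroupLieAlgebra I G)
      (LieAlgebra.ad ℝ (GroupLieAlgebra I G) x) = 0)
    (herg : IsErgodic μ Γ D) :
    (∀ u w, D.F u = 1 → D.F w = 1 → ∃ g ∈ D.K0, g *ᵥ Sum.elim u 0 = Sum.elim w 0) ∧
      (∃ c > 0, ∀ u, D.F u = c * √(∑ i, u i ^ 2)) ∧ (0 < m → 0 < l) := by
  obtain ⟨H, hH, hL1, hL2⟩ := legendre hD.minkowski
  have hF0 : D.F 0 = 0 := by
    have := hD.minkowski.homog 0 0 le_rfl
    rwa [zero_smul, zero_mul] at this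
  have hFm : Measurable D.F := by
    apply measurable_of_continuousOn_compl_singleton 0
    exact hD.minkowski.smooth.continuousOn
  have hgm : Measurable (grad D.F) := by
    apply measurable_pi_lambda
    intro i
    exact measurable_fderiv_apply_const ℝ D.F (Pi.single i 1)
  -- ergodicity for momenta
  have herg' : ∀ S ⊆ {q | H q = 1}, MeasurableSet S → Inv D.AA H S →
      volume (cone S) = 0 ∨ volume (cone ({q | H q = 1} \ S)) = 0 := by
    intro S hS hSm hSi
    let lift : Set (Fin m → ℝ) → Set (G × (Fin m → ℝ)) := fun R =>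
      {z | D.F z.2 = 1 ∧ grad D.F z.2 ∈ R}
    have hcone : ∀ R ⊆ {q | H q = 1}, liouville μ D (lift R) = μ Set.univ * volume (cone R) := by
      intro R hR
      have : {z : G × (Fin m → ℝ) | ∃ s ∈ Set.Ioc (0 : ℝ) 1, ∃ u, (z.1, u) ∈ lift R ∧
          z.2 = s • grad D.F u} = Set.univ ×ˢ cone R := by
        ext z
        constructor
        · rintro ⟨s, hs, u, hu, hz⟩
          exact ⟨Set.mem_univ _, s, hs, _, hu.2, hz⟩
        · rintro ⟨_, s, hs, p, hp, hz⟩
          obtain ⟨u, hu1, hu2⟩ := hL2 p (hR hp)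
          exact ⟨s, hs, u, ⟨hu1, by rw [hu2]; exact hp⟩, by rw [hu2]; exact hz⟩
      unfold liouville
      rw [this, Measure.prod_prod]
    have hμ : μ Set.univ ≠ 0 := isOpen_univ.measure_ne_zero μ Set.univ_nonempty
    have h1 := herg (lift S) (fun z hz => hz.1) (by
        exact (measurableSet_eq_fun (hFm.comp measurable_snd) measurable_const).inter
          ((hgm.comp measurable_snd) hSm)) (fun γ _ z hz => hz) (by
        intro x ξ h s t hs
        exact ⟨h.unit t, hSi _ _ (flowCurve_of_lift hL1 h) s t hs.2⟩)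
    have h2 : unitBundle D \ lift S = lift ({q | H q = 1} \ S) := by
      ext z
      constructor
      · rintro ⟨hz1, hz2⟩
        exact ⟨hz1, (hL1 _ hz1).1, fun hz3 => hz2 ⟨hz1, hz3⟩⟩
      · rintro ⟨hz1, _, hz3⟩
        exact ⟨hz1, fun hz4 => hz3 hz4.2⟩
    rw [h2, hcone S hS, hcone _ Set.sdiff_subset] at h1
    rcases h1 with h1 | h1
    · left; exact (mul_eq_zero.1 h1).resolve_left hμ
    · right; exact (mul_eq_zero.1 h1).resolve_left hμ
  have hskew := HomFinsler.skewA D hD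
  have hclosed : IsClosed (Kgrp D.AA : Set (Matrix (Fin m ⊕ Fin l) (Fin m ⊕ Fin l) ℝ)) := by
    rw [← HomFinsler.K0_eq]; exact hD.closed
  have htrans : ∀ v w : Fin m → ℝ, H v = 1 → H w = 1 →
      ∃ g ∈ Kgrp D.AA, emb m l v = emb m l w ᵥ* g := by
    intro v w hv hw
    have h1 := core (HomFinsler.isAd D) (HomFinsler.traceA D hU) hskew (HomFinsler.cenA D hD) hH
      herg' hv hw
    rw [(orb_closed hskew hclosed _).closure_eq] at h1
    obtain ⟨g, hg, hg2⟩ := h1
    exact ⟨g, hg, WithLp.toLp_injective 2 hg2⟩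
  rcases Nat.eq_zero_or_pos m with hm | hm
  · subst hm
    refine ⟨?_, ⟨1, one_pos, ?_⟩, fun h => absurd h (lt_irrefl _)⟩
    · intro u w hu _
      have : u = 0 := Subsingleton.elim _ _
      rw [this, hF0] at hu
      exact absurd hu zero_ne_one
    · intro u
      have : u = 0 := Subsingleton.elim _ _
      rw [this, hF0]
      simp
  -- the radius
  let i0 : Fin m := ⟨0, hm⟩
  have hsp : ∀ q : Fin m → ℝ, q ≠ 0 → H ((H q)⁻¹ • q) = 1 := by
    intro q hq
    have := hH.pos q hq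
    rw [hH.homog _ _ (inv_nonneg.2 this.le), inv_mul_cancel₀ this.ne']
  have hFsp : ∀ q : Fin m → ℝ, q ≠ 0 → D.F ((D.F q)⁻¹ • q) = 1 := by
    intro q hq
    have := hD.minkowski.pos q hq
    rw [hD.minkowski.homog _ _ (inv_nonneg.2 this.le), inv_mul_cancel₀ this.ne']
  have hi0 : (Pi.single i0 1 : Fin m → ℝ) ≠ 0 := by
    intro h
    have := congrFun h i0
    simp at this
  obtain ⟨v0, hv0⟩ : ∃ v0, H v0 = 1 := ⟨_, hsp _ hi0⟩
  let r : ℝ := ∑ i, v0 i ^ 2
  have hv0ne := hH.ne_zero hv0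
  have hr : 0 < r := by
    have : ∃ i, v0 i ≠ 0 := by
      by_contra hcon
      push Not at hcon
      exact hv0ne (funext hcon)
    obtain ⟨i, hi⟩ := this
    exact lt_of_lt_of_le (by positivity) (Finset.single_le_sum (f := fun i => v0 i ^ 2)
      (fun i _ => sq_nonneg _) (Finset.mem_univ i))
  have hdot : ∀ q : Fin m → ℝ, emb m l q ⬝ᵥ emb m l q = ∑ i, q i ^ 2 := by
    intro q
    rw [dotProduct, Fintype.sum_sum_type]
    simp [emb_inl, emb_inr, pow_two]
  have hsphere : ∀ v, H v = 1 → ∑ i, v i ^ 2 = r := by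
    intro v hv
    obtain ⟨g, hg, hg2⟩ := htrans v v0 hv hv0
    rw [← hdot v, hg2, ← Matrix.dotProduct_mulVec, ← Matrix.vecMul_transpose,
      Matrix.vecMul_vecMul, (Kgrp_orth hskew hg).1, Matrix.vecMul_one, hdot]
  have hHr : ∀ q, H q ^ 2 * r = ∑ i, q i ^ 2 := by
    intro q
    by_cases hq : q = 0
    · have h0 : H 0 = 0 := by
        have := hH.homog 0 0 le_rfl
        rwa [zero_smul, zero_mul] at this
      rw [hq, h0]; simp
    · have h1 := hsphere _ (hsp q hq)
      have h2 := (hH.pos q hq).ne'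
      rw [← h1]
      simp only [Pi.smul_apply, smul_eq_mul, mul_pow]
      rw [← Finset.mul_sum, ← mul_assoc, ← mul_pow, mul_inv_cancel₀ h2, one_pow, one_mul]
  have hgr : ∀ u, D.F u = 1 → grad D.F u = r • u := by
    intro u hu
    have h1 := grad_of_euclid hH hr hHr (hL1 u hu).1
    rw [(hL1 u hu).2] at h1
    exact h1.symm
  have htrans2 : ∀ u w, D.F u = 1 → D.F w = 1 →
      ∃ g ∈ Kgrp D.AA, g *ᵥ emb m l u = emb m l w := by
    intro u w hu hw
    obtain ⟨g, hg, hg2⟩ := htrans _ _ (hL1 w hw).1 (hL1 u hu).1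
    refine ⟨gᵀ, (Kgrp_orth hskew hg).2, ?_⟩
    rw [Matrix.mulVec_transpose]
    rw [hgr u hu, hgr w hw, map_smul, map_smul, Matrix.smul_vecMul] at hg2
    exact (smul_right_injective _ hr.ne' hg2).symm
  refine ⟨?_, ⟨√r, Real.sqrt_pos.2 hr, ?_⟩, ?_⟩
  · intro u w hu hw
    rw [HomFinsler.K0_eq]
    exact htrans2 u w hu hw
  · intro u
    by_cases hu : u = 0
    · rw [hu, hF0]; simp
    · have h1 := hFsp u hu
      have h2 := hsphere _ (hL1 _ h1).1
      rw [hgr _ h1] at h2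
      have h3 := hD.minkowski.pos u hu
      simp only [Pi.smul_apply, smul_eq_mul, mul_pow] at h2
      rw [← Finset.mul_sum, ← Finset.mul_sum, inv_pow] at h2
      have h4 : r * ∑ i, u i ^ 2 = D.F u ^ 2 := by
        have h5 : D.F u ^ 2 ≠ 0 := pow_ne_zero 2 h3.ne'
        field_simp at h2
        nlinarith
      rw [← Real.sqrt_mul hr.le, h4, Real.sqrt_sq h3.le]
  · intro _
    by_contra hl
    have hl0 : l = 0 := by omega
    subst hl0
    have hK : ∀ g ∈ Kgrp D.AA, g = 1 := by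
      intro g hg
      refine Submonoid.closure_induction ?_ rfl ?_ hg
      · rintro _ ⟨y, hy, rfl⟩
        have : y = 0 := by
          funext a
          cases a with
          | inl i => exact hy i
          | inr j => exact j.elim0
        rw [this, map_zero, NormedSpace.exp_zero]
      · rintro a b _ _ ha hb
        rw [ha, hb, one_mul]
    let u : Fin m → ℝ := (D.F (Pi.single i0 1))⁻¹ • Pi.single i0 1
    have hneg : (-Pi.single i0 1 : Fin m → ℝ) ≠ 0 := neg_ne_zero.2 hi0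
    let w : Fin m → ℝ := (D.F (-Pi.single i0 1))⁻¹ • (-Pi.single i0 1)
    obtain ⟨g, hg, hg2⟩ := htrans2 u w (hFsp _ hi0) (hFsp _ hneg)
    rw [hK g hg, Matrix.one_mulVec] at hg2
    have h1 := congrFun hg2 (Sum.inl i0)
    rw [emb_inl, emb_inl] at h1
    simp only [u, w, Pi.smul_apply, Pi.neg_apply, Pi.single_eq_same, smul_eq_mul, mul_one,
      mul_neg] at h1
    have h2 := inv_pos.2 (hD.minkowski.pos _ hi0)
    have h3 := inv_pos.2 (hD.minkowski.pos _ hneg)
    linarith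

end Flow

end Pool.Agent.W_8cdb14_h41
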