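import Pool.Agent.W_8cdb14_h41.ExpFacts

/-!
The ideal `J A (p t)` is constant along every curve with `p' ∈ ad*(g) p`.

Proof.  It is enough to prove `J A (p s) ≤ J A (p t)` for `s ≤ t` (for `t ≤ s` reverse the time:
`p (s + t - ·)` with `- ξ (s + t - ·)`).  Let `f ∈ J A (p s)`, `D = f.totalDegree` and
`M = J A (p s) ⊓ MvPolynomial.restrictTotalDegree σ ℝ D`, finite dimensional, with basis
`b : Fin N → M`.  For `x : σ → ℝ` the derivation `f ↦ (q ↦ dd f q (q ᵥ* A x))`, i.e.
`∑ j, (∑ i, X i * C (A x i j)) * pderiv j f`, does not raise the total degree and maps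
`J A (p s)` into itself (differentiate `f ((p s ᵥ* g) ᵥ* exp (r • A x)) = 0` at `r = 0`).  It is
linear in `x`.  So `y i τ := eval (p τ) (b i)` satisfies a linear differential equation
`y' = C (ξ τ) y` with `C` linear in `ξ`, `ξ` continuous, hence bounded on `[s, t]`, and `y s = 0`
(take `g = 1`); Gronwall (`norm_le_gronwallBound_of_norm_deriv_right_le`, `δ = 0`, `ε = 0`) gives
`y t = 0`.  So `eval (p t) f = 0` for every `f ∈ J A (p s)`; apply this to `sub g f`
(`J_comp`, `eval_sub`) for `g ∈ G0 A`.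
-/

namespace Pool.Agent.W_8cdb14_h41

open Matrix

variable {σ : Type} [Fintype σ] [DecidableEq σ]

theorem hasDerivAt_eval (f : MvPolynomial σ ℝ) {p : ℝ → σ → ℝ} {q : σ → ℝ} {t : ℝ}
    (hp : HasDerivAt p q t) :
    HasDerivAt (fun τ => MvPolynomial.eval (p τ) f) (dd f (p t) q) t := by
  have hpj : ∀ j, HasDerivAt (fun τ => p τ j) (q j) t := hasDerivAt_pi.1 hp
  induction f using MvPolynomial.induction_on with
  | C r =>
    simp only [MvPolynomial.eval_C, dd, MvPolynomial.pderiv_C, map_zero, mul_zero,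
      Finset.sum_const_zero]
    exact hasDerivAt_const t r
  | add a b ha hb =>
    have h := ha.add hb
    simp only [dd, map_add, mul_add, Finset.sum_add_distrib] at h ⊢
    exact h
  | mul_X a i ha =>
    have h := ha.mul (hpj i)
    simp only [dd, map_mul, MvPolynomial.eval_X, Derivation.leibniz, MvPolynomial.pderiv_X,
      smul_eq_mul, map_add] at h ⊢
    refine HasDerivAt.congr_deriv h ?_
    simp only [mul_add, Finset.sum_add_distrib, Finset.sum_mul]
    have h1 : ∑ j, q j * ((MvPolynomial.eval (p t)) a *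
        (MvPolynomial.eval (p t)) (Pi.single (M := fun _ => MvPolynomial σ ℝ) j 1 i)) =
        (MvPolynomial.eval (p t)) a * q i := by
      rw [Finset.sum_eq_single i]
      · simp [mul_comm]
      · intro j _ hj
        simp [Ne.symm hj]
      · simp
    rw [h1, add_comm]
    congr 1
    refine Finset.sum_congr rfl fun j _ => ?_
    ring

/-- The derivation of the polynomial ring defined by `ad x`. -/
noncomputable def del (A : (σ → ℝ) →ₗ[ℝ] Matrix σ σ ℝ) (x : σ → ℝ) (f : MvPolynomial σ ℝ) :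
    MvPolynomial σ ℝ :=
  ∑ j, ∑ i, (A x i j) • (MvPolynomial.X i * MvPolynomial.pderiv j f)

theorem eval_del (A : (σ → ℝ) →ₗ[ℝ] Matrix σ σ ℝ) (x q : σ → ℝ) (f : MvPolynomial σ ℝ) :
    MvPolynomial.eval q (del A x f) = dd f q (q ᵥ* A x) := by
  unfold del dd
  rw [map_sum]
  refine Finset.sum_congr rfl fun j _ => ?_
  simp only [map_sum, MvPolynomial.smul_eval, map_mul, MvPolynomial.eval_X, Matrix.vecMul,
    dotProduct, Finset.sum_mul]
  refine Finset.sum_congr rfl fun i _ => ?_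
  ring

theorem del_lin (A : (σ → ℝ) →ₗ[ℝ] Matrix σ σ ℝ) (x : σ → ℝ) (f : MvPolynomial σ ℝ) :
    del A x f = ∑ k, x k • del A (Pi.single k 1) f := by
  have hx : A x = ∑ k, x k • A (Pi.single k 1) := by
    conv_lhs => rw [← Finset.univ_sum_single x, map_sum]
    refine Finset.sum_congr rfl fun k _ => ?_
    rw [← map_smul]
    congr 1
    ext l
    simp [Pi.single_apply]
  unfold del
  simp only [Finset.smul_sum]
  symm
  rw [Finset.sum_comm]
  refine Finset.sum_congr rfl fun j _ => ?_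
  rw [Finset.sum_comm]
  refine Finset.sum_congr rfl fun i _ => ?_
  rw [hx]
  simp only [Matrix.sum_apply, Matrix.smul_apply, smul_eq_mul, Finset.sum_smul, mul_smul]

theorem del_mem_J {A : (σ → ℝ) →ₗ[ℝ] Matrix σ σ ℝ} {v : σ → ℝ} {f : MvPolynomial σ ℝ}
    (hf : f ∈ J A v) (x : σ → ℝ) : del A x f ∈ J A v := by
  intro g hg
  rw [eval_del]
  refine dd_J ?_ x
  intro h hh
  rw [Matrix.vecMul_vecMul]
  exact hf _ (mul_mem hg hh)

theorem del_mem_deg {A : (σ → ℝ) →ₗ[ℝ] Matrix σ σ ℝ} {D : ℕ} {f : MvPolynomial σ ℝ}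
    (hf : f ∈ MvPolynomial.restrictTotalDegree σ ℝ D) (x : σ → ℝ) :
    del A x f ∈ MvPolynomial.restrictTotalDegree σ ℝ D := by
  unfold del
  refine Submodule.sum_mem _ fun j _ => Submodule.sum_mem _ fun i _ => Submodule.smul_mem _ _ ?_
  rw [MvPolynomial.mem_restrictTotalDegree] at hf
  rw [← MvPolynomial.support_sum_monomial_coeff f, map_sum, Finset.mul_sum]
  refine Submodule.sum_mem _ fun s hs => ?_
  have hs1 : (s.sum fun _ e => e) ≤ D := (MvPolynomial.le_totalDegree hs).trans hf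
  rw [MvPolynomial.pderiv_monomial]
  by_cases h0 : s j = 0
  · simp [h0]
  rw [MvPolynomial.mem_restrictTotalDegree]
  refine (MvPolynomial.totalDegree_mul _ _).trans ?_
  rw [MvPolynomial.totalDegree_X]
  refine (Nat.add_le_add_left (MvPolynomial.totalDegree_monomial_le _ _) 1).trans ?_
  have h3 : (s - Finsupp.single j 1) + Finsupp.single j 1 = s := by
    ext l
    by_cases hl : l = j
    · subst hl
      simp only [Finsupp.coe_add, Finsupp.coe_tsub, Pi.add_apply, Pi.sub_apply,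
        Finsupp.single_eq_same]
      omega
    · simp [Ne.symm hl]
  have h4 : (s.sum fun _ e => e) = ((s - Finsupp.single j 1).sum fun _ e => e) + 1 := by
    conv_lhs => rw [← h3]
    rw [Finsupp.sum_add_index' (by simp) (by simp)]
    simp
  have h5 : ((s - Finsupp.single j 1).sum fun _ ↦ id) =
    ((s - Finsupp.single j 1).sum fun _ e => e) := rfl
  rw [h5]
  omega

theorem eval_zero_forward {A : (σ → ℝ) →ₗ[ℝ] Matrix σ σ ℝ} (p ξ : ℝ → σ → ℝ) (hξ : Continuous ξ)
    (hp : ∀ t, HasDerivAt p (p t ᵥ* A (ξ t)) t) {s t : ℝ} (hst : s ≤ t) {f : MvPolynomial σ ℝ}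
    (hf : f ∈ J A (p s)) : MvPolynomial.eval (p t) f = 0 := by
  classical
  set D := f.totalDegree with hD
  let M : Submodule ℝ (MvPolynomial σ ℝ) := J A (p s) ⊓ MvPolynomial.restrictTotalDegree σ ℝ D
  have hfin : Module.Finite ℝ M :=
    Module.Finite.of_injective (Submodule.inclusion (inf_le_right :
      M ≤ MvPolynomial.restrictTotalDegree σ ℝ D)) (Submodule.inclusion_injective _)
  let b := Module.finBasis ℝ M
  have hfM : f ∈ M := ⟨hf, (MvPolynomial.mem_restrictTotalDegree _ _ _).2 le_rfl⟩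
  -- structure constants
  have hdel : ∀ (k : σ) (i : Fin (Module.finrank ℝ M)), ∃ c : Fin (Module.finrank ℝ M) → ℝ,
      del A (Pi.single k 1) (b i : MvPolynomial σ ℝ) = ∑ l, c l • (b l : MvPolynomial σ ℝ) := by
    intro k i
    have h1 : del A (Pi.single k 1) (b i : MvPolynomial σ ℝ) ∈ M :=
      ⟨del_mem_J (b i).2.1 _, del_mem_deg (b i).2.2 _⟩
    refine ⟨fun l => b.repr ⟨_, h1⟩ l, ?_⟩
    have h2 := b.sum_repr ⟨_, h1⟩
    have h3 := congrArg (Submodule.subtype M) h2
    rw [map_sum] at h3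
    simpa using h3.symm
  choose c hc using hdel
  let y : ℝ → Fin (Module.finrank ℝ M) → ℝ := fun τ i => MvPolynomial.eval (p τ) (b i).1
  have hy : ∀ τ, HasDerivAt y (fun i => ∑ k, ξ τ k * ∑ l, c k i l * y τ l) τ := by
    intro τ
    rw [hasDerivAt_pi]
    intro i
    have h1 := hasDerivAt_eval (b i).1 (hp τ)
    rw [← eval_del, del_lin] at h1
    refine h1.congr_deriv ?_
    rw [map_sum]
    refine Finset.sum_congr rfl fun k _ => ?_
    rw [MvPolynomial.smul_eval, hc]
    simp only [map_sum, MvPolynomial.smul_eval]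
    rfl
  obtain ⟨B, hB⟩ : ∃ B : ℝ, ∀ τ ∈ Set.Icc s t, ‖ξ τ‖ ≤ B :=
    isCompact_Icc.exists_bound_of_continuousOn hξ.continuousOn
  have hzero : y t = 0 := by
    refine eq_zero_of_abs_deriv_le_mul_abs_self_of_eq_zero_right (f := y)
      (f' := fun τ => fun i => ∑ k, ξ τ k * ∑ l, c k i l * y τ l)
      (K := ∑ i, ∑ k, B * ∑ l, |c k i l|) (a := s) (b := t) ?_ ?_ ?_ ?_ t ⟨hst, le_rfl⟩
    · exact fun τ _ => (hy τ).continuousAt.continuousWithinAt
    · exact fun τ _ => (hy τ).hasDerivWithinAt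
    · funext i
      have h1 := (b i).2.1 1 (one_mem _)
      rwa [Matrix.vecMul_one] at h1
    · intro τ hτ
      have hBτ := hB τ ⟨hτ.1, hτ.2.le⟩
      have hB0 : 0 ≤ B := (norm_nonneg _).trans hBτ
      rw [pi_norm_le_iff_of_nonneg (by positivity)]
      intro i
      have h1 : ∀ k l, |c k i l * y τ l| ≤ |c k i l| * ‖y τ‖ := by
        intro k l
        rw [abs_mul]
        exact mul_le_mul_of_nonneg_left (norm_le_pi_norm (y τ) l) (abs_nonneg _)
      have h2 : ∀ k, |ξ τ k * ∑ l, c k i l * y τ l| ≤ B * ∑ l, |c k i l| * ‖y τ‖ := by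
        intro k
        rw [abs_mul]
        refine mul_le_mul ((norm_le_pi_norm (ξ τ) k).trans hBτ) ?_ (abs_nonneg _) hB0
        exact (Finset.abs_sum_le_sum_abs _ _).trans (Finset.sum_le_sum fun l _ => h1 k l)
      rw [Real.norm_eq_abs]
      refine (Finset.abs_sum_le_sum_abs _ _).trans ((Finset.sum_le_sum fun k _ => h2 k).trans ?_)
      have h3 : ∑ k, B * ∑ l, |c k i l| * ‖y τ‖ = (∑ k, B * ∑ l, |c k i l|) * ‖y τ‖ := by
        rw [Finset.sum_mul]
        refine Finset.sum_congr rfl fun k _ => ?_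
        rw [← Finset.sum_mul, mul_assoc]
      rw [h3]
      refine mul_le_mul_of_nonneg_right ?_ (norm_nonneg _)
      exact Finset.single_le_sum (f := fun i => ∑ k, B * ∑ l, |c k i l|)
        (fun i _ => by positivity) (Finset.mem_univ i)
  have h1 := b.sum_repr ⟨f, hfM⟩
  have h2 := congrArg (fun m : M => MvPolynomial.eval (p t) m.1) h1
  have h3 : MvPolynomial.eval (p t) f = ∑ i, b.repr ⟨f, hfM⟩ i * y t i := by
    rw [← h2]
    simp only [Submodule.coe_sum, Submodule.coe_smul, map_sum, MvPolynomial.smul_eval]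
    rfl
  rw [h3, hzero]
  simp

theorem eval_zero {A : (σ → ℝ) →ₗ[ℝ] Matrix σ σ ℝ} (p ξ : ℝ → σ → ℝ) (hξ : Continuous ξ)
    (hp : ∀ t, HasDerivAt p (p t ᵥ* A (ξ t)) t) (s t : ℝ) {f : MvPolynomial σ ℝ}
    (hf : f ∈ J A (p s)) : MvPolynomial.eval (p t) f = 0 := by
  rcases le_total s t with h | h
  · exact eval_zero_forward p ξ hξ hp h hf
  · have h1 := eval_zero_forward (A := A) (fun τ => p (s + t - τ)) (fun τ => -ξ (s + t - τ))
      (by fun_prop) (fun τ => by
        have h2 := (hp (s + t - τ)).scomp τ ((hasDerivAt_id τ).const_sub (s + t))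
        have h3 : (-1 : ℝ) • (p (s + t - τ) ᵥ* A (ξ (s + t - τ))) =
            p (s + t - τ) ᵥ* A (-ξ (s + t - τ)) := by
          rw [map_neg, Matrix.vecMul_neg]; simp
        rw [← h3]
        exact h2) h (f := f) (by
        show f ∈ J A (p (s + t - t))
        rw [add_sub_cancel_right]; exact hf)
    have h2 : MvPolynomial.eval (p (s + t - s)) f = 0 := h1
    rwa [add_sub_cancel_left] at h2

theorem J_along {A : (σ → ℝ) →ₗ[ℝ] Matrix σ σ ℝ} (p ξ : ℝ → σ → ℝ) (hξ : Continuous ξ)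
    (hp : ∀ t, HasDerivAt p (p t ᵥ* A (ξ t)) t) (s t : ℝ) : J A (p s) ≤ J A (p t) := by
  intro f hf g hg
  rw [← eval_sub]
  exact eval_zero p ξ hξ hp s t (J_comp hf hg)

end Pool.Agent.W_8cdb14_h41
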