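import Pool.Agent.W_8cdb14_h41.Defs

/-!
A countable family of closed sets which detects the inclusions between the `J A v`.

Proof.  For `D : ℕ` and `c : (σ → Fin (D + 1)) → ℝ` let `pol c = ∑ m, monomial m (c m)`; every
polynomial is `pol c` for some `D, c`.  For a compact set `U` of vectors `c` the set
`{w | ∃ c ∈ U, pol c ∈ J A (ι w)}` is closed (projection of a closed set along the compact `U`;
the condition `eval (ι w ᵥ* g) (pol c) = 0` is closed in `(w, c)`) and upward closed for the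
inclusion of the `J`.  Let `C` enumerate these sets for all `D`, all closed balls `U` with
centre in a countable dense set and radius `1 / (j + 1)`.  If `v` is minimal in `S` and `v ∈ C n`
then `S ⊆ C n` clearly.  Conversely let `v ∈ S` with `v ∈ C n → S ⊆ C n` for all `n`, let
`f = pol c₀ ∈ J A (ι v)`, `w ∈ S`, and suppose `eval (ι w ᵥ* g) f ≠ 0` for some `g ∈ G0 A`; by
continuity in `c` there is a closed ball of the family which contains `c₀` and on which this
remains nonzero; so `v` is in the corresponding `C n` and `w` is not, contradiction.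
-/

namespace Pool.Agent.W_8cdb14_h41

open Matrix

variable {σ : Type} [Fintype σ] [DecidableEq σ]

/-- The polynomial with the monomials of `s` and the coefficients `c`. -/
private noncomputable def pol (s : Finset (σ →₀ ℕ)) (c : s → ℝ) : MvPolynomial σ ℝ :=
  ∑ a : s, MvPolynomial.monomial a.1 (c a)

omit [DecidableEq σ] in
private theorem eval_pol (s : Finset (σ →₀ ℕ)) (c : s → ℝ) (v : σ → ℝ) :
    MvPolynomial.eval v (pol s c) = ∑ a : s, c a * ∏ i, v i ^ (a.1 i) := by
  unfold pol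
  rw [map_sum]
  refine Finset.sum_congr rfl fun a _ => ?_
  rw [MvPolynomial.eval_monomial, Finsupp.prod_fintype]
  intro i
  exact pow_zero _

omit [DecidableEq σ] in
private theorem continuous_eval_pol (s : Finset (σ →₀ ℕ)) {m : ℕ}
    (ι : (Fin m → ℝ) →ₗ[ℝ] (σ → ℝ)) (g : Matrix σ σ ℝ) :
    Continuous fun z : (Fin m → ℝ) × (s → ℝ) =>
      MvPolynomial.eval (ι z.1 ᵥ* g) (pol s z.2) := by
  have hι : Continuous ι := ι.continuous_of_finiteDimensional
  have h1 : Continuous fun z : (Fin m → ℝ) × (s → ℝ) => ι z.1 ᵥ* g :=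
    (hι.comp continuous_fst).matrix_vecMul continuous_const
  simp only [eval_pol]
  refine continuous_finsetSum _ fun a _ => ?_
  refine ((continuous_apply a).comp continuous_snd).mul ?_
  refine continuous_finsetProd _ fun i _ => ?_
  exact ((continuous_apply i).comp h1).pow _

private theorem isClosed_D (A : (σ → ℝ) →ₗ[ℝ] Matrix σ σ ℝ) {m : ℕ}
    (ι : (Fin m → ℝ) →ₗ[ℝ] (σ → ℝ)) (s : Finset (σ →₀ ℕ)) (U : Set (s → ℝ))
    (hU : IsCompact U) : IsClosed {w : Fin m → ℝ | ∃ c ∈ U, pol s c ∈ J A (ι w)} := by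
  rw [← isOpen_compl_iff, isOpen_iff_mem_nhds]
  intro w0 hw0
  have h1 : ∀ c ∈ U, ∀ᶠ z : (Fin m → ℝ) × (s → ℝ) in nhds (w0, c),
      pol s z.2 ∉ J A (ι z.1) := by
    intro c hc
    have h2 : pol s c ∉ J A (ι w0) := fun h => hw0 ⟨c, hc, h⟩
    rw [mem_J] at h2
    push Not at h2
    obtain ⟨g, hg, hne⟩ := h2
    have h3 := (continuous_eval_pol s ι g).continuousAt (x := (w0, c))
    filter_upwards [h3.eventually_ne hne] with z hz h4
    exact hz (mem_J.1 h4 g hg)
  have h5 := hU.eventually_forall_of_forall_eventually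
    (P := fun (w : Fin m → ℝ) (c : s → ℝ) => pol s c ∉ J A (ι w)) h1
  filter_upwards [h5] with w hw
  rintro ⟨c, hc, h6⟩
  exact hw c hc h6

omit [Fintype σ] [DecidableEq σ] in
private theorem exists_pol (f : MvPolynomial σ ℝ) :
    ∃ (s : Finset (σ →₀ ℕ)) (c : s → ℝ), pol s c = f := by
  refine ⟨f.support, fun a => MvPolynomial.coeff a.1 f, ?_⟩
  unfold pol
  conv_rhs => rw [MvPolynomial.as_sum f]
  exact Finset.sum_coe_sort f.support fun a => MvPolynomial.monomial a (MvPolynomial.coeff a f)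

theorem exists_closed (A : (σ → ℝ) →ₗ[ℝ] Matrix σ σ ℝ) {m : ℕ}
    (ι : (Fin m → ℝ) →ₗ[ℝ] (σ → ℝ)) :
    ∃ C : ℕ → Set (Fin m → ℝ), (∀ n, IsClosed (C n)) ∧
      (∀ n v w, v ∈ C n → J A (ι v) ≤ J A (ι w) → w ∈ C n) ∧
      ∀ (S : Set (Fin m → ℝ)) (v : Fin m → ℝ),
        (∀ n, v ∈ C n → S ⊆ C n) ↔ (∀ w ∈ S, J A (ι v) ≤ J A (ι w)) := by
  classical
  let I := Σ _ : Finset (σ →₀ ℕ), ℕ × ℕ
  let D : I → Set (Fin m → ℝ) := fun i =>
    {w | ∃ c ∈ Metric.closedBall (TopologicalSpace.denseSeq (i.1 → ℝ) i.2.1)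
      (1 / ((i.2.2 : ℝ) + 1)), pol i.1 c ∈ J A (ι w)}
  have hI : Nonempty I := ⟨⟨∅, 0, 0⟩⟩
  obtain ⟨e, he⟩ := exists_surjective_nat I
  have hDc : ∀ i, IsClosed (D i) := fun i =>
    isClosed_D A ι i.1 _ (isCompact_closedBall _ _)
  have hDu : ∀ i v w, v ∈ D i → J A (ι v) ≤ J A (ι w) → w ∈ D i := by
    rintro i v w ⟨c, hc, h1⟩ h2
    exact ⟨c, hc, h2 h1⟩
  refine ⟨fun n => D (e n), fun n => hDc _, fun n v w => hDu _ v w, fun S v => ⟨?_, ?_⟩⟩
  · intro h w hw f hf
    by_contra hcon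
    obtain ⟨s, c0, rfl⟩ := exists_pol f
    rw [mem_J] at hcon
    push Not at hcon
    obtain ⟨g, hg, hne⟩ := hcon
    have h2 : Continuous fun c : s → ℝ => ((w, c) : (Fin m → ℝ) × (s → ℝ)) :=
      continuous_const.prodMk continuous_id
    have h3 := (continuous_eval_pol s ι g).comp h2
    simp only [Function.comp_def] at h3
    have h3' : ∀ᶠ c : s → ℝ in nhds c0, MvPolynomial.eval (ι w ᵥ* g) (pol s c) ≠ 0 :=
      (h3.continuousAt (x := c0)).eventually_ne hne
    obtain ⟨ε, hε, hball⟩ := Metric.eventually_nhds_iff.1 h3'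
    obtain ⟨j, hj⟩ := exists_nat_one_div_lt (half_pos hε)
    have hj0 : (0 : ℝ) < 1 / ((j : ℝ) + 1) := Nat.one_div_pos_of_nat
    obtain ⟨k, hk⟩ := (TopologicalSpace.denseRange_denseSeq (s → ℝ)).exists_dist_lt c0 hj0
    obtain ⟨n, hn⟩ := he ⟨s, k, j⟩
    have h4 : v ∈ D (e n) := by
      rw [hn]
      exact ⟨c0, Metric.mem_closedBall.2 hk.le, hf⟩
    have h5 : w ∈ D (e n) := h n h4 hw
    rw [hn] at h5
    obtain ⟨c, hc, h6⟩ := h5
    have h7 : dist c (TopologicalSpace.denseSeq (s → ℝ) k) ≤ 1 / ((j : ℝ) + 1) :=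
      Metric.mem_closedBall.1 hc
    have h8 : dist c c0 < ε := by
      calc dist c c0 ≤ dist c (TopologicalSpace.denseSeq (s → ℝ) k) +
            dist (TopologicalSpace.denseSeq (s → ℝ) k) c0 := dist_triangle _ _ _
        _ = dist c (TopologicalSpace.denseSeq (s → ℝ) k) +
            dist c0 (TopologicalSpace.denseSeq (s → ℝ) k) := by
            rw [dist_comm c0]
        _ < ε := by linarith
    exact hball h8 (mem_J.1 h6 g hg)
  · rintro h n hv w hw
    exact hDu _ v w hv (h w hw)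

end Pool.Agent.W_8cdb14_h41
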