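import Mathlib

/-!
The cone measure on the unit sphere of a (not necessarily symmetric) norm.

Proofs.  `measurableSet_cone`: for `A ⊆ {H = 1}`,
`cone A = {q | 0 < H q ∧ H q ≤ 1 ∧ (H q)⁻¹ • q ∈ A}`.  `cone_open_pos`: for `p ∈ O`, `H p = 1`, the
set `{q | 0 < H q ∧ H q < 1 ∧ (H q)⁻¹ • q ∈ O}` is open, contained in `cone (O ∩ {H = 1})` and
contains `(1 / 2) • p`.  `cone_iUnion_null`: `cone (⋃ n, A n) = ⋃ n, cone (A n)`.
-/

namespace Pool.Agent.W_8cdb14_h41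

open MeasureTheory

variable {m : ℕ}

/-- The cone over a set. -/
def cone (A : Set (Fin m → ℝ)) : Set (Fin m → ℝ) :=
  {q | ∃ s ∈ Set.Ioc (0 : ℝ) 1, ∃ p ∈ A, q = s • p}

theorem cone_mono {A B : Set (Fin m → ℝ)} (h : A ⊆ B) : cone A ⊆ cone B := by
  rintro q ⟨s, hs, p, hp, rfl⟩
  exact ⟨s, hs, p, h hp, rfl⟩

theorem cone_iUnion (A : ℕ → Set (Fin m → ℝ)) : cone (⋃ n, A n) = ⋃ n, cone (A n) := by
  ext q
  constructor
  · rintro ⟨s, hs, p, hp, rfl⟩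
    obtain ⟨n, hn⟩ := Set.mem_iUnion.1 hp
    exact Set.mem_iUnion.2 ⟨n, s, hs, p, hn, rfl⟩
  · intro hq
    obtain ⟨n, s, hs, p, hp, rfl⟩ := Set.mem_iUnion.1 hq
    exact ⟨s, hs, p, Set.mem_iUnion.2 ⟨n, hp⟩, rfl⟩

theorem cone_iUnion_null (A : ℕ → Set (Fin m → ℝ)) (h : ∀ n, volume (cone (A n)) = 0) :
    volume (cone (⋃ n, A n)) = 0 := by
  rw [cone_iUnion]
  exact measure_iUnion_null h

theorem measurableSet_cone {H : (Fin m → ℝ) → ℝ} (hc : Continuous H)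
    (hh : ∀ (s : ℝ) (q : Fin m → ℝ), 0 ≤ s → H (s • q) = s * H q)
    {A : Set (Fin m → ℝ)} (hA : MeasurableSet A) (hAH : A ⊆ {q | H q = 1}) :
    MeasurableSet (cone A) := by
  have h1 : cone A = {q | 0 < H q} ∩ {q | H q ≤ 1} ∩ (fun q => (H q)⁻¹ • q) ⁻¹' A := by
    ext q
    constructor
    · rintro ⟨s, hs, p, hp, rfl⟩
      have hp1 : H p = 1 := hAH hp
      have hs1 : H (s • p) = s := by rw [hh s p hs.1.le, hp1, mul_one]
      refine ⟨⟨?_, ?_⟩, ?_⟩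
      · show 0 < H (s • p)
        rw [hs1]
        exact hs.1
      · show H (s • p) ≤ 1
        rw [hs1]
        exact hs.2
      · show (H (s • p))⁻¹ • (s • p) ∈ A
        rw [hs1, smul_smul, inv_mul_cancel₀ hs.1.ne', one_smul]
        exact hp
    · rintro ⟨⟨h0, h1⟩, h2⟩
      refine ⟨H q, ⟨h0, h1⟩, (H q)⁻¹ • q, h2, ?_⟩
      have h0' : H q ≠ 0 := ne_of_gt h0
      rw [smul_smul, mul_inv_cancel₀ h0', one_smul]
  rw [h1]
  have hm : Measurable fun q : Fin m → ℝ => (H q)⁻¹ • q := hc.measurable.inv.smul measurable_id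
  exact ((measurableSet_lt measurable_const hc.measurable).inter
    (measurableSet_le hc.measurable measurable_const)).inter (hm hA)

theorem cone_open_pos {H : (Fin m → ℝ) → ℝ} (hc : Continuous H)
    (hh : ∀ (s : ℝ) (q : Fin m → ℝ), 0 ≤ s → H (s • q) = s * H q)
    {O : Set (Fin m → ℝ)} (hO : IsOpen O) {p : Fin m → ℝ} (hp : p ∈ O) (hp1 : H p = 1) :
    0 < volume (cone (O ∩ {q | H q = 1})) := by
  have hU : IsOpen {q : Fin m → ℝ | 0 < H q} := isOpen_lt continuous_const hc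
  have hcont : ContinuousOn (fun q : Fin m → ℝ => (H q)⁻¹ • q) {q | 0 < H q} :=
    (hc.continuousOn.inv₀ fun q hq => ne_of_gt hq).smul continuousOn_id
  have hV : IsOpen (({q : Fin m → ℝ | 0 < H q} ∩ (fun q => (H q)⁻¹ • q) ⁻¹' O) ∩
      {q | H q < 1}) :=
    (hcont.isOpen_inter_preimage hU hO).inter (isOpen_lt hc continuous_const)
  have hhalf : H ((1 / 2 : ℝ) • p) = 1 / 2 := by
    rw [hh _ _ (by norm_num), hp1, mul_one]
  have hne : (({q : Fin m → ℝ | 0 < H q} ∩ (fun q => (H q)⁻¹ • q) ⁻¹' O) ∩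
      {q | H q < 1}).Nonempty := by
    refine ⟨(1 / 2 : ℝ) • p, ⟨?_, ?_⟩, ?_⟩
    · show 0 < H ((1 / 2 : ℝ) • p)
      rw [hhalf]
      norm_num
    · show (H ((1 / 2 : ℝ) • p))⁻¹ • ((1 / 2 : ℝ) • p) ∈ O
      rw [hhalf, smul_smul, inv_mul_cancel₀ (by norm_num), one_smul]
      exact hp
    · show H ((1 / 2 : ℝ) • p) < 1
      rw [hhalf]
      norm_num
  refine lt_of_lt_of_le (hV.measure_pos volume hne) (measure_mono ?_)
  rintro q ⟨⟨h0, h1⟩, h2⟩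
  have h0' : 0 < H q := h0
  refine ⟨H q, ⟨h0', le_of_lt h2⟩, (H q)⁻¹ • q, ⟨h1, ?_⟩, ?_⟩
  · show H ((H q)⁻¹ • q) = 1
    rw [hh _ _ (inv_nonneg.2 h0'.le), inv_mul_cancel₀ h0'.ne']
  · rw [smul_smul, mul_inv_cancel₀ h0'.ne', one_smul]

end Pool.Agent.W_8cdb14_h41
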