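import Mathlib

/-!
Minkowski norms (fibres of a Finsler metric) and the norms used for the dual.
-/

namespace Pool.Agent.W_8cdb14_h41

variable {m : ℕ}

/-- Hypotheses on the dual norm used in the proof. -/
structure IsNorm (H : (Fin m → ℝ) → ℝ) : Prop where
  cont : Continuous H
  homog : ∀ (s : ℝ) (q : Fin m → ℝ), 0 ≤ s → H (s • q) = s * H q
  pos : ∀ q, q ≠ 0 → 0 < H q
  diff : ∀ q, q ≠ 0 → DifferentiableAt ℝ H q

/-- A fibre of a Finsler metric: of class `C²` off zero (in particular every smooth metric), positively homogeneous, positive, strongly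
convex (the Hessian of `F²` is positive definite at every nonzero vector). -/
structure Minkowski (F : (Fin m → ℝ) → ℝ) : Prop where
  homog : ∀ (s : ℝ) (u : Fin m → ℝ), 0 ≤ s → F (s • u) = s * F u
  pos : ∀ u, u ≠ 0 → 0 < F u
  smooth : ContDiffOn ℝ 2 F {0}ᶜ
  convex : ∀ u h : Fin m → ℝ, u ≠ 0 → h ≠ 0 → 0 < fderiv ℝ (fderiv ℝ fun y => F y ^ 2) u h h

/-- The gradient. -/
noncomputable def grad (F : (Fin m → ℝ) → ℝ) (u : Fin m → ℝ) : Fin m → ℝ :=
  fun i => fderiv ℝ F u (Pi.single i 1)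

end Pool.Agent.W_8cdb14_h41
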