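import Pool.Agent.W_8cdb14_h41.Poly

/-!
Distance to the orbits of the isotropy group.
-/

set_option linter.unusedSectionVars false

namespace Pool.Agent.W_8cdb14_h41

open Matrix

variable {m l : ℕ}

/-- The connected isotropy group: generated by the exponentials of `ad y`, `y ∈ k`. -/
noncomputable def Kgrp (A : (Fin m ⊕ Fin l → ℝ) →ₗ[ℝ] Matrix (Fin m ⊕ Fin l) (Fin m ⊕ Fin l) ℝ) :
    Submonoid (Matrix (Fin m ⊕ Fin l) (Fin m ⊕ Fin l) ℝ) :=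
  Submonoid.closure {g | ∃ y ∈ kk m l, g = NormedSpace.exp (A y)}

/-- The orbit of `v`, as a subset of Euclidean space. -/
noncomputable def orb (A : (Fin m ⊕ Fin l → ℝ) →ₗ[ℝ] Matrix (Fin m ⊕ Fin l) (Fin m ⊕ Fin l) ℝ)
    (v : Fin m ⊕ Fin l → ℝ) : Set (EuclideanSpace ℝ (Fin m ⊕ Fin l)) :=
  {p | ∃ g ∈ Kgrp A, p = WithLp.toLp 2 (v ᵥ* g)}

variable {A : (Fin m ⊕ Fin l → ℝ) →ₗ[ℝ] Matrix (Fin m ⊕ Fin l) (Fin m ⊕ Fin l) ℝ}

theorem exp_mem_K {y : Fin m ⊕ Fin l → ℝ} (hy : y ∈ kk m l) (s : ℝ) :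
    NormedSpace.exp (s • A y) ∈ Kgrp A := by
  rw [← map_smul]
  exact Submonoid.subset_closure ⟨s • y, (kk m l).smul_mem s hy, rfl⟩

theorem orb_nonempty (v : Fin m ⊕ Fin l → ℝ) : (orb A v).Nonempty :=
  ⟨WithLp.toLp 2 (v ᵥ* 1), 1, Submonoid.one_mem _, rfl⟩

theorem self_mem_orb (v : Fin m ⊕ Fin l → ℝ) : WithLp.toLp 2 v ∈ orb A v :=
  ⟨1, Submonoid.one_mem _, by rw [Matrix.vecMul_one]⟩

/-- Orthogonality of `exp` of a skew matrix. -/
theorem exp_orth {y : Fin m ⊕ Fin l → ℝ} (hs : (A y)ᵀ = -A y) (s : ℝ) :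
    NormedSpace.exp (s • A y) * (NormedSpace.exp (s • A y))ᵀ = 1 := by
  rw [← Matrix.exp_transpose, Matrix.transpose_smul, hs, smul_neg, Matrix.exp_neg]
  exact Matrix.mul_nonsing_inv _ ((Matrix.isUnit_iff_isUnit_det _).1 (Matrix.isUnit_exp _))

theorem norm_vecMul_orth {g : Matrix (Fin m ⊕ Fin l) (Fin m ⊕ Fin l) ℝ} (hg : g * gᵀ = 1)
    (p : Fin m ⊕ Fin l → ℝ) :
    ‖(WithLp.toLp 2 (p ᵥ* g) : EuclideanSpace ℝ (Fin m ⊕ Fin l))‖ = ‖(WithLp.toLp 2 p :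
      EuclideanSpace ℝ (Fin m ⊕ Fin l))‖ := by
  rw [EuclideanSpace.norm_eq, EuclideanSpace.norm_eq]
  congr 1
  have h1 : ∀ r : Fin m ⊕ Fin l → ℝ, ∑ i, ‖(WithLp.toLp 2 r : EuclideanSpace ℝ _) i‖ ^ 2 = r ⬝ᵥ r := by
    intro r
    simp only [dotProduct, Real.norm_eq_abs, pow_two, abs_mul_abs_self]
  rw [h1, h1, ← Matrix.dotProduct_mulVec, ← Matrix.vecMul_transpose, Matrix.vecMul_vecMul, hg,
    Matrix.vecMul_one]

theorem infDist_le {y : Fin m ⊕ Fin l → ℝ} (hy : y ∈ kk m l) (hs : (A y)ᵀ = -A y) (s : ℝ)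
    (p v : Fin m ⊕ Fin l → ℝ) :
    Metric.infDist (WithLp.toLp 2 (p ᵥ* NormedSpace.exp (s • A y))) (orb A v) ≤
      Metric.infDist (WithLp.toLp 2 p) (orb A v) := by
  refine (Metric.le_infDist (orb_nonempty v)).2 ?_
  rintro _ ⟨g, hg, rfl⟩
  have h1 : (WithLp.toLp 2 ((v ᵥ* g) ᵥ* NormedSpace.exp (s • A y)) :
      EuclideanSpace ℝ (Fin m ⊕ Fin l)) ∈ orb A v :=
    ⟨g * NormedSpace.exp (s • A y), Submonoid.mul_mem _ hg (exp_mem_K hy s), by
      rw [Matrix.vecMul_vecMul]⟩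
  refine (Metric.infDist_le_dist_of_mem h1).trans_eq ?_
  rw [dist_eq_norm, dist_eq_norm, ← WithLp.toLp_sub, ← WithLp.toLp_sub, ← Matrix.sub_vecMul]
  exact norm_vecMul_orth (exp_orth hs s) _

theorem infDist_eq {y : Fin m ⊕ Fin l → ℝ} (hy : y ∈ kk m l) (hs : (A y)ᵀ = -A y) (s : ℝ)
    (p v : Fin m ⊕ Fin l → ℝ) :
    Metric.infDist (WithLp.toLp 2 (p ᵥ* NormedSpace.exp (s • A y))) (orb A v) =
      Metric.infDist (WithLp.toLp 2 p) (orb A v) := by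
  apply le_antisymm (infDist_le hy hs s p v)
  have h1 := infDist_le hy hs (-s) (p ᵥ* NormedSpace.exp (s • A y)) v
  rw [Matrix.vecMul_vecMul, neg_smul, Matrix.exp_neg,
    Matrix.mul_nonsing_inv _ ((Matrix.isUnit_iff_isUnit_det _).1 (Matrix.isUnit_exp _)),
    Matrix.vecMul_one] at h1
  exact h1

theorem hasDerivAt_vecMul_exp (B : Matrix (Fin m ⊕ Fin l) (Fin m ⊕ Fin l) ℝ)
    (p : Fin m ⊕ Fin l → ℝ) (t : ℝ) :
    HasDerivAt (fun s : ℝ => p ᵥ* NormedSpace.exp ((s - t) • B)) (p ᵥ* B) t := by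
  rw [hasDerivAt_pi]
  intro j
  have h6 : ∀ i, HasDerivAt (fun s : ℝ => NormedSpace.exp ((s - t) • B) i j) (B i j) t := by
    intro i
    let _ : NormedRing (Matrix (Fin m ⊕ Fin l) (Fin m ⊕ Fin l) ℝ) := Matrix.linftyOpNormedRing
    let _ : NormedAlgebra ℝ (Matrix (Fin m ⊕ Fin l) (Fin m ⊕ Fin l) ℝ) :=
      Matrix.linftyOpNormedAlgebra
    have h2 := hasDerivAt_exp_smul_const (𝕂 := ℝ) B (0 : ℝ)
    rw [zero_smul, NormedSpace.exp_zero, one_mul] at h2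
    have h3 : HasDerivAt (fun s : ℝ => s - t) 1 t := (hasDerivAt_id t).sub_const t
    have h4 : HasDerivAt (fun u : ℝ => NormedSpace.exp (u • B)) B ((fun s : ℝ => s - t) t) := by
      have h0 : (fun s : ℝ => s - t) t = 0 := sub_self t
      rw [h0]
      exact h2
    have h5 := HasDerivAt.scomp (h := fun s : ℝ => s - t) t h4 h3
    rw [one_smul] at h5
    let L : Matrix (Fin m ⊕ Fin l) (Fin m ⊕ Fin l) ℝ →ₗ[ℝ] ℝ :=
      { toFun := fun M => M i j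
        map_add' := fun _ _ => rfl
        map_smul' := fun _ _ => rfl }
    exact (LinearMap.toContinuousLinearMap L).hasFDerivAt.comp_hasDerivAt t h5
  have h7 := HasDerivAt.fun_sum (u := Finset.univ) (fun i _ => (h6 i).const_mul (p i))
  exact h7

theorem infDist_deriv (hs : ∀ y ∈ kk m l, (A y)ᵀ = -A y) {p : ℝ → Fin m ⊕ Fin l → ℝ} {t : ℝ}
    (hp : ∃ y ∈ kk m l, HasDerivAt p (p t ᵥ* A y) t) (v : Fin m ⊕ Fin l → ℝ) :
    HasDerivAt (fun s => Metric.infDist (WithLp.toLp 2 (p s)) (orb A v)) 0 t := by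
  obtain ⟨y, hy, hp⟩ := hp
  have h1 : HasDerivAt (fun s => p s - p t ᵥ* NormedSpace.exp ((s - t) • A y)) 0 t := by
    have := hp.sub (hasDerivAt_vecMul_exp (A y) (p t) t)
    rwa [sub_self] at this
  have h2 : HasDerivAt (fun s => (WithLp.toLp 2 (p s - p t ᵥ* NormedSpace.exp ((s - t) • A y)) :
      EuclideanSpace ℝ (Fin m ⊕ Fin l))) 0 t := by
    have := (PiLp.continuousLinearEquiv 2 ℝ
      (fun _ : Fin m ⊕ Fin l => ℝ)).symm.hasFDerivAt.comp_hasDerivAt t h1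
    have h0 : ((PiLp.continuousLinearEquiv 2 ℝ (fun _ : Fin m ⊕ Fin l => ℝ)).symm :
        (Fin m ⊕ Fin l → ℝ) →L[ℝ] EuclideanSpace ℝ (Fin m ⊕ Fin l)) 0 = 0 := map_zero _
    rw [h0] at this
    exact this
  rw [hasDerivAt_iff_isLittleO] at h2 ⊢
  refine Asymptotics.IsBigO.trans_isLittleO ?_ h2
  apply Asymptotics.IsBigO.of_bound 1
  filter_upwards with s
  rw [one_mul, smul_zero, sub_zero, smul_zero, sub_zero]
  have h3 : (WithLp.toLp 2 (p t - p t ᵥ* NormedSpace.exp ((t - t) • A y)) :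
      EuclideanSpace ℝ (Fin m ⊕ Fin l)) = 0 := by
    rw [sub_self, zero_smul, NormedSpace.exp_zero, Matrix.vecMul_one, sub_self]
    rfl
  rw [h3, sub_zero, ← infDist_eq hy (hs y hy) (s - t) (p t) v, Real.norm_eq_abs, abs_le]
  have h4 := Metric.infDist_le_infDist_add_dist (s := orb A v)
    (x := (WithLp.toLp 2 (p s) : EuclideanSpace ℝ (Fin m ⊕ Fin l)))
    (y := WithLp.toLp 2 (p t ᵥ* NormedSpace.exp ((s - t) • A y)))
  have h5 := Metric.infDist_le_infDist_add_dist (s := orb A v)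
    (y := (WithLp.toLp 2 (p s) : EuclideanSpace ℝ (Fin m ⊕ Fin l)))
    (x := WithLp.toLp 2 (p t ᵥ* NormedSpace.exp ((s - t) • A y)))
  rw [dist_comm] at h5
  rw [dist_eq_norm, ← WithLp.toLp_sub] at h4 h5
  constructor <;> linarith

/-- A curve which moves infinitesimally only by the isotropy algebra stays at constant distance
from the orbits. -/
theorem infDist_const (hs : ∀ y ∈ kk m l, (A y)ᵀ = -A y) {p : ℝ → Fin m ⊕ Fin l → ℝ}
    (hp : ∀ t, ∃ y ∈ kk m l, HasDerivAt p (p t ᵥ* A y) t) (v : Fin m ⊕ Fin l → ℝ) (s t : ℝ) :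
    Metric.infDist (WithLp.toLp 2 (p s)) (orb A v) =
      Metric.infDist (WithLp.toLp 2 (p t)) (orb A v) := by
  have h := fun r => infDist_deriv hs (hp r) v
  exact is_const_of_deriv_eq_zero (fun r => (h r).differentiableAt) (fun r => (h r).deriv) s t

end Pool.Agent.W_8cdb14_h41
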