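import Pool.Agent.W_8cdb14_h41.Defs

/-!
The trace contradiction.

Proof.  For `q` in `E = k^⊥` let `T_q` be the matrix of `hT`; `T := T_v` (`v ∈ E` by `hvk`), so
`v ᵥ* T = v`, i.e. `v ⬝ᵥ (T *ᵥ x) = v ⬝ᵥ x`.  Let `N = {x | ∀ y, v ⬝ᵥ (A y *ᵥ x) = 0}` and
`W = N ⊓ k`.
(1) `T` preserves `N`: for `x ∈ N`, `v ⬝ᵥ (A y *ᵥ T *ᵥ x) = v ⬝ᵥ (T *ᵥ A y *ᵥ x) -
    v ⬝ᵥ (A (T *ᵥ y) *ᵥ x) = v ⬝ᵥ (A y *ᵥ x) - 0 = 0` (IsDer, `v ᵥ* T = v`).
(2) `T *ᵥ x - x ∈ W` for `x ∈ N`: it is in `N` by (1); it is in `k` because every `q ∈ E` kills it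
    (`k = (k^⊥)^⊥`): `q ⬝ᵥ (T x - x) = v ⬝ᵥ T_q (T x) - v ⬝ᵥ T_q x
    = v ⬝ᵥ T (T_q x) + v ⬝ᵥ (A z x) - v ⬝ᵥ T_q x = 0` with `T_q T - T T_q = A z`, `x ∈ N`.
    Hence `T` preserves `W`.
(3) trace of `T` on `W` is `0`: the form `(A x * A y).trace` is negative definite on `W ⊆ k` and
    `(A (T x) * A y).trace + (A x * A (T y)).trace = 0` (since `A (T x) = T * A x - A x * T` and
    `Matrix.trace_mul_comm`), so `T` is skew for a nondegenerate symmetric form on `W`.
(4) the trace of `T` on `N / W` is `dim N - dim W` (identity there, by (2)).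
(5) on `ℝ^σ / N` the form `v ⬝ᵥ (A x *ᵥ y)` is nondegenerate (alternating) and
    `v ⬝ᵥ (A (T x) y) + v ⬝ᵥ (A x (T y)) = v ⬝ᵥ (A x y)`, so `T + T* = 1` and the trace of `T` on
    the quotient is `(dim ℝ^σ - dim N) / 2`.
Total: `0 = trace T = (card σ - dim N)/2 + (dim N - dim W)`, so `N = ⊤` and `W = N`, so `k = ⊤`,
so `v = 0` by `hvk`, contradiction.
-/

namespace Pool.Agent.W_8cdb14_h41

open Matrix

variable {σ : Type} [Fintype σ] [DecidableEq σ]

/-- a map which is skew for a nondegenerate form has trace zero -/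
lemma trace_skew_aux {W : Type*} [AddCommGroup W] [Module ℝ W] [FiniteDimensional ℝ W]
    (B : LinearMap.BilinForm ℝ W) (hB : B.Nondegenerate) (R : W →ₗ[ℝ] W)
    (h : ∀ x y, B (R x) y + B x (R y) = 0) : LinearMap.trace ℝ W R = 0 := by
  classical
  set b := Module.finBasis ℝ W
  have hdet := (LinearMap.BilinForm.nondegenerate_iff_det_ne_zero b).1 hB
  set M := LinearMap.BilinForm.toMatrix b B with hM
  set N := LinearMap.toMatrix b b R with hN
  have e1 : Nᵀ * M = -(M * N) := by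
    rw [eq_neg_iff_add_eq_zero, hM, hN, ← LinearMap.BilinForm.toMatrix_compLeft,
      ← LinearMap.BilinForm.toMatrix_compRight]
    have : B.compLeft R + B.compRight R = 0 := by
      ext x y
      simpa using h x y
    rw [← (LinearMap.BilinForm.toMatrix b).map_add, this]
    exact (LinearMap.BilinForm.toMatrix b).map_zero
  have hu : IsUnit M.det := isUnit_iff_ne_zero.2 hdet
  have e2 : Nᵀ = -(M * N * M⁻¹) := by
    calc Nᵀ = Nᵀ * M * M⁻¹ := by rw [Matrix.mul_assoc, Matrix.mul_nonsing_inv _ hu, Matrix.mul_one]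
      _ = _ := by rw [e1, Matrix.neg_mul]
  have e3 : N.trace = -N.trace := by
    conv_lhs => rw [← Matrix.trace_transpose, e2, Matrix.trace_neg, Matrix.mul_assoc,
      Matrix.trace_mul_comm, Matrix.mul_assoc, Matrix.nonsing_inv_mul _ hu, Matrix.mul_one]
  rw [LinearMap.trace_eq_matrix_trace ℝ b]
  linarith

/-- trace through a pair of complementary subspaces -/
lemma trace_compl_aux {V : Type*} [AddCommGroup V] [Module ℝ V] [FiniteDimensional ℝ V]
    {N C : Submodule ℝ V} (h : IsCompl N C) (T : V →ₗ[ℝ] V) :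
    LinearMap.trace ℝ V T =
      LinearMap.trace ℝ N ((Submodule.projectionOnto N C h) ∘ₗ T ∘ₗ N.subtype) +
      LinearMap.trace ℝ C ((Submodule.projectionOnto C N h.symm) ∘ₗ T ∘ₗ C.subtype) := by
  have e : T = T ∘ₗ N.subtype ∘ₗ (Submodule.projectionOnto N C h) +
      T ∘ₗ C.subtype ∘ₗ (Submodule.projectionOnto C N h.symm) := by
    ext x
    simp only [LinearMap.add_apply, LinearMap.comp_apply, Submodule.subtype_apply, ← map_add]
    congr 1
    exact (Submodule.projection_add_projection_eq_self h x).symm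
  conv_lhs => rw [e, map_add]
  congr 1
  · rw [← LinearMap.comp_assoc, LinearMap.trace_comp_comm', ← LinearMap.comp_assoc]
  · rw [← LinearMap.comp_assoc, LinearMap.trace_comp_comm', ← LinearMap.comp_assoc]

/-- the half trace on the complement of the radical -/
lemma trace_half_aux {V : Type*} [AddCommGroup V] [Module ℝ V] [FiniteDimensional ℝ V]
    (ω : LinearMap.BilinForm ℝ V) (hs : ∀ x y, ω x y = -ω y x) {N C : Submodule ℝ V}
    (hN : ∀ x, x ∈ N ↔ ∀ y, ω y x = 0) (h : IsCompl N C) (T : V →ₗ[ℝ] V)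
    (hT : ∀ x y, ω (T x) y + ω x (T y) = ω x y) :
    2 * LinearMap.trace ℝ C ((Submodule.projectionOnto C N h.symm) ∘ₗ T ∘ₗ C.subtype) =
      Module.finrank ℝ C := by
  set π := Submodule.projectionOnto C N h.symm with hπ
  set S : C →ₗ[ℝ] C := π ∘ₗ T ∘ₗ C.subtype with hS
  have hr : ∀ (z y : V), ω ((π z : C) : V) y = ω z y := by
    intro z y
    have e := Submodule.projection_add_projection_eq_self h.symm z
    have e2 : ω z y = ω ((π z : C) : V) y + ω ((Submodule.projectionOnto N C h z : N) : V) y := by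
      rw [← LinearMap.add_apply, ← map_add]
      congr 2
      exact e.symm
    have e3 : ω ((Submodule.projectionOnto N C h z : N) : V) y = 0 := by
      rw [hs, (hN _).1 (Submodule.projectionOnto N C h z).2 y, neg_zero]
    rw [e2, e3, add_zero]
  have hr' : ∀ (z y : V), ω y ((π z : C) : V) = ω y z := by
    intro z y
    rw [hs, hr, ← hs]
  set B : LinearMap.BilinForm ℝ C := ω.domRestrict₁₂ C C with hB
  have hBa : ∀ x y : C, B x y = ω (x : V) (y : V) := fun x y => rfl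
  have hnd : B.Nondegenerate := by
    constructor
    · intro x hx
      have : (x : V) ∈ N := by
        rw [hN]
        intro y
        rw [hs, ← hr' y, ← hBa, hx, neg_zero]
      have h0 := h.disjoint.le_bot ⟨this, x.2⟩
      exact Subtype.ext ((Submodule.mem_bot ℝ).1 h0)
    · intro x hx
      have : (x : V) ∈ N := by
        rw [hN]
        intro y
        rw [← hr y, ← hBa, hx]
      have h0 := h.disjoint.le_bot ⟨this, x.2⟩
      exact Subtype.ext ((Submodule.mem_bot ℝ).1 h0)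
  have h0 := trace_skew_aux B hnd ((2:ℝ) • S - LinearMap.id) (by
    intro x y
    have e1 : B (S x) y = ω (T x) y := by rw [hBa]; exact hr _ _
    have e2 : B x (S y) = ω x (T y) := by rw [hBa]; exact hr' _ _
    simp only [LinearMap.sub_apply, LinearMap.smul_apply, LinearMap.id_apply, map_sub, map_smul,
      smul_eq_mul]
    rw [e1, e2, hBa]
    linarith [hT x y])
  rw [map_sub, map_smul, LinearMap.trace_id, smul_eq_mul] at h0
  linarith

theorem trace_contra {A : (σ → ℝ) →ₗ[ℝ] Matrix σ σ ℝ} (hA : IsAd A)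
    (k : Submodule ℝ (σ → ℝ)) (hneg : ∀ y ∈ k, y ≠ 0 → (A y * A y).trace < 0)
    (v : σ → ℝ) (hv : v ≠ 0) (hvk : ∀ y ∈ k, v ⬝ᵥ y = 0)
    (hT : ∀ q : σ → ℝ, (∀ y ∈ k, q ⬝ᵥ y = 0) → ∃ T : Matrix σ σ ℝ,
      IsDer A T ∧ v ᵥ* T = q ∧ T.trace = 0 ∧
        ∀ D, IsDer A D → ∃ z, T * D - D * T = A z) : False := by
  classical
  obtain ⟨T, hTd, hTv, hTt, -⟩ := hT v hvk
  -- the form
  let ω : LinearMap.BilinForm ℝ (σ → ℝ) := LinearMap.mk₂ ℝ (fun x y => v ⬝ᵥ (A x *ᵥ y))
    (fun x x' y => by simp [Matrix.add_mulVec])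
    (fun c x y => by simp [Matrix.smul_mulVec])
    (fun x y y' => by simp [Matrix.mulVec_add])
    (fun c x y => by simp [Matrix.mulVec_smul])
  have hω : ∀ x y, ω x y = v ⬝ᵥ (A x *ᵥ y) := fun x y => rfl
  have hs : ∀ x y, ω x y = -ω y x := by
    intro x y
    rw [hω, hω, hA.skew x y]
    simp
  let N : Submodule ℝ (σ → ℝ) :=
    { carrier := {x | ∀ y, ω y x = 0}
      add_mem' := fun {a b} ha hb y => by
        have h1 : ω y a = 0 := ha y
        have h2 : ω y b = 0 := hb y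
        rw [map_add, h1, h2, add_zero]
      zero_mem' := fun y => by rw [map_zero]
      smul_mem' := fun c x hx y => by
        have h1 : ω y x = 0 := hx y
        rw [map_smul, h1, smul_zero] }
  have hN : ∀ x, x ∈ N ↔ ∀ y, ω y x = 0 := fun x => Iff.rfl
  have hvT : ∀ x : σ → ℝ, v ⬝ᵥ (T *ᵥ x) = v ⬝ᵥ x := by
    intro x
    rw [Matrix.dotProduct_mulVec, hTv]
  have hTω : ∀ x y, ω (Matrix.mulVecLin T x) y + ω x (Matrix.mulVecLin T y) = ω x y := by
    intro x y
    simp only [hω, Matrix.mulVecLin_apply]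
    rw [← hTd x, Matrix.sub_mulVec, dotProduct_sub, ← Matrix.mulVec_mulVec, ← Matrix.mulVec_mulVec,
      hvT]
    ring
  have hTN : ∀ x ∈ N, T *ᵥ x ∈ N := by
    intro x hx
    rw [hN]
    intro y
    have h1 := hTω y x
    simp only [Matrix.mulVecLin_apply] at h1
    rw [(hN x).1 hx, (hN x).1 hx] at h1
    linarith
  have hTk : ∀ x ∈ N, T *ᵥ x - x ∈ k := by
    intro x hx
    by_contra hnot
    obtain ⟨f, hf, hfk⟩ := Submodule.exists_dual_map_eq_bot_of_notMem hnot inferInstance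
    set q : σ → ℝ := fun i => f (Pi.single i 1) with hq
    have hfq : ∀ z, f z = q ⬝ᵥ z := by
      intro z
      conv_lhs => rw [← Finset.univ_sum_single z]
      rw [map_sum, dotProduct]
      refine Finset.sum_congr rfl fun i _ => ?_
      have : (Pi.single i (z i) : σ → ℝ) = z i • Pi.single i 1 := by
        rw [← Pi.single_smul, smul_eq_mul, mul_one]
      rw [this, map_smul, smul_eq_mul, mul_comm]
    have hqk : ∀ y ∈ k, q ⬝ᵥ y = 0 := by
      intro y hy
      rw [← hfq]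
      have : f y ∈ k.map f := ⟨y, hy, rfl⟩
      rw [hfk] at this
      exact (Submodule.mem_bot ℝ).1 this
    obtain ⟨Tq, -, hTqv, -, hTqc⟩ := hT q hqk
    obtain ⟨z, hz⟩ := hTqc T hTd
    apply hf
    rw [hfq, dotProduct_sub]
    have e1 : ∀ u, q ⬝ᵥ u = v ⬝ᵥ (Tq *ᵥ u) := by
      intro u
      rw [Matrix.dotProduct_mulVec, hTqv]
    rw [e1, e1, Matrix.mulVec_mulVec, ← sub_add_cancel (Tq * T) (T * Tq), hz, Matrix.add_mulVec,
      dotProduct_add, ← Matrix.mulVec_mulVec x T Tq, hvT]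
    have : v ⬝ᵥ (A z *ᵥ x) = 0 := (hN x).1 hx z
    rw [this]
    ring
  set W : Submodule ℝ (σ → ℝ) := N ⊓ k with hW
  obtain ⟨C, hC⟩ := N.exists_isCompl
  have hWN : ∀ x ∈ N, T *ᵥ x - x ∈ W := fun x hx => ⟨N.sub_mem (hTN x hx) hx, hTk x hx⟩
  let S : N →ₗ[ℝ] W := (((Matrix.mulVecLin T - LinearMap.id) ∘ₗ N.subtype).codRestrict W
    (fun x => by simpa using hWN x x.2))
  have hSa : ∀ x : N, ((S x : W) : σ → ℝ) = T *ᵥ (x : σ → ℝ) - x := fun x => rfl
  let jj : W →ₗ[ℝ] N := Submodule.inclusion inf_le_left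
  have hN1 : (Submodule.projectionOnto N C hC) ∘ₗ (Matrix.mulVecLin T) ∘ₗ N.subtype =
      LinearMap.id + jj ∘ₗ S := by
    ext x : 1
    apply Subtype.ext
    have e1 : (Submodule.projectionOnto N C hC) (T *ᵥ (x : σ → ℝ)) = ⟨T *ᵥ (x : σ → ℝ), hTN x x.2⟩ :=
      Submodule.projectionOnto_apply_left hC ⟨T *ᵥ (x : σ → ℝ), hTN x x.2⟩
    simp only [LinearMap.comp_apply, Submodule.subtype_apply, Matrix.mulVecLin_apply,
      LinearMap.add_apply, LinearMap.id_apply]
    rw [e1]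
    show T *ᵥ (x : σ → ℝ) = (x : σ → ℝ) + ((S x : W) : σ → ℝ)
    rw [hSa]
    abel
  have tr1 := trace_compl_aux hC (Matrix.mulVecLin T)
  have tr2 := trace_half_aux ω hs hN hC (Matrix.mulVecLin T) hTω
  have trT : LinearMap.trace ℝ (σ → ℝ) (Matrix.mulVecLin T) = 0 := by
    rw [← Matrix.toLin'_apply']
    rw [Matrix.trace_toLin'_eq]
    exact hTt
  rw [trT, hN1, map_add, LinearMap.trace_id, LinearMap.trace_comp_comm'] at tr1
  -- the form on W
  let β : LinearMap.BilinForm ℝ W := LinearMap.mk₂ ℝ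
    (fun x y => (A (x : σ → ℝ) * A (y : σ → ℝ)).trace)
    (fun x x' y => by simp [add_mul])
    (fun c x y => by simp)
    (fun x y y' => by simp [mul_add])
    (fun c x y => by simp)
  have hβ : ∀ x y : W, β x y = (A (x : σ → ℝ) * A (y : σ → ℝ)).trace := fun x y => rfl
  have hβn : β.Nondegenerate := by
    constructor
    · intro x hx
      by_contra hne
      have h1 := hneg x x.2.2 (fun h0 => hne (Subtype.ext h0))
      have h2 := hx x
      rw [hβ] at h2
      linarith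
    · intro x hx
      by_contra hne
      have h1 := hneg x x.2.2 (fun h0 => hne (Subtype.ext h0))
      have h2 := hx x
      rw [hβ] at h2
      linarith
  have hR : ∀ x : W, (((S ∘ₗ jj + LinearMap.id : W →ₗ[ℝ] W) x : W) : σ → ℝ) = T *ᵥ (x : σ → ℝ) := by
    intro x
    show ((S (jj x) : W) : σ → ℝ) + (x : σ → ℝ) = _
    rw [hSa]
    show T *ᵥ (x : σ → ℝ) - (x : σ → ℝ) + (x : σ → ℝ) = _
    abel
  have tr3 := trace_skew_aux β hβn (S ∘ₗ jj + LinearMap.id) (by
    intro x y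
    rw [hβ, hβ, hR, hR, ← hTd, ← hTd, Matrix.sub_mul, Matrix.mul_sub, Matrix.trace_sub,
      Matrix.trace_sub]
    have e1 : (T * A (x : σ → ℝ) * A (y : σ → ℝ)).trace = (A (x : σ → ℝ) * (A (y : σ → ℝ) * T)).trace := by
      rw [Matrix.mul_assoc, Matrix.trace_mul_comm, Matrix.mul_assoc]
    have e2 : (A (x : σ → ℝ) * T * A (y : σ → ℝ)).trace = (A (x : σ → ℝ) * (T * A (y : σ → ℝ))).trace := by
      rw [Matrix.mul_assoc]
    rw [e1, e2]
    ring)
  rw [map_add, LinearMap.trace_id] at tr3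
  -- dimensions
  have d1 : Module.finrank ℝ N + Module.finrank ℝ C = Module.finrank ℝ (σ → ℝ) :=
    Submodule.finrank_add_eq_of_isCompl hC
  have d2 : Module.finrank ℝ W ≤ Module.finrank ℝ N := Submodule.finrank_mono inf_le_left
  have d3 : (Module.finrank ℝ N : ℝ) - Module.finrank ℝ W + Module.finrank ℝ C / 2 = 0 := by
    linarith
  have d2' : (Module.finrank ℝ W : ℝ) ≤ Module.finrank ℝ N := by exact_mod_cast d2
  have d4 : (0:ℝ) ≤ Module.finrank ℝ C := Nat.cast_nonneg _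
  have d5 : (Module.finrank ℝ C : ℝ) = 0 := by linarith
  have d6 : (Module.finrank ℝ N : ℝ) = Module.finrank ℝ W := by linarith
  have d7 : Module.finrank ℝ W = Module.finrank ℝ (σ → ℝ) := by
    have h1 : Module.finrank ℝ C = 0 := by exact_mod_cast d5
    have h2 : Module.finrank ℝ N = Module.finrank ℝ W := by exact_mod_cast d6
    omega
  have hWtop : W = ⊤ := Submodule.eq_top_of_finrank_eq d7
  have hvkm : v ∈ k := by
    have : v ∈ W := by rw [hWtop]; trivial
    exact this.2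
  exact hv (dotProduct_self_eq_zero.1 (hvk v hvkm))

end Pool.Agent.W_8cdb14_h41
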