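import Pool.Agent.W_8cdb14_h41.Generic2
import Pool.Agent.W_8cdb14_h41.TraceLemma
import Pool.Agent.W_8cdb14_h41.Along
import Pool.Agent.W_8cdb14_h41.Closed
import Pool.Agent.W_8cdb14_h41.ConeMeas
import Pool.Agent.W_8cdb14_h41.Orbit
import Pool.Agent.W_8cdb14_h41.Norms

/-!
The theorem in coordinates.
-/

set_option linter.unusedSectionVars false

namespace Pool.Agent.W_8cdb14_h41

open Matrix MeasureTheory

variable {m l : ℕ}

/-- Momentum curves of (lifts of) unit speed geodesics, in coordinates. -/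
structure FlowCurve (A : (Fin m ⊕ Fin l → ℝ) →ₗ[ℝ] Matrix (Fin m ⊕ Fin l) (Fin m ⊕ Fin l) ℝ)
    (H : (Fin m → ℝ) → ℝ) (q : ℝ → Fin m → ℝ) (ξ : ℝ → Fin m ⊕ Fin l → ℝ) : Prop where
  cont : Continuous ξ
  unit : ∀ t, H (q t) = 1
  hor : ∀ t i, ξ t (Sum.inl i) = fderiv ℝ H (q t) (Pi.single i 1)
  mom : ∀ t, HasDerivAt (fun s => emb m l (q s)) (emb m l (q t) ᵥ* A (ξ t)) t

/-- Invariant sets of momenta. -/
def Inv (A : (Fin m ⊕ Fin l → ℝ) →ₗ[ℝ] Matrix (Fin m ⊕ Fin l) (Fin m ⊕ Fin l) ℝ)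
    (H : (Fin m → ℝ) → ℝ) (S : Set (Fin m → ℝ)) : Prop :=
  ∀ q ξ, FlowCurve A H q ξ → ∀ s t, q s ∈ S → q t ∈ S

theorem IsNorm.ne_zero {H : (Fin m → ℝ) → ℝ} (hH : IsNorm H) {q : Fin m → ℝ} (hq : H q = 1) :
    q ≠ 0 := by
  rintro rfl
  have := hH.homog 0 0 le_rfl
  rw [zero_smul, zero_mul] at this
  rw [this] at hq
  exact zero_ne_one hq

theorem fderiv_eq_dot {H : (Fin m → ℝ) → ℝ} (q u : Fin m → ℝ) (ξ : Fin m ⊕ Fin l → ℝ)
    (h : ∀ i, ξ (Sum.inl i) = fderiv ℝ H q (Pi.single i 1)) :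
    emb m l u ⬝ᵥ ξ = fderiv ℝ H q u := by
  rw [dotProduct, Fintype.sum_sum_type]
  simp only [emb_inl, emb_inr, zero_mul, Finset.sum_const_zero, add_zero, h]
  have hu : u = ∑ i, u i • (Pi.single i (1 : ℝ) : Fin m → ℝ) := by
    ext j; simp [Finset.sum_apply, Pi.single_apply]
  conv_rhs => rw [hu]
  rw [map_sum]
  simp only [map_smul, smul_eq_mul]

variable {A : (Fin m ⊕ Fin l → ℝ) →ₗ[ℝ] Matrix (Fin m ⊕ Fin l) (Fin m ⊕ Fin l) ℝ}

/-- The algebraic theorem. -/
theorem alg (hA : IsAd A) (hU : ∀ x, (A x).trace = 0)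
    (hneg : ∀ y ∈ kk m l, y ≠ 0 → (A y * A y).trace < 0) {v : Fin m → ℝ} (hv : v ≠ 0) :
    ∃ f ∈ J A (emb m l v), ∃ q : Fin m → ℝ, dd f (emb m l v) (emb m l q) ≠ 0 := by
  by_contra hcon
  push Not at hcon
  refine trace_contra hA (kk m l) hneg (emb m l v) ?_ (fun y hy => emb_dot_kk v hy) ?_
  · intro h
    apply hv
    apply emb_injective m l
    rw [h, map_zero]
  · intro q hq
    have h1 := perp_kk hq
    apply exists_T hA hU
    intro f hf
    rw [h1]
    exact hcon f hf _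

/-- The points with minimal `J`. -/
def Good (A : (Fin m ⊕ Fin l → ℝ) →ₗ[ℝ] Matrix (Fin m ⊕ Fin l) (Fin m ⊕ Fin l) ℝ)
    (H : (Fin m → ℝ) → ℝ) : Set (Fin m → ℝ) :=
  {v | H v = 1 ∧ ∀ w, H w = 1 → J A (emb m l v) ≤ J A (emb m l w)}

theorem good_step (hA : IsAd A) (hU : ∀ x, (A x).trace = 0)
    (hneg : ∀ y ∈ kk m l, y ≠ 0 → (A y * A y).trace < 0) {H : (Fin m → ℝ) → ℝ} (hH : IsNorm H)
    {v : Fin m → ℝ} (hv : v ∈ Good A H) (ξ : Fin m ⊕ Fin l → ℝ)
    (hξ : ∀ i, ξ (Sum.inl i) = fderiv ℝ H v (Pi.single i 1)) :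
    ∃ y ∈ kk m l, emb m l v ᵥ* A ξ = emb m l v ᵥ* A y := by
  apply exists_isotropy hA
  intro x u hxu
  rw [fderiv_eq_dot v u ξ hξ]
  by_contra hne
  obtain ⟨f, hf, q, hq⟩ := alg hA hU hneg (hH.ne_zero hv.1)
  have hvan : ∀ w, H w = 1 → MvPolynomial.eval (emb m l w) f = 0 := by
    intro w hw
    have := hv.2 w hw hf 1 (Submonoid.one_mem _)
    rwa [Matrix.vecMul_one] at this
  have htan := tangent hH.cont hH.homog f hvan hv.1 (hH.diff v (hH.ne_zero hv.1))
  have h1 := htan u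
  rw [map_sub, map_smul, dd_sub_dir, dd_smul_dir, ← hxu, dd_J hf, zero_sub, neg_eq_zero] at h1
  have h2 : dd f (emb m l v) (emb m l v) = 0 := (mul_eq_zero.1 h1).resolve_left hne
  have h3 := htan q
  rw [map_sub, map_smul, dd_sub_dir, dd_smul_dir, h2, mul_zero, sub_zero] at h3
  exact hq h3

theorem J_le_of_curve {H : (Fin m → ℝ) → ℝ} {q : ℝ → Fin m → ℝ} {ξ : ℝ → Fin m ⊕ Fin l → ℝ}
    (h : FlowCurve A H q ξ) (s t : ℝ) : J A (emb m l (q s)) ≤ J A (emb m l (q t)) :=
  J_along (fun s => emb m l (q s)) ξ h.cont h.mom s t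

theorem good_inv (H : (Fin m → ℝ) → ℝ) : Inv A H (Good A H) := by
  intro q ξ h s t hs
  exact ⟨h.unit t, fun w hw => (J_le_of_curve h t s).trans (hs.2 w hw)⟩

/-- If a closed set contains almost all of the sphere, it contains the sphere. -/
theorem sphere_subset_of_null {H : (Fin m → ℝ) → ℝ} (hH : IsNorm H) {C : Set (Fin m → ℝ)}
    (hC : IsClosed C) (h0 : volume (cone ({q | H q = 1} \ C)) = 0) : {q | H q = 1} ⊆ C := by
  intro p hp
  by_contra hpC
  have h1 := cone_open_pos hH.cont hH.homog hC.isOpen_compl hpC hp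
  have h2 : Cᶜ ∩ {q | H q = 1} ⊆ {q | H q = 1} \ C := fun q hq => ⟨hq.2, hq.1⟩
  have h3 : volume (cone (Cᶜ ∩ {q | H q = 1})) = 0 := measure_mono_null (cone_mono h2) h0
  rw [h3] at h1
  exact lt_irrefl _ h1

theorem good_measurable_null {H : (Fin m → ℝ) → ℝ} (hH : IsNorm H)
    (herg : ∀ S ⊆ {q | H q = 1}, MeasurableSet S → Inv A H S →
      volume (cone S) = 0 ∨ volume (cone ({q | H q = 1} \ S)) = 0) :
    MeasurableSet (Good A H) ∧ volume (cone ({q | H q = 1} \ Good A H)) = 0 := by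
  classical
  obtain ⟨C, hC1, hC2, hC3⟩ := exists_closed A (emb m l)
  have hSm : MeasurableSet {q | H q = 1} := (isClosed_eq hH.cont continuous_const).measurableSet
  let S : Set (Fin m → ℝ) := {q | H q = 1}
  let B : ℕ → Set (Fin m → ℝ) := fun n => if S ⊆ C n then ∅ else S ∩ C n
  have hgood : Good A H = S \ ⋃ n, B n := by
    ext v
    constructor
    · rintro ⟨hv, hv2⟩
      refine ⟨hv, fun hmem => ?_⟩
      obtain ⟨n, hn⟩ := Set.mem_iUnion.1 hmem
      have h1 := (hC3 S v).2 hv2 n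
      by_cases hSC : S ⊆ C n
      · simp [B, hSC] at hn
      · simp only [B, hSC, if_false] at hn
        exact hSC (h1 hn.2)
    · rintro ⟨hv, hv2⟩
      refine ⟨hv, (hC3 S v).1 fun n hn => ?_⟩
      by_contra hSC
      apply hv2
      refine Set.mem_iUnion.2 ⟨n, ?_⟩
      simp only [B, hSC, if_false]
      exact ⟨hv, hn⟩
  have hBm : ∀ n, MeasurableSet (B n) := by
    intro n
    by_cases hSC : S ⊆ C n
    · simp only [B, hSC, if_true]; exact MeasurableSet.empty
    · simp only [B, hSC, if_false]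
      exact hSm.inter (hC1 n).measurableSet
  have hBnull : ∀ n, volume (cone (B n)) = 0 := by
    intro n
    by_cases hSC : S ⊆ C n
    · simp only [B, hSC, if_true]
      have : cone (∅ : Set (Fin m → ℝ)) = ∅ := by
        ext q; simp [cone]
      rw [this, measure_empty]
    · simp only [B, hSC, if_false]
      have h1 := herg (S ∩ C n) Set.inter_subset_left (hSm.inter (hC1 n).measurableSet) (by
        intro q ξ h s t hs
        exact ⟨h.unit t, hC2 n _ _ hs.2 (J_le_of_curve h s t)⟩)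
      rcases h1 with h1 | h1
      · exact h1
      · exfalso
        apply hSC
        apply sphere_subset_of_null hH (hC1 n)
        have : S \ (S ∩ C n) = S \ C n := Set.diff_self_inter
        rwa [this] at h1
  refine ⟨?_, ?_⟩
  · rw [hgood]
    exact hSm.diff (MeasurableSet.iUnion hBm)
  · have h1 : S \ Good A H ⊆ ⋃ n, B n := by
      rw [hgood]
      intro v hv
      by_contra hcon
      exact hv.2 ⟨hv.1, hcon⟩
    exact measure_mono_null (cone_mono h1) (cone_iUnion_null B hBnull)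

/-- The main theorem in coordinates. -/
theorem core (hA : IsAd A) (hU : ∀ x, (A x).trace = 0) (hskew : ∀ y ∈ kk m l, (A y)ᵀ = -A y)
    (hcen : ∀ y ∈ kk m l, A y = 0 → y = 0) {H : (Fin m → ℝ) → ℝ} (hH : IsNorm H)
    (herg : ∀ S ⊆ {q | H q = 1}, MeasurableSet S → Inv A H S →
      volume (cone S) = 0 ∨ volume (cone ({q | H q = 1} \ S)) = 0)
    {v w : Fin m → ℝ} (hv : H v = 1) (hw : H w = 1) :
    WithLp.toLp 2 (emb m l v) ∈ closure (orb A (emb m l w)) := by
  have hneg : ∀ y ∈ kk m l, y ≠ 0 → (A y * A y).trace < 0 := by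
    intro y hy hy0
    exact neg_of_skew (hskew y hy) (fun h => hy0 (hcen y hy h))
  by_contra hcon
  obtain ⟨hGm, hGn⟩ := good_measurable_null hH herg
  let φ : (Fin m → ℝ) → ℝ := fun q =>
    Metric.infDist (WithLp.toLp 2 (emb m l q)) (orb A (emb m l w))
  have hφc : Continuous φ := by
    apply (Metric.continuous_infDist_pt _).comp
    exact (PiLp.continuous_toLp 2 (fun _ : Fin m ⊕ Fin l => ℝ)).comp (continuous_emb m l)
  have hδ : 0 < φ v := (Metric.infDist_pos_iff_notMem_closure (orb_nonempty _)).1 hcon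
  have hφw : φ w = 0 := Metric.infDist_zero_of_mem (self_mem_orb _)
  let U : Set (Fin m → ℝ) := {q | φ q < φ v / 2}
  let U' : Set (Fin m → ℝ) := {q | φ v / 2 < φ q}
  have hU1 : IsOpen U := isOpen_lt hφc continuous_const
  have hU2 : IsOpen U' := isOpen_lt continuous_const hφc
  have hSinv : Inv A H (Good A H ∩ U) := by
    intro q ξ h s t hs
    have hg : ∀ r, q r ∈ Good A H := fun r => good_inv H q ξ h s r hs.1
    refine ⟨hg t, ?_⟩
    have h1 : φ (q t) = φ (q s) := by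
      apply infDist_const hskew (p := fun r => emb m l (q r))
      intro r
      obtain ⟨y, hy, hy2⟩ := good_step hA hU hneg hH (hg r) (ξ r) (h.hor r)
      refine ⟨y, hy, ?_⟩
      rw [← hy2]
      exact h.mom r
    change φ (q t) < φ v / 2
    rw [h1]
    exact hs.2
  have h1 := herg (Good A H ∩ U) (fun q hq => hq.1.1) (hGm.inter hU1.measurableSet) hSinv
  rcases h1 with h1 | h1
  · have h2 := cone_open_pos hH.cont hH.homog hU1 (p := w) (by
      change φ w < φ v / 2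
      rw [hφw]; positivity) hw
    have h3 : U ∩ {q | H q = 1} ⊆ ⋃ n : ℕ, (fun n : ℕ => if n = 0 then Good A H ∩ U else
        {q | H q = 1} \ Good A H) n := by
      intro q hq
      by_cases hqG : q ∈ Good A H
      · exact Set.mem_iUnion.2 ⟨0, by simpa using ⟨hqG, hq.1⟩⟩
      · exact Set.mem_iUnion.2 ⟨1, by simpa using ⟨hq.2, hqG⟩⟩
    have h4 : volume (cone (U ∩ {q | H q = 1})) = 0 := by
      refine measure_mono_null (cone_mono h3) (cone_iUnion_null _ fun n => ?_)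
      by_cases hn : n = 0
      · simp only [hn, if_true]; exact h1
      · simp only [hn, if_false]; exact hGn
    rw [h4] at h2
    exact lt_irrefl _ h2
  · have h2 := cone_open_pos hH.cont hH.homog hU2 (p := v) (by
      change φ v / 2 < φ v
      linarith) hv
    have h3 : U' ∩ {q | H q = 1} ⊆ {q | H q = 1} \ (Good A H ∩ U) := by
      intro q hq
      refine ⟨hq.2, fun hmem => ?_⟩
      have h4 : φ q < φ v / 2 := hmem.2
      have h5 : φ v / 2 < φ q := hq.1
      exact lt_asymm h4 h5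
    have h4 := measure_mono_null (cone_mono h3) h1
    rw [h4] at h2
    exact lt_irrefl _ h2

end Pool.Agent.W_8cdb14_h41
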