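import Mathlib

/-!
Coordinates for a finite dimensional real Lie algebra: `A x` is the matrix of `ad x`.
The dual space is `σ → ℝ` too, and `ad x` acts on it by `p ↦ p ᵥ* A x`.
-/

namespace Pool.Agent.W_8cdb14_h41

open Matrix

variable {σ : Type} [Fintype σ] [DecidableEq σ]

/-- `A x` is the matrix of `ad x` of a Lie algebra structure on `σ → ℝ`. -/
structure IsAd (A : (σ → ℝ) →ₗ[ℝ] Matrix σ σ ℝ) : Prop where
  jacobi : ∀ x y, A (A x *ᵥ y) = A x * A y - A y * A x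
  skew : ∀ x y, A x *ᵥ y = -(A y *ᵥ x)

/-- `T` is the matrix of a derivation. -/
def IsDer (A : (σ → ℝ) →ₗ[ℝ] Matrix σ σ ℝ) (T : Matrix σ σ ℝ) : Prop :=
  ∀ x, T * A x - A x * T = A (T *ᵥ x)

/-- The group generated by the exponentials of the `ad x`. -/
noncomputable def G0 (A : (σ → ℝ) →ₗ[ℝ] Matrix σ σ ℝ) : Submonoid (Matrix σ σ ℝ) :=
  Submonoid.closure (Set.range fun x : σ → ℝ => NormedSpace.exp (A x))

/-- The polynomials which vanish on the coadjoint orbit of `v`. -/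
noncomputable def J (A : (σ → ℝ) →ₗ[ℝ] Matrix σ σ ℝ) (v : σ → ℝ) :
    Submodule ℝ (MvPolynomial σ ℝ) where
  carrier := {f | ∀ g ∈ G0 A, MvPolynomial.eval (v ᵥ* g) f = 0}
  add_mem' := fun {a b} ha hb g hg => by simp [ha g hg, hb g hg]
  zero_mem' := fun g _ => by simp
  smul_mem' := fun c f hf g hg => by simp [MvPolynomial.smul_eval, hf g hg]

theorem mem_J {A : (σ → ℝ) →ₗ[ℝ] Matrix σ σ ℝ} {v : σ → ℝ} {f : MvPolynomial σ ℝ} :
    f ∈ J A v ↔ ∀ g ∈ G0 A, MvPolynomial.eval (v ᵥ* g) f = 0 := Iff.rfl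

/-- Directional derivative of a polynomial at a point. -/
noncomputable def dd (f : MvPolynomial σ ℝ) (v q : σ → ℝ) : ℝ :=
  ∑ j, q j * MvPolynomial.eval v (MvPolynomial.pderiv j f)

end Pool.Agent.W_8cdb14_h41
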