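import Pool.Agent.W_8cdb14_h41.Defs

/-!
The matrix coefficients of the group `G0 A` generate a ring without zero divisors.

Proof.  `curve`: induction on the closure (`Submonoid.closure_induction`); for a generator
`exp (A x)` take `s ↦ exp (s • A x)`, which lies in `G0 A` because `s • A x = A (s • x)`; for a
product take the product of the curves.  `domain`: if `a g₁ ≠ 0` and `b g₂ ≠ 0`, with curves
`c₁, c₂` of `g₁, g₂`, consider `c s := c₁ (1 - s) * c₂ s`; it is analytic, `c 0 = g₁`,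
`c 1 = g₂`.  By `Algebra.adjoin_induction` `s ↦ a (c s)` and `s ↦ b (c s)` are analytic on `ℝ`;
their product vanishes identically, so one of them vanishes identically
(`AnalyticOnNhd.eqOn_zero_or_eventually_ne_zero` or similar).
-/

namespace Pool.Agent.W_8cdb14_h41

open Matrix

variable {σ : Type} [Fintype σ] [DecidableEq σ]

/-- The algebra of functions on `G0 A` generated by the matrix entries. -/
noncomputable def BB (A : (σ → ℝ) →ₗ[ℝ] Matrix σ σ ℝ) : Subalgebra ℝ (G0 A → ℝ) :=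
  Algebra.adjoin ℝ (Set.range fun ij : σ × σ => fun g : G0 A => (g : Matrix σ σ ℝ) ij.1 ij.2)

section
attribute [local instance] Matrix.linftyOpNormedRing Matrix.linftyOpNormedAlgebra

theorem exp_entry_analytic (M : Matrix σ σ ℝ) (i j : σ) :
    AnalyticOnNhd ℝ (fun s : ℝ => (NormedSpace.exp (s • M)) i j) Set.univ := by
  intro s _
  have h1 : AnalyticAt ℝ (fun s : ℝ => s • M) s := analyticAt_id.smul analyticAt_const
  have h2 : AnalyticAt ℝ (NormedSpace.exp : Matrix σ σ ℝ → Matrix σ σ ℝ) (s • M) :=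
    NormedSpace.exp_analytic (s • M)
  have h3 : AnalyticAt ℝ (fun s : ℝ => NormedSpace.exp (s • M)) s := h2.fun_comp_of_eq h1 rfl
  let e : Matrix σ σ ℝ →L[ℝ] ℝ := LinearMap.toContinuousLinearMap (Matrix.entryLinearMap ℝ ℝ i j)
  have h4 : AnalyticAt ℝ (fun s : ℝ => e (NormedSpace.exp (s • M))) s :=
    (e.analyticAt _).comp h3
  exact h4

end

theorem curve (A : (σ → ℝ) →ₗ[ℝ] Matrix σ σ ℝ) (g : Matrix σ σ ℝ) (hg : g ∈ G0 A) :
    ∃ c : ℝ → Matrix σ σ ℝ, (∀ s, c s ∈ G0 A) ∧ c 0 = 1 ∧ c 1 = g ∧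
      ∀ i j, AnalyticOnNhd ℝ (fun s => c s i j) Set.univ := by
  refine Submonoid.closure_induction (motive := fun g _ => ∃ c : ℝ → Matrix σ σ ℝ,
      (∀ s, c s ∈ G0 A) ∧ c 0 = 1 ∧ c 1 = g ∧
      ∀ i j, AnalyticOnNhd ℝ (fun s => c s i j) Set.univ) ?_ ?_ ?_ hg
  · rintro _ ⟨x, rfl⟩
    refine ⟨fun s => NormedSpace.exp (s • A x), fun s => ?_, ?_, ?_, fun i j => ?_⟩
    · exact Submonoid.subset_closure ⟨s • x, by simp only [map_smul]⟩
    · simp
    · simp
    · exact exp_entry_analytic (A x) i j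
  · exact ⟨fun _ => 1, fun _ => one_mem _, rfl, rfl, fun i j => analyticOnNhd_const⟩
  · rintro x y - - ⟨c, hc, c0, c1, ca⟩ ⟨d, hd, d0, d1, da⟩
    refine ⟨fun s => c s * d s, fun s => mul_mem (hc s) (hd s), by simp [c0, d0],
      by simp [c1, d1], fun i j => ?_⟩
    have : (fun s => (c s * d s) i j) = fun s => ∑ k, c s i k * d s k j := by
      funext s; exact Matrix.mul_apply
    rw [this]
    exact Finset.analyticOnNhd_fun_sum _ fun k _ => (ca i k).mul (da k j)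

theorem analytic_of_mem (A : (σ → ℝ) →ₗ[ℝ] Matrix σ σ ℝ) (a : G0 A → ℝ) (ha : a ∈ BB A)
    (c : ℝ → Matrix σ σ ℝ) (hc : ∀ s, c s ∈ G0 A)
    (ca : ∀ i j, AnalyticOnNhd ℝ (fun s => c s i j) Set.univ) :
    AnalyticOnNhd ℝ (fun s => a ⟨c s, hc s⟩) Set.univ := by
  refine Algebra.adjoin_induction (p := fun a _ =>
    AnalyticOnNhd ℝ (fun s => a ⟨c s, hc s⟩) Set.univ) ?_ ?_ ?_ ?_ ha
  · rintro _ ⟨ij, rfl⟩
    exact ca ij.1 ij.2
  · intro r
    exact analyticOnNhd_const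
  · intro x y _ _ hx hy
    exact hx.add hy
  · intro x y _ _ hx hy
    exact hx.mul hy

theorem domain (A : (σ → ℝ) →ₗ[ℝ] Matrix σ σ ℝ) (a b : G0 A → ℝ) (ha : a ∈ BB A)
    (hb : b ∈ BB A) (h : a * b = 0) : a = 0 ∨ b = 0 := by
  by_contra hcon
  push Not at hcon
  obtain ⟨ha0, hb0⟩ := hcon
  obtain ⟨g₁, hg₁⟩ : ∃ g, a g ≠ 0 := by
    by_contra hh; push Not at hh; exact ha0 (funext hh)
  obtain ⟨g₂, hg₂⟩ : ∃ g, b g ≠ 0 := by
    by_contra hh; push Not at hh; exact hb0 (funext hh)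
  obtain ⟨c₁, hc₁, c10, c11, ca₁⟩ := curve A g₁ g₁.2
  obtain ⟨c₂, hc₂, c20, c21, ca₂⟩ := curve A g₂ g₂.2
  let c : ℝ → Matrix σ σ ℝ := fun s => c₁ (1 - s) * c₂ s
  have hc : ∀ s, c s ∈ G0 A := fun s => mul_mem (hc₁ _) (hc₂ _)
  have ca : ∀ i j, AnalyticOnNhd ℝ (fun s => c s i j) Set.univ := by
    intro i j
    have : (fun s => c s i j) = fun s => ∑ k, c₁ (1 - s) i k * c₂ s k j := by
      funext s; exact Matrix.mul_apply
    rw [this]
    refine Finset.analyticOnNhd_fun_sum _ fun k _ => AnalyticOnNhd.mul ?_ (ca₂ k j)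
    intro s _
    have h1 : AnalyticAt ℝ (fun s : ℝ => 1 - s) s := analyticAt_const.sub analyticAt_id
    exact (ca₁ i k (1 - s) trivial).comp h1
  have hA := analytic_of_mem A a ha c hc ca
  have hB := analytic_of_mem A b hb c hc ca
  have hAB : ∀ s ∈ (Set.univ : Set ℝ), a ⟨c s, hc s⟩ * b ⟨c s, hc s⟩ = 0 := fun s _ =>
    congrFun h ⟨c s, hc s⟩
  rcases hA.eq_zero_or_eq_zero_of_mul_eq_zero hB hAB isPreconnected_univ with h0 | h0
  · apply hg₁
    have h1 : c 0 = g₁ := by simp [c, c11, c20]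
    have h2 := h0 0 trivial
    have h3 : (⟨c 0, hc 0⟩ : G0 A) = g₁ := Subtype.ext h1
    rw [← h3]; exact h2
  · apply hg₂
    have h1 : c 1 = g₂ := by simp [c, c10, c21]
    have h2 := h0 1 trivial
    have h3 : (⟨c 1, hc 1⟩ : G0 A) = g₂ := Subtype.ext h1
    rw [← h3]; exact h2

end Pool.Agent.W_8cdb14_h41
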