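import Pool.Agent.W_8cdb14_h41.Defs

/-!
Facts on the elements of `G0 A`.

Proofs.  Put `E s := exp (s • A x) = exp (A (s • x))`; `E' = A x * E = E * A x`, `E s * E (-s) = 1`.
`G0_aut`: for `g = exp (A x)`: the derivative of `s ↦ E (-s) * A (E s *ᵥ y) * E s` is
`E (-s) * (A (A x *ᵥ z) - (A x * A z - A z * A x)) * E s = 0` with `z = E s *ᵥ y` (jacobi), so the
function is constant `= A y`; products: induction.
`G0_det`: `det (exp X) = 1` if `trace X = 0`: `s ↦ det (exp (s • X))` has derivative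
`det (exp (s • X)) * trace X` (multiplicativity and `Matrix.det_one_add_smul`, or
`Matrix.derivative_det_one_add_X_smul`).
`G0_der`: the derivative of `s ↦ E s * D * E (-s)` is `E s * (A x * D - D * A x) * E (-s)
= - E s * A (D *ᵥ x) * E (-s) = - A (E s *ᵥ D *ᵥ x)` which lies in the range of `A`, a finite
dimensional (closed) subspace; so `E s * D * E (-s) - D` lies in the range of `A` (compose with a
linear functional which vanishes on the range of `A`).  Products: if `g D = (D + A z) g` and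
`h D = (D + A w) h` then `g h D = g (D + A w) h = (D + A z + A (g *ᵥ w)) g h`.
`dd_J`: `0 = f (v ᵥ* exp (s • A x))` for all `s`, differentiate at `s = 0`.
`J_comp`: the polynomial `f (· ᵥ* g)` is again in `J A v`.
-/

namespace Pool.Agent.W_8cdb14_h41

open Matrix

variable {σ : Type} [Fintype σ] [DecidableEq σ]

section Norm

open scoped Matrix.Norms.Operator

/-- The one parameter group. -/
noncomputable def E (X : Matrix σ σ ℝ) (s : ℝ) : Matrix σ σ ℝ := NormedSpace.exp (s • X)

theorem E_deriv (X : Matrix σ σ ℝ) (s : ℝ) : HasDerivAt (E X) (E X s * X) s :=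
  hasDerivAt_exp_smul_const X s

theorem E_deriv' (X : Matrix σ σ ℝ) (s : ℝ) : HasDerivAt (E X) (X * E X s) s :=
  hasDerivAt_exp_smul_const' X s

theorem E_comm (X : Matrix σ σ ℝ) (s : ℝ) : E X s * X = X * E X s :=
  (E_deriv X s).unique (E_deriv' X s)

theorem E_zero (X : Matrix σ σ ℝ) : E X 0 = 1 := by simp [E]

theorem E_one (X : Matrix σ σ ℝ) : E X 1 = NormedSpace.exp X := by simp [E]

theorem E_add (X : Matrix σ σ ℝ) (s t : ℝ) : E X (s + t) = E X s * E X t := by
  unfold E
  rw [add_smul]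
  exact Matrix.exp_add_of_commute _ _ (((Commute.refl X).smul_left s).smul_right t)

theorem E_mul_neg (X : Matrix σ σ ℝ) (s : ℝ) : E X s * E X (-s) = 1 := by
  rw [← E_add]; simp [E_zero]

theorem E_neg_mul (X : Matrix σ σ ℝ) (s : ℝ) : E X (-s) * E X s = 1 := by
  rw [← E_add]; simp [E_zero]

theorem E_neg_deriv (X : Matrix σ σ ℝ) (s : ℝ) :
    HasDerivAt (fun t => E X (-t)) (-(E X (-s) * X)) s := by
  have h := (E_deriv X (-s)).scomp s (hasDerivAt_neg s)
  exact h.congr_deriv (by simp)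

/-- Matrix times vector along a curve. -/
theorem mulVec_deriv {M : ℝ → Matrix σ σ ℝ} {M' : Matrix σ σ ℝ} {s : ℝ}
    (h : HasDerivAt M M' s) (y : σ → ℝ) :
    HasDerivAt (fun t => M t *ᵥ y) (M' *ᵥ y) s := by
  let L : Matrix σ σ ℝ →L[ℝ] (σ → ℝ) :=
    LinearMap.toContinuousLinearMap ((Matrix.mulVecBilin ℝ ℝ).flip y)
  exact L.hasFDerivAt.comp_hasDerivAt s h

theorem vecMul_deriv {M : ℝ → Matrix σ σ ℝ} {M' : Matrix σ σ ℝ} {s : ℝ}
    (h : HasDerivAt M M' s) (y : σ → ℝ) :
    HasDerivAt (fun t => y ᵥ* M t) (y ᵥ* M') s := by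
  let L : Matrix σ σ ℝ →L[ℝ] (σ → ℝ) :=
    LinearMap.toContinuousLinearMap ((Matrix.vecMulBilin ℝ ℝ) y)
  exact L.hasFDerivAt.comp_hasDerivAt s h

theorem lin_deriv (A : (σ → ℝ) →ₗ[ℝ] Matrix σ σ ℝ) {y : ℝ → σ → ℝ} {y' : σ → ℝ} {s : ℝ}
    (h : HasDerivAt y y' s) : HasDerivAt (fun t => A (y t)) (A y') s := by
  let L : (σ → ℝ) →L[ℝ] Matrix σ σ ℝ := LinearMap.toContinuousLinearMap A
  exact L.hasFDerivAt.comp_hasDerivAt s h

theorem exp_aut {A : (σ → ℝ) →ₗ[ℝ] Matrix σ σ ℝ} (hA : IsAd A) (x y : σ → ℝ) :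
    NormedSpace.exp (A x) * A y = A (NormedSpace.exp (A x) *ᵥ y) * NormedSpace.exp (A x) := by
  set X := A x with hX
  have hF : ∀ s, HasDerivAt (fun t => E X (-t) * A (E X t *ᵥ y) * E X t) 0 s := by
    intro s
    have h1 := ((E_neg_deriv X s).mul (lin_deriv A (mulVec_deriv (E_deriv' X s) y))).mul
      (E_deriv' X s)
    refine h1.congr_deriv ?_
    have e1 : A ((X * E X s) *ᵥ y) = X * A (E X s *ᵥ y) - A (E X s *ᵥ y) * X := by
      rw [← Matrix.mulVec_mulVec, hX, hA.jacobi]
    rw [e1]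
    simp only [Pi.mul_apply]
    noncomm_ring
  have hc := is_const_of_deriv_eq_zero (𝕜 := ℝ) (fun s => (hF s).differentiableAt)
    (fun s => (hF s).deriv) 0 1
  simp only [neg_zero, E_zero, Matrix.one_mulVec, one_mul, mul_one] at hc
  rw [← E_one X, hc]
  calc E X 1 * (E X (-1) * A (E X 1 *ᵥ y) * E X 1)
      = (E X 1 * E X (-1)) * A (E X 1 *ᵥ y) * E X 1 := by noncomm_ring
    _ = A (E X 1 *ᵥ y) * E X 1 := by rw [E_mul_neg, one_mul]

theorem det_diff : Differentiable ℝ (fun M : Matrix σ σ ℝ => M.det) := by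
  have he : ∀ i j : σ, Differentiable ℝ (fun M : Matrix σ σ ℝ => M i j) := by
    intro i j
    let L : Matrix σ σ ℝ →L[ℝ] ℝ :=
      LinearMap.toContinuousLinearMap (Matrix.entryLinearMap ℝ ℝ i j)
    exact L.differentiable
  simp only [Matrix.det_apply']
  refine Differentiable.fun_sum fun p _ => ?_
  refine (differentiable_const _).mul ?_
  intro M
  exact (HasFDerivAt.finsetProd (u := Finset.univ) (g := fun i (M : Matrix σ σ ℝ) => M (p i) i)
    fun i _ => (he (p i) i M).hasFDerivAt).differentiableAt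

theorem det_exp_one {X : Matrix σ σ ℝ} (h : X.trace = 0) : (NormedSpace.exp X).det = 1 := by
  have hL := (det_diff (σ := σ) 1).hasFDerivAt
  set L := fderiv ℝ (fun M : Matrix σ σ ℝ => M.det) 1 with hLdef
  have h0 : HasDerivAt (fun s => (E X s).det) (L X) 0 := by
    have h1 : HasDerivAt (E X) X 0 := by simpa [E_zero] using E_deriv X 0
    have h2 : HasFDerivAt (fun M : Matrix σ σ ℝ => M.det) L (E X 0) := by
      rw [E_zero]; exact hL
    exact h2.comp_hasDerivAt (0 : ℝ) h1
  have h00 : HasDerivAt (fun s : ℝ => (1 + s • X).det) (L X) 0 := by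
    have h1 : HasDerivAt (fun s : ℝ => (1 : Matrix σ σ ℝ) + s • X) X 0 := by
      have := ((hasDerivAt_id (0 : ℝ)).smul_const X).const_add (1 : Matrix σ σ ℝ)
      exact this.congr_deriv (by simp)
    have h2 : HasFDerivAt (fun M : Matrix σ σ ℝ => M.det) L
        ((1 : Matrix σ σ ℝ) + (0 : ℝ) • X) := by
      simpa using hL
    exact h2.comp_hasDerivAt (0 : ℝ) h1
  have hLX : L X = 0 := by
    have h3 : HasDerivAt (fun s : ℝ => (1 + s • X).det) 0 0 := by
      have e : (fun s : ℝ => (1 + s • X).det) = fun s : ℝ => 1 +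
          (Matrix.det (1 + (Polynomial.X : Polynomial ℝ) • X.map Polynomial.C)).divX.divX.eval s
            * s ^ 2 := by
        funext s
        rw [Matrix.det_one_add_smul, h]
        ring
      rw [e]
      have h4 := ((Matrix.det (1 + (Polynomial.X : Polynomial ℝ) •
        X.map Polynomial.C)).divX.divX.hasDerivAt 0).mul (hasDerivAt_pow 2 (0 : ℝ))
      have h5 := h4.const_add 1
      exact h5.congr_deriv (by simp)
    exact h00.unique h3
  have hs : ∀ s, HasDerivAt (fun s => (E X s).det) 0 s := by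
    intro s
    have e : (fun t => (E X t).det) = fun t => (E X s).det * (E X (t - s)).det := by
      funext t
      rw [← Matrix.det_mul, ← E_add]
      congr 2; ring
    rw [e]
    have h1 : HasDerivAt (fun t : ℝ => t - s) 1 s := (hasDerivAt_id s).sub_const s
    have h2 : HasDerivAt (fun s => (E X s).det) (L X) (s - s) := by rw [sub_self]; exact h0
    have h3 := (HasDerivAt.comp (h := fun t : ℝ => t - s) s h2 h1).const_mul (E X s).det
    exact h3.congr_deriv (by simp [hLX])
  have hc := is_const_of_deriv_eq_zero (𝕜 := ℝ) (fun s => (hs s).differentiableAt)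
    (fun s => (hs s).deriv) 1 0
  simp only [E_one, E_zero, Matrix.det_one] at hc
  exact hc

theorem exp_der {A : (σ → ℝ) →ₗ[ℝ] Matrix σ σ ℝ} (hA : IsAd A) {D : Matrix σ σ ℝ}
    (hD : IsDer A D) (x : σ → ℝ) :
    ∃ z, NormedSpace.exp (A x) * D - D * NormedSpace.exp (A x)
      = A z * NormedSpace.exp (A x) := by
  set X := A x with hX
  have haut : ∀ s, ∀ y, E X s * A y = A (E X s *ᵥ y) * E X s := by
    intro s y
    have := exp_aut hA (s • x) y
    rw [map_smul] at this
    exact this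
  have hF : ∀ s, HasDerivAt (fun t => E X t * D * E X (-t)) (-A (E X s *ᵥ (D *ᵥ x))) s := by
    intro s
    have h1 := ((E_deriv X s).mul_const D).mul (E_neg_deriv X s)
    refine h1.congr_deriv ?_
    have e1 : E X s * X * D * E X (-s) + E X s * D * (-(E X (-s) * X))
        = E X s * (X * D - D * X) * E X (-s) := by
      rw [E_comm X (-s)]
      noncomm_ring
    rw [e1]
    have e2 : X * D - D * X = - A (D *ᵥ x) := by
      rw [← hD x, ← hX]; noncomm_ring
    rw [e2, mul_neg, haut s, neg_mul, mul_assoc, E_mul_neg, mul_one]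
  have hcont : Continuous fun s => E X s *ᵥ (D *ᵥ x) := by
    refine continuous_iff_continuousAt.2 fun s => ?_
    exact (mulVec_deriv (E_deriv X s) _).continuousAt
  let L : (σ → ℝ) →L[ℝ] Matrix σ σ ℝ := LinearMap.toContinuousLinearMap A
  have hL : ∀ y, L y = A y := fun y => rfl
  have hint := intervalIntegral.integral_eq_sub_of_hasDerivAt (a := 0) (b := 1)
    (fun s _ => hF s) ((L.continuous.comp hcont).neg.intervalIntegrable 0 1)
  have hint2 : ∫ s in (0:ℝ)..1, -A (E X s *ᵥ (D *ᵥ x))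
      = A (-∫ s in (0:ℝ)..1, E X s *ᵥ (D *ᵥ x)) := by
    rw [intervalIntegral.integral_neg, map_neg]
    congr 1
    exact L.intervalIntegral_comp_comm (hcont.intervalIntegrable 0 1)
  rw [hint2] at hint
  simp only [neg_zero, E_zero, one_mul, mul_one] at hint
  refine ⟨-∫ s in (0:ℝ)..1, E X s *ᵥ (D *ᵥ x), ?_⟩
  rw [hint, ← E_one X, sub_mul, mul_assoc (E X 1 * D), E_neg_mul, mul_one]

end Norm

theorem exp_mem (A : (σ → ℝ) →ₗ[ℝ] Matrix σ σ ℝ) (x : σ → ℝ) :
    NormedSpace.exp (A x) ∈ G0 A := Submonoid.subset_closure ⟨x, rfl⟩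

theorem G0_aut {A : (σ → ℝ) →ₗ[ℝ] Matrix σ σ ℝ} (hA : IsAd A) {g : Matrix σ σ ℝ}
    (hg : g ∈ G0 A) (x : σ → ℝ) : g * A x = A (g *ᵥ x) * g := by
  induction hg using Submonoid.closure_induction generalizing x with
  | mem g hg => obtain ⟨y, rfl⟩ := hg; exact exp_aut hA y x
  | one => simp
  | mul g h _ _ ihg ihh =>
    rw [mul_assoc, ihh, ← mul_assoc, ihg, Matrix.mulVec_mulVec, mul_assoc]

theorem G0_det {A : (σ → ℝ) →ₗ[ℝ] Matrix σ σ ℝ} (hU : ∀ x, (A x).trace = 0)
    {g : Matrix σ σ ℝ} (hg : g ∈ G0 A) : g.det = 1 := by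
  induction hg using Submonoid.closure_induction with
  | mem g hg => obtain ⟨y, rfl⟩ := hg; exact det_exp_one (hU y)
  | one => simp
  | mul g h _ _ ihg ihh => rw [Matrix.det_mul, ihg, ihh, one_mul]

theorem G0_der {A : (σ → ℝ) →ₗ[ℝ] Matrix σ σ ℝ} (hA : IsAd A) {D : Matrix σ σ ℝ}
    (hD : IsDer A D) {g : Matrix σ σ ℝ} (hg : g ∈ G0 A) : ∃ z, g * D - D * g = A z * g := by
  induction hg using Submonoid.closure_induction with
  | mem g hg => obtain ⟨y, rfl⟩ := hg; exact exp_der hA hD y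
  | one => exact ⟨0, by simp⟩
  | mul g h hg' hh' ihg ihh =>
    obtain ⟨z, hz⟩ := ihg
    obtain ⟨w, hw⟩ := ihh
    refine ⟨z + g *ᵥ w, ?_⟩
    have e1 : g * D = D * g + A z * g := by rw [← hz]; abel
    have e2 : h * D = D * h + A w * h := by rw [← hw]; abel
    have e3 := G0_aut hA hg' w
    calc g * h * D - D * (g * h) = g * (h * D) - D * (g * h) := by noncomm_ring
      _ = g * (D * h + A w * h) - D * (g * h) := by rw [e2]
      _ = (g * D) * h + (g * A w) * h - D * (g * h) := by noncomm_ring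
      _ = (D * g + A z * g) * h + (A (g *ᵥ w) * g) * h - D * (g * h) := by rw [e1, e3]
      _ = (A z + A (g *ᵥ w)) * (g * h) := by noncomm_ring
      _ = A (z + g *ᵥ w) * (g * h) := by rw [map_add]

/-- Derivative of a polynomial along a curve. -/
theorem eval_deriv (f : MvPolynomial σ ℝ) {p : ℝ → σ → ℝ} {p' : σ → ℝ} {t : ℝ}
    (hp : HasDerivAt p p' t) :
    HasDerivAt (fun s => MvPolynomial.eval (p s) f) (dd f (p t) p') t := by
  have hc : ∀ j, HasDerivAt (fun s => p s j) (p' j) t := fun j => (hasDerivAt_pi.1 hp) j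
  induction f using MvPolynomial.induction_on with
  | C a => simpa [dd] using hasDerivAt_const t a
  | add f g hf hg =>
    have h1 := hf.add hg
    have e : (fun s => MvPolynomial.eval (p s) (f + g))
        = (fun s => MvPolynomial.eval (p s) f) + fun s => MvPolynomial.eval (p s) g := by
      funext s; simp
    rw [e]
    refine h1.congr_deriv ?_
    simp [dd, mul_add, Finset.sum_add_distrib]
  | mul_X f i hf =>
    have h1 := hf.mul (hc i)
    have e : (fun s => MvPolynomial.eval (p s) (f * MvPolynomial.X i))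
        = (fun s => MvPolynomial.eval (p s) f) * fun s => p s i := by
      funext s; simp
    rw [e]
    refine h1.congr_deriv ?_
    simp only [dd, Derivation.leibniz, MvPolynomial.pderiv_X, map_add, smul_eq_mul, map_mul,
      MvPolynomial.eval_X, mul_add, Finset.sum_add_distrib]
    rw [Finset.sum_mul, add_comm]
    congr 1
    · rw [Finset.sum_eq_single i]
      · simp; ring
      · intro j _ hj
        simp [Ne.symm hj]
      · simp
    · refine Finset.sum_congr rfl fun j _ => ?_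
      ring

/-- Every element of `J A v` has zero derivative at `v` in the direction of the orbit. -/
theorem dd_J {A : (σ → ℝ) →ₗ[ℝ] Matrix σ σ ℝ} {v : σ → ℝ} {f : MvPolynomial σ ℝ}
    (hf : f ∈ J A v) (x : σ → ℝ) : dd f v (v ᵥ* A x) = 0 := by
  have h1 : HasDerivAt (fun s => v ᵥ* E (A x) s) (v ᵥ* A x) 0 := by
    have := vecMul_deriv (E_deriv (A x) 0) v
    simpa [E_zero] using this
  have h2 := eval_deriv f h1
  have h3 : (fun s => MvPolynomial.eval (v ᵥ* E (A x) s) f) = fun _ => (0 : ℝ) := by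
    funext s
    refine hf _ ?_
    have := exp_mem A (s • x)
    rw [map_smul] at this
    exact this
  rw [h3] at h2
  have h4 := h2.unique (hasDerivAt_const (0 : ℝ) (0 : ℝ))
  simpa [E_zero] using h4

/-- Linear substitution. -/
noncomputable def sub (g : Matrix σ σ ℝ) : MvPolynomial σ ℝ →ₐ[ℝ] MvPolynomial σ ℝ :=
  MvPolynomial.aeval fun j => ∑ i, MvPolynomial.C (g i j) * MvPolynomial.X i

theorem eval_sub (g : Matrix σ σ ℝ) (f : MvPolynomial σ ℝ) (p : σ → ℝ) :
    MvPolynomial.eval p (sub g f) = MvPolynomial.eval (p ᵥ* g) f := by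
  induction f using MvPolynomial.induction_on with
  | C a => simp [sub]
  | add f h hf hh => simp [hf, hh]
  | mul_X f i hf =>
    rw [map_mul, map_mul, hf, map_mul]
    congr 1
    simp only [sub, MvPolynomial.aeval_X, map_sum, map_mul, MvPolynomial.eval_C,
      MvPolynomial.eval_X, Matrix.vecMul, dotProduct]
    exact Finset.sum_congr rfl fun j _ => by ring

theorem dd_sub (g : Matrix σ σ ℝ) (f : MvPolynomial σ ℝ) (p q : σ → ℝ) :
    dd (sub g f) p q = dd f (p ᵥ* g) (q ᵥ* g) := by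
  have h1 : HasDerivAt (fun s : ℝ => p + s • q) q 0 := by
    have := ((hasDerivAt_id (0 : ℝ)).smul_const q).const_add p
    simpa using this
  have h2 : HasDerivAt (fun s : ℝ => p ᵥ* g + s • (q ᵥ* g)) (q ᵥ* g) 0 := by
    have := ((hasDerivAt_id (0 : ℝ)).smul_const (q ᵥ* g)).const_add (p ᵥ* g)
    simpa using this
  have h3 := eval_deriv (sub g f) h1
  have h4 := eval_deriv f h2
  have e : (fun s : ℝ => MvPolynomial.eval (p + s • q) (sub g f))
      = fun s : ℝ => MvPolynomial.eval (p ᵥ* g + s • (q ᵥ* g)) f := by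
    funext s
    rw [eval_sub, Matrix.add_vecMul, Matrix.smul_vecMul]
  rw [e] at h3
  have h5 := h3.unique h4
  simpa using h5

theorem J_comp {A : (σ → ℝ) →ₗ[ℝ] Matrix σ σ ℝ} {v : σ → ℝ} {f : MvPolynomial σ ℝ}
    (hf : f ∈ J A v) {g : Matrix σ σ ℝ} (hg : g ∈ G0 A) : sub g f ∈ J A v := by
  intro h hh
  rw [eval_sub, Matrix.vecMul_vecMul]
  exact hf _ (mul_mem hh hg)

end Pool.Agent.W_8cdb14_h41
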