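import Mathlib

/-!
Extension of derivations in characteristic zero.

Proof.  Let `ψ = aeval a : MvPolynomial σ ℝ →ₐ[ℝ] K`, `A₀ = ψ.range` (a subalgebra of the field
`K`, so a domain) and `χ : MvPolynomial σ ℝ →ₐ[ℝ] TrivSqZeroExt K K`,
`χ = aeval (fun j => inl (a j) + inr (d j))`; then `χ f = inl (ψ f) + inr (∑ j, d j * ψ (∂ⱼ f))`
(`MvPolynomial.induction_on`), so `ψ f = 0` implies `χ f = 0` and `χ` factors through
`χ' : A₀ →+* TrivSqZeroExt K K` with `fst ∘ χ' = ` inclusion.  Make `TrivSqZeroExt K K` an
`A₀`-algebra by `χ'`.  `K` is formally smooth over `A₀`: `FractionRing A₀` is formally etale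
over `A₀` (`Algebra.FormallyEtale.of_isLocalization`) and `K` is formally smooth over
`FractionRing A₀` (take a transcendence basis, `CharZero` makes the algebraic part separable,
`Algebra.FormallySmooth.of_algebraicIndependent_of_isSeparable`), `Algebra.FormallySmooth.comp`.
`fst : TrivSqZeroExt K K →ₐ[A₀] K` is surjective with square zero kernel, so the identity of
`K` lifts (`Algebra.FormallySmooth.liftOfSurjective`) to `L : K →ₐ[A₀] TrivSqZeroExt K K` with
`fst ∘ L = id`; `D x := snd (L x)` is the derivation.
-/

namespace Pool.Agent.W_8cdb14_h41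

open MvPolynomial TrivSqZeroExt

/-- A field of characteristic zero is formally smooth over every subfield. -/
theorem formallySmooth_field (F K : Type) [Field F] [Field K] [Algebra F K] [CharZero F] :
    Algebra.FormallySmooth F K := by
  obtain ⟨s, hs⟩ := exists_isTranscendenceBasis F K
  have h1 : Algebra.IsAlgebraic (IntermediateField.adjoin F (Set.range ((↑) : s → K))) K :=
    hs.isAlgebraic_field
  exact Algebra.FormallySmooth.of_algebraicIndependent_of_isSeparable hs.1

theorem formallySmooth_domain (A K : Type) [CommRing A] [IsDomain A] [Field K] [Algebra A K]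
    [FaithfulSMul A K] [CharZero K] : Algebra.FormallySmooth A K := by
  let _ := FractionRing.liftAlgebra A K
  have : IsScalarTower A (FractionRing A) K := FractionRing.isScalarTower_liftAlgebra A K
  have : CharZero (FractionRing A) := (algebraMap (FractionRing A) K).charZero
  have : Algebra.FormallySmooth A (FractionRing A) :=
    .of_isLocalization (nonZeroDivisors A)
  have := formallySmooth_field (FractionRing A) K
  exact .comp A (FractionRing A) K

theorem exists_section (A K B : Type) [CommRing A] [IsDomain A] [Field K] [Algebra A K]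
    [FaithfulSMul A K] [CharZero K] [CommRing B] [Algebra A B] (q : B →ₐ[A] K)
    (hq : Function.Surjective q) (hk : IsNilpotent (RingHom.ker (q : B →+* K))) :
    ∃ L : K →ₐ[A] B, ∀ x, q (L x) = x := by
  have := formallySmooth_domain A K
  exact ⟨Algebra.FormallySmooth.liftOfSurjective (AlgHom.id A K) q hq hk, fun x =>
    Algebra.FormallySmooth.liftOfSurjective_apply (AlgHom.id A K) q hq hk x⟩

theorem exists_section' (A K B : Type) [CommRing A] [IsDomain A] [Field K] [Algebra A K]
    [FaithfulSMul A K] [CharZero K] [CommRing B] (c : A →+* B) (q : B →+* K)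
    (hc : ∀ x, q (c x) = algebraMap A K x)
    (hq : Function.Surjective q) (hk : IsNilpotent (RingHom.ker q)) :
    ∃ L : K →+* B, (∀ x, q (L x) = x) ∧ ∀ x, L (algebraMap A K x) = c x := by
  let _ := c.toAlgebra
  obtain ⟨L, hL⟩ := exists_section A K B { q with commutes' := hc } hq hk
  exact ⟨L, hL, fun x => L.commutes x⟩

theorem chi_apply {K : Type} [Field K] [Algebra ℝ K] {σ : Type} [Fintype σ]
    (a d : σ → K) (f : MvPolynomial σ ℝ) :
    aeval (fun j => (inl (a j) + inr (d j) : TrivSqZeroExt K K)) f =
      inl (aeval a f) + inr (∑ j, d j * aeval a (pderiv j f)) := by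
  classical
  induction f using MvPolynomial.induction_on with
  | C r =>
    ext
    · simp [TrivSqZeroExt.algebraMap_eq_inl']
    · simp [TrivSqZeroExt.algebraMap_eq_inl']
  | add p q hp hq =>
    rw [map_add, hp, hq]
    ext
    · simp
    · simp [mul_add, Finset.sum_add_distrib]
  | mul_X p i hp =>
    rw [map_mul, hp, aeval_X]
    ext
    · simp
    · simp only [snd_mul, snd_add, snd_inl, snd_inr, fst_add, fst_inl, fst_inr, zero_add,
        add_zero, Derivation.leibniz, pderiv_X, smul_eq_mul, map_add, map_mul, aeval_X,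
        MulOpposite.smul_eq_mul_unop, MulOpposite.unop_op]
      rw [Finset.sum_mul]
      simp only [mul_add, Finset.sum_add_distrib]
      have h1 : ∑ j, d j * ((aeval a) p * (aeval a) (Pi.single (M := fun _ => MvPolynomial σ ℝ) j 1 i)) =
          (aeval a) p * d i := by
        rw [Finset.sum_eq_single i]
        · simp [mul_comm]
        · intro j _ hj
          simp [Ne.symm hj]
        · simp
      rw [h1]
      congr 1
      refine Finset.sum_congr rfl fun j _ => ?_
      ring

theorem exists_lift {K : Type} [Field K] [Algebra ℝ K] {σ : Type} [Fintype σ]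
    (a d : σ → K)
    (h : ∀ f : MvPolynomial σ ℝ, MvPolynomial.aeval a f = 0 →
      ∑ j, d j * MvPolynomial.aeval a (MvPolynomial.pderiv j f) = 0) :
    ∃ L : K →+* TrivSqZeroExt K K, (∀ x, fst (L x) = x) ∧
      ∀ f : MvPolynomial σ ℝ, L (aeval a f) =
        aeval (fun j => (inl (a j) + inr (d j) : TrivSqZeroExt K K)) f := by
  have : CharZero K := charZero_of_injective_algebraMap (algebraMap ℝ K).injective
  have hψ : Function.Surjective (aeval (R := ℝ) a).rangeRestrict :=
    (aeval (R := ℝ) a).rangeRestrict_surjective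
  have hker : RingHom.ker ((aeval (R := ℝ) a).rangeRestrict :
      MvPolynomial σ ℝ →+* (aeval (R := ℝ) a).range)
      ≤ RingHom.ker ((aeval (fun j => (inl (a j) + inr (d j) : TrivSqZeroExt K K)) :
        MvPolynomial σ ℝ →ₐ[ℝ] TrivSqZeroExt K K) :
        MvPolynomial σ ℝ →+* TrivSqZeroExt K K) := by
    intro f hf
    have h1 : aeval a f = 0 := congrArg Subtype.val (RingHom.mem_ker.1 hf)
    have h2 : aeval (fun j => (inl (a j) + inr (d j) : TrivSqZeroExt K K)) f = 0 := by
      rw [chi_apply, h f h1, h1]; simp
    exact RingHom.mem_ker.2 h2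
  obtain ⟨c, hc⟩ : ∃ c : (aeval (R := ℝ) a).range →+* TrivSqZeroExt K K,
      ∀ f, c ((aeval a).rangeRestrict f) =
        aeval (fun j => (inl (a j) + inr (d j) : TrivSqZeroExt K K)) f :=
    ⟨((aeval (R := ℝ) a).rangeRestrict :
      MvPolynomial σ ℝ →+* (aeval (R := ℝ) a).range).liftOfSurjective
      hψ ⟨_, hker⟩, fun f => RingHom.liftOfSurjective_comp_apply _ hψ ⟨_, hker⟩ f⟩
  obtain ⟨L, hL, hL2⟩ := exists_section' (aeval (R := ℝ) a).range K (TrivSqZeroExt K K) c
    (fstHom ℝ K K : TrivSqZeroExt K K →+* K) (by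
      intro x
      obtain ⟨f, rfl⟩ := hψ x
      rw [hc, chi_apply]
      simp) (by
      intro x
      exact ⟨inl x, by simp⟩) (by
      refine ⟨2, ?_⟩
      rw [pow_two]
      refine le_antisymm ?_ bot_le
      rw [Ideal.mul_le]
      intro x hx y hy
      have hx' : fst x = 0 := hx
      have hy' : fst y = 0 := hy
      show x * y = 0
      ext <;> simp [hx', hy'])
  exact ⟨L, fun x => hL x, fun f => (hL2 ((aeval a).rangeRestrict f)).trans (hc f)⟩

theorem exists_derivation {K : Type} [Field K] [Algebra ℝ K] {σ : Type} [Fintype σ]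
    (a d : σ → K)
    (h : ∀ f : MvPolynomial σ ℝ, MvPolynomial.aeval a f = 0 →
      ∑ j, d j * MvPolynomial.aeval a (MvPolynomial.pderiv j f) = 0) :
    ∃ D : Derivation ℝ K K, ∀ j, D (a j) = d j := by
  obtain ⟨L, hL, hL2⟩ := exists_lift a d h
  have hr : ∀ r : ℝ, L (algebraMap ℝ K r) = inl (algebraMap ℝ K r) := by
    intro r
    have h1 := hL2 (C r)
    rw [chi_apply] at h1
    simpa using h1
  refine ⟨Derivation.mk' { toFun := fun x => snd (L x), map_add' := ?_, map_smul' := ?_ } ?_, ?_⟩
  · intro x y
    simp
  · intro r x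
    rw [Algebra.smul_def, map_mul, hr]
    simp [Algebra.smul_def]
  · intro x y
    show snd (L (x * y)) = x • snd (L y) + y • snd (L x)
    rw [map_mul, snd_mul, hL, hL]
    simp [mul_comm]
  · intro j
    show snd (L (a j)) = d j
    have h1 := hL2 (X j)
    rw [aeval_X, aeval_X] at h1
    rw [h1]
    simp

end Pool.Agent.W_8cdb14_h41
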