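import Pool.Agent.W_8cdb14_h41.Defs

/-!
Scalar extension of `A` and matrices with entries in an algebra with a derivation.
-/

set_option linter.unusedSectionVars false
set_option linter.unusedSimpArgs false

namespace Pool.Agent.W_8cdb14_h41

open Matrix

variable {σ : Type} [Fintype σ] [DecidableEq σ]

/-- Scalar extension of `A`. -/
noncomputable def AR (A : (σ → ℝ) →ₗ[ℝ] Matrix σ σ ℝ) {R : Type} [CommRing R] [Algebra ℝ R]
    (y : σ → R) : Matrix σ σ R :=
  ∑ i, y i • (A (Pi.single i 1)).map (algebraMap ℝ R)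

section
variable {A : (σ → ℝ) →ₗ[ℝ] Matrix σ σ ℝ} {R : Type} [CommRing R] [Algebra ℝ R]

theorem AR_apply (y : σ → R) (k l : σ) :
    AR A y k l = ∑ i, y i * algebraMap ℝ R (A (Pi.single i 1) k l) := by
  simp [AR, Matrix.sum_apply]

theorem A_apply (x : σ → ℝ) (k l : σ) : A x k l = ∑ i, x i * A (Pi.single i 1) k l := by
  have h : x = ∑ i, x i • (Pi.single i (1 : ℝ) : σ → ℝ) := by
    ext j; simp [Finset.sum_apply, Pi.single_apply]
  conv_lhs => rw [h]
  simp [map_sum, Matrix.sum_apply]

theorem AR_real (x : σ → ℝ) :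
    AR A (fun i => algebraMap ℝ R (x i)) = (A x).map (algebraMap ℝ R) := by
  ext k l
  rw [AR_apply, Matrix.map_apply, A_apply, map_sum]
  exact Finset.sum_congr rfl fun i _ => (map_mul _ _ _).symm

theorem AR_self (x : σ → ℝ) : AR A x = A x := by
  have := AR_real (A := A) (R := ℝ) x
  simpa using this

theorem AR_map {S : Type} [CommRing S] [Algebra ℝ S] (f : R →ₐ[ℝ] S) (y : σ → R) :
    (AR A y).map f = AR A (fun i => f (y i)) := by
  ext k l
  rw [Matrix.map_apply, AR_apply, AR_apply, map_sum]
  exact Finset.sum_congr rfl fun i _ => by rw [map_mul, AlgHom.commutes]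

theorem AR_add (y z : σ → R) : AR A (y + z) = AR A y + AR A z := by
  ext k l
  rw [AR_apply, Matrix.add_apply, AR_apply, AR_apply, ← Finset.sum_add_distrib]
  exact Finset.sum_congr rfl fun i _ => by rw [Pi.add_apply, add_mul]

theorem AR_sub (y z : σ → R) : AR A (y - z) = AR A y - AR A z := by
  ext k l
  rw [AR_apply, Matrix.sub_apply, AR_apply, AR_apply, ← Finset.sum_sub_distrib]
  exact Finset.sum_congr rfl fun i _ => by rw [Pi.sub_apply, sub_mul]

theorem AR_smul (c : R) (y : σ → R) : AR A (c • y) = c • AR A y := by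
  ext k l
  rw [AR_apply, Matrix.smul_apply, AR_apply, smul_eq_mul, Finset.mul_sum]
  exact Finset.sum_congr rfl fun i _ => by rw [Pi.smul_apply, smul_eq_mul, mul_assoc]

theorem AR_sum {ι : Type} (s : Finset ι) (f : ι → σ → R) :
    AR A (∑ i ∈ s, f i) = ∑ i ∈ s, AR A (f i) := by
  classical
  induction s using Finset.induction_on with
  | empty =>
    ext k l
    simp [AR_apply]
  | insert a s ha ih => rw [Finset.sum_insert ha, Finset.sum_insert ha, AR_add, ih]

/-- entrywise derivation: products -/
theorem map_mul_der (D : Derivation ℝ R R) (M N : Matrix σ σ R) :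
    (M * N).map D = M.map D * N + M * N.map D := by
  ext k l
  simp only [Matrix.map_apply, Matrix.mul_apply, Matrix.add_apply, map_sum, Derivation.leibniz,
    smul_eq_mul, Finset.sum_add_distrib]
  rw [add_comm]
  congr 1
  exact Finset.sum_congr rfl fun i _ => mul_comm _ _

theorem map_real_der (D : Derivation ℝ R R) (M : Matrix σ σ ℝ) :
    (M.map (algebraMap ℝ R)).map D = 0 := by
  ext k l
  simp

theorem map_add_der (D : Derivation ℝ R R) (M N : Matrix σ σ R) :
    (M + N).map D = M.map D + N.map D := by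
  ext k l
  simp

theorem map_sub_der (D : Derivation ℝ R R) (M N : Matrix σ σ R) :
    (M - N).map D = M.map D - N.map D := by
  ext k l
  simp

theorem AR_der (D : Derivation ℝ R R) (y : σ → R) : (AR A y).map D = AR A (fun i => D (y i)) := by
  ext k l
  rw [Matrix.map_apply, AR_apply, AR_apply, map_sum]
  exact Finset.sum_congr rfl fun i _ => by
    rw [Derivation.leibniz, Derivation.map_algebraMap, smul_zero, zero_add, smul_eq_mul, mul_comm]

theorem vecMul_der (D : Derivation ℝ R R) (v : σ → ℝ) (M : Matrix σ σ R) (j : σ) :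
    D (((fun i => algebraMap ℝ R (v i)) ᵥ* M) j) =
      ((fun i => algebraMap ℝ R (v i)) ᵥ* (M.map D)) j := by
  simp only [Matrix.vecMul, dotProduct, map_sum, Derivation.leibniz, Derivation.map_algebraMap,
    mul_zero, add_zero, smul_eq_mul, Matrix.map_apply]

/-- Jacobi formula in the form we need. -/
theorem trace_zero_of_det_one {K : Type} [Field K] [Algebra ℝ K] (D : Derivation ℝ K K)
    (P Θ : Matrix σ σ K) (hP : P.det = 1) (hΘ : P.map D = Θ * P) : Θ.trace = 0 := by
  let χ : K →+* TrivSqZeroExt K K :=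
    { toFun := fun x => TrivSqZeroExt.inl x + TrivSqZeroExt.inr (D x)
      map_one' := by simp
      map_zero' := by simp
      map_add' := fun x y => by ext <;> simp
      map_mul' := fun x y => by ext <;> simp [add_comm, mul_comm] }
  let ε : TrivSqZeroExt K K := TrivSqZeroExt.inr 1
  have hε : ε ^ 2 = 0 := by rw [pow_two]; exact TrivSqZeroExt.inr_mul_inr K 1 1
  have h1 : P.map χ = (1 + ε • (Θ.map (TrivSqZeroExt.inlHom K K))) *
      P.map (TrivSqZeroExt.inlHom K K) := by
    rw [add_mul, one_mul, smul_mul_assoc, ← Matrix.map_mul, ← hΘ]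
    ext i j
    · simp [χ, ε]
    · simp [χ, ε]
  have h2 : (P.map χ).det = 1 := by
    have := RingHom.map_det χ P
    rw [hP, map_one] at this
    exact this.symm
  have h3 : (P.map (TrivSqZeroExt.inlHom K K)).det = 1 := by
    have := RingHom.map_det (TrivSqZeroExt.inlHom K K) P
    rw [hP, map_one] at this
    exact this.symm
  rw [h1, Matrix.det_mul, h3, mul_one, Matrix.det_one_add_smul, hε, mul_zero, add_zero] at h2
  have h4 : (Θ.map (TrivSqZeroExt.inlHom K K)).trace = TrivSqZeroExt.inl Θ.trace := by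
    have := (AddMonoidHom.map_trace (TrivSqZeroExt.inlHom K K).toAddMonoidHom Θ)
    exact this.symm
  rw [h4] at h2
  have h5 := congrArg TrivSqZeroExt.snd h2
  simpa [ε] using h5

end

end Pool.Agent.W_8cdb14_h41
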