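import Pool.Agent.W_8cdb14_h41.Domain
import Pool.Agent.W_8cdb14_h41.ExtDer
import Pool.Agent.W_8cdb14_h41.ExpFacts
import Pool.Agent.W_8cdb14_h41.MatDer

/-!
The generic point of the Zariski closure of `G0 A` and the derivations `T_q`.
-/

set_option linter.unusedSectionVars false
set_option linter.unusedSimpArgs false

namespace Pool.Agent.W_8cdb14_h41

open Matrix

variable {σ : Type} [Fintype σ] [DecidableEq σ]

noncomputable section

variable (A : (σ → ℝ) →ₗ[ℝ] Matrix σ σ ℝ)

instance isDomain_BB : IsDomain (BB A) := by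
  have : NoZeroDivisors (BB A) := ⟨fun {a b} h => by
    have h' : (a : G0 A → ℝ) * (b : G0 A → ℝ) = 0 := by
      have := congrArg Subtype.val h
      simpa using this
    rcases domain A _ _ a.2 b.2 h' with h1 | h1
    · left; exact Subtype.ext h1
    · right; exact Subtype.ext h1⟩
  have : Nontrivial (BB A) := ⟨⟨0, 1, fun h => by
    have := congrFun (congrArg Subtype.val h) (1 : G0 A)
    simp at this⟩⟩
  exact NoZeroDivisors.to_isDomain _

/-- The function field. -/
abbrev KK : Type := FractionRing (BB A)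

/-- The generic matrix over `BB A`. -/
def PhiB : Matrix σ σ (BB A) := Matrix.of fun i j =>
  ⟨fun g : G0 A => (g : Matrix σ σ ℝ) i j, Algebra.subset_adjoin ⟨(i, j), rfl⟩⟩

/-- Evaluation at a point of the group. -/
def ev (g : G0 A) : BB A →ₐ[ℝ] ℝ := (Pi.evalAlgHom ℝ (fun _ : G0 A => ℝ) g).comp (BB A).val

theorem ev_apply (g : G0 A) (a : BB A) : ev A g a = (a : G0 A → ℝ) g := rfl

theorem ext_ev {a b : BB A} (h : ∀ g, ev A g a = ev A g b) : a = b := by
  apply Subtype.ext
  funext g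
  exact h g

theorem ext_ev_mat {M N : Matrix σ σ (BB A)} (h : ∀ g, M.map (ev A g) = N.map (ev A g)) :
    M = N := by
  ext i j : 1
  · -- entries
    apply ext_ev
    intro g
    exact congrFun (congrFun (h g) i) j

theorem map_PhiB (g : G0 A) : (PhiB A).map (ev A g) = (g : Matrix σ σ ℝ) := rfl

theorem map_real {R S : Type} [CommRing R] [Algebra ℝ R] [CommRing S] [Algebra ℝ S]
    (f : R →ₐ[ℝ] S) (M : Matrix σ σ ℝ) :
    (M.map (algebraMap ℝ R)).map f = M.map (algebraMap ℝ S) := by
  ext i j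
  simp

theorem map_mul' {R S : Type} [CommRing R] [Algebra ℝ R] [CommRing S] [Algebra ℝ S]
    (f : R →ₐ[ℝ] S) (M N : Matrix σ σ R) : (M * N).map f = M.map f * N.map f :=
  Matrix.map_mul (f := (f : R →+* S))

theorem map_sub' {R S : Type} [CommRing R] [Algebra ℝ R] [CommRing S] [Algebra ℝ S]
    (f : R →ₐ[ℝ] S) (M N : Matrix σ σ R) : (M - N).map f = M.map f - N.map f := by
  ext i j
  simp

theorem map_self (M : Matrix σ σ ℝ) : M.map (algebraMap ℝ ℝ) = M := by
  ext i j
  simp

theorem map_mulVec' {R S : Type} [CommRing R] [Algebra ℝ R] [CommRing S] [Algebra ℝ S]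
    (f : R →ₐ[ℝ] S) (M : Matrix σ σ R) (x : σ → R) (i : σ) :
    f ((M *ᵥ x) i) = ((M.map f) *ᵥ (fun j => f (x j))) i := by
  simp [Matrix.mulVec, dotProduct, map_sum]

theorem map_vecMul' {R S : Type} [CommRing R] [Algebra ℝ R] [CommRing S] [Algebra ℝ S]
    (f : R →ₐ[ℝ] S) (M : Matrix σ σ R) (x : σ → R) (i : σ) :
    f ((x ᵥ* M) i) = ((fun j => f (x j)) ᵥ* (M.map f)) i := by
  simp [Matrix.vecMul, dotProduct, map_sum]

theorem map_adj {R S : Type} [CommRing R] [Algebra ℝ R] [CommRing S] [Algebra ℝ S]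
    (f : R →ₐ[ℝ] S) (M : Matrix σ σ R) : M.adjugate.map f = (M.map f).adjugate :=
  RingHom.map_adjugate (f : R →+* S) M

theorem map_det' {R S : Type} [CommRing R] [Algebra ℝ R] [CommRing S] [Algebra ℝ S]
    (f : R →ₐ[ℝ] S) (M : Matrix σ σ R) : f M.det = (M.map f).det :=
  RingHom.map_det (f : R →+* S) M

variable {A}

theorem B1 (hA : IsAd A) (x : σ → ℝ) :
    PhiB A * (A x).map (algebraMap ℝ (BB A)) =
      AR A (PhiB A *ᵥ (fun i => algebraMap ℝ (BB A) (x i))) * PhiB A := by
  apply ext_ev_mat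
  intro g
  rw [map_mul', map_mul', map_PhiB, map_real, map_self, AR_map]
  have h : (fun i => ev A g ((PhiB A *ᵥ fun i => algebraMap ℝ (BB A) (x i)) i)) =
      (g : Matrix σ σ ℝ) *ᵥ x := by
    funext i
    rw [map_mulVec', map_PhiB]
    congr 2
  rw [h, AR_self]
  exact G0_aut hA g.2 x

theorem B2 (hU : ∀ x, (A x).trace = 0) : (PhiB A).det = 1 := by
  apply ext_ev
  intro g
  rw [map_det', map_PhiB, G0_det hU g.2, map_one]

/-- A linear section of `A`. -/
theorem exists_secA (A : (σ → ℝ) →ₗ[ℝ] Matrix σ σ ℝ) :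
    ∃ s : Matrix σ σ ℝ →ₗ[ℝ] (σ → ℝ), ∀ z, A (s (A z)) = A z := by
  obtain ⟨r, hr⟩ := LinearMap.exists_rightInverse_of_surjective A.rangeRestrict
    (LinearMap.range_rangeRestrict A)
  obtain ⟨P, hP⟩ := LinearMap.exists_leftInverse_of_injective (LinearMap.range A).subtype
    (Submodule.ker_subtype _)
  refine ⟨r.comp P, fun z => ?_⟩
  have h1 : P (A z) = A.rangeRestrict z := by
    have := LinearMap.congr_fun hP (A.rangeRestrict z)
    simpa using this
  have h2 := LinearMap.congr_fun hr (A.rangeRestrict z)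
  have h3 := congrArg Subtype.val h2
  simp only [LinearMap.comp_apply, h1]
  simpa using h3

theorem B3 (hA : IsAd A) (hU : ∀ x, (A x).trace = 0) {D : Matrix σ σ ℝ} (hD : IsDer A D) :
    ∃ y : σ → BB A, PhiB A * D.map (algebraMap ℝ (BB A)) - D.map (algebraMap ℝ (BB A)) * PhiB A =
      AR A y * PhiB A := by
  obtain ⟨s, hs⟩ := exists_secA A
  let M : Matrix σ σ (BB A) := (PhiB A * D.map (algebraMap ℝ (BB A)) -
    D.map (algebraMap ℝ (BB A)) * PhiB A) * (PhiB A).adjugate
  let y : σ → BB A := fun i => ∑ k, ∑ l, algebraMap ℝ (BB A) (s (Matrix.single k l 1) i) * M k l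
  refine ⟨y, ext_ev_mat A fun g => ?_⟩
  obtain ⟨z, hz⟩ := G0_der hA hD g.2
  have hM : M.map (ev A g) = A z := by
    rw [map_mul', map_sub', map_mul', map_mul', map_adj, map_PhiB, map_real, map_self, hz,
      mul_assoc, Matrix.mul_adjugate, G0_det hU g.2, one_smul, mul_one]
  have hy : (fun i => ev A g (y i)) = s (A z) := by
    funext i
    have h1 : A z = ∑ k, ∑ l, (A z k l) • (Matrix.single k l (1 : ℝ)) := by
      conv_lhs => rw [Matrix.matrix_eq_sum_single (A z)]
      simp [Matrix.smul_single]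
    have h2 : s (A z) i = ∑ k, ∑ l, A z k l * s (Matrix.single k l (1 : ℝ)) i := by
      conv_lhs => rw [h1]
      simp only [map_sum, map_smul, Finset.sum_apply, Pi.smul_apply, smul_eq_mul]
    rw [h2]
    simp only [y, map_sum, map_mul, AlgHom.commutes, Algebra.algebraMap_self, RingHom.id_apply]
    refine Finset.sum_congr rfl fun k _ => Finset.sum_congr rfl fun l _ => ?_
    have h3 : ev A g (M k l) = A z k l := by
      rw [← hM]; rfl
    rw [h3, mul_comm]
  rw [map_sub', map_mul', map_mul', map_mul', map_PhiB, map_real, map_self, AR_map, hy, AR_self,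
    hs, hz]

variable (A)

/-- The generic matrix over the function field. -/
def Phi : Matrix σ σ (KK A) := (PhiB A).map (Algebra.algHom ℝ (BB A) (KK A))

variable {A}

theorem K1 (hA : IsAd A) (x : σ → ℝ) :
    Phi A * (A x).map (algebraMap ℝ (KK A)) =
      AR A (Phi A *ᵥ (fun i => algebraMap ℝ (KK A) (x i))) * Phi A := by
  have h := congrArg (fun M => M.map (Algebra.algHom ℝ (BB A) (KK A))) (B1 hA x)
  simp only [map_mul', map_real, AR_map] at h
  rw [Phi, h]
  congr 2
  funext i
  rw [map_mulVec']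
  congr 2

theorem K2 (hU : ∀ x, (A x).trace = 0) : (Phi A).det = 1 := by
  rw [Phi, ← map_det', B2 hU, map_one]

theorem K3 (hA : IsAd A) (hU : ∀ x, (A x).trace = 0) {D : Matrix σ σ ℝ} (hD : IsDer A D) :
    ∃ y : σ → KK A, Phi A * D.map (algebraMap ℝ (KK A)) - D.map (algebraMap ℝ (KK A)) * Phi A =
      AR A y * Phi A := by
  obtain ⟨y, hy⟩ := B3 hA hU hD
  refine ⟨fun i => Algebra.algHom ℝ (BB A) (KK A) (y i), ?_⟩
  have h := congrArg (fun M => M.map (Algebra.algHom ℝ (BB A) (KK A))) hy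
  simp only [map_sub', map_mul', map_real, AR_map] at h
  exact h

end

end Pool.Agent.W_8cdb14_h41
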