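import Pool.Agent.W_8cdb14_h41.Generic

/-!
The derivations `T_q`.
-/

set_option linter.unusedSectionVars false
set_option linter.unusedSimpArgs false

namespace Pool.Agent.W_8cdb14_h41

open Matrix

variable {σ : Type} [Fintype σ] [DecidableEq σ]

noncomputable section

variable {A : (σ → ℝ) →ₗ[ℝ] Matrix σ σ ℝ}

/-- The derivation of the function field. -/
theorem exists_D0 (v q : σ → ℝ) (h : ∀ f ∈ J A v, dd f v q = 0) :
    ∃ D0 : Derivation ℝ (KK A) (KK A), ∀ j,
      D0 (((fun i => algebraMap ℝ (KK A) (v i)) ᵥ* Phi A) j) =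
        ((fun i => algebraMap ℝ (KK A) (q i)) ᵥ* Phi A) j := by
  apply exists_derivation
  intro f hf
  let aB : σ → BB A := fun j => ((fun i => algebraMap ℝ (BB A) (v i)) ᵥ* PhiB A) j
  let dB : σ → BB A := fun j => ((fun i => algebraMap ℝ (BB A) (q i)) ᵥ* PhiB A) j
  let e := Algebra.algHom ℝ (BB A) (KK A)
  have hinj : Function.Injective e := IsFractionRing.injective (BB A) (KK A)
  have ha : ((fun i => algebraMap ℝ (KK A) (v i)) ᵥ* Phi A) = fun j => e (aB j) := by
    funext j
    rw [show e (aB j) = _ from map_vecMul' e (PhiB A) _ j]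
    rfl
  have hd : ((fun i => algebraMap ℝ (KK A) (q i)) ᵥ* Phi A) = fun j => e (dB j) := by
    funext j
    rw [show e (dB j) = _ from map_vecMul' e (PhiB A) _ j]
    rfl
  have hev : ∀ (g : G0 A) (F : MvPolynomial σ ℝ),
      ev A g (MvPolynomial.aeval aB F) = MvPolynomial.eval (v ᵥ* (g : Matrix σ σ ℝ)) F := by
    intro g F
    have h1 : (ev A g).comp (MvPolynomial.aeval aB) =
        MvPolynomial.aeval (v ᵥ* (g : Matrix σ σ ℝ)) := by
      apply MvPolynomial.algHom_ext
      intro j
      rw [AlgHom.comp_apply, MvPolynomial.aeval_X, MvPolynomial.aeval_X]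
      simp only [aB]
      rw [map_vecMul', map_PhiB]
      rfl
    have h2 := AlgHom.congr_fun h1 F
    rw [AlgHom.comp_apply] at h2
    rw [h2]
    rfl
  have hsub : ∀ F : MvPolynomial σ ℝ, MvPolynomial.aeval (fun j => e (aB j)) F =
      e (MvPolynomial.aeval aB F) := by
    intro F
    have h1 : e.comp (MvPolynomial.aeval aB) = MvPolynomial.aeval (fun j => e (aB j)) := by
      apply MvPolynomial.algHom_ext
      intro j
      rw [AlgHom.comp_apply, MvPolynomial.aeval_X, MvPolynomial.aeval_X]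
    exact (AlgHom.congr_fun h1 F).symm
  have hfJ : f ∈ J A v := by
    intro g hg
    rw [← hev ⟨g, hg⟩]
    rw [ha, hsub] at hf
    have : MvPolynomial.aeval aB f = 0 := hinj (by rw [hf, map_zero])
    rw [this, map_zero]
  rw [show (∑ j, ((fun i => algebraMap ℝ (KK A) (q i)) ᵥ* Phi A) j *
      MvPolynomial.aeval ((fun i => algebraMap ℝ (KK A) (v i)) ᵥ* Phi A)
        (MvPolynomial.pderiv j f)) =
      e (∑ j, dB j * MvPolynomial.aeval aB (MvPolynomial.pderiv j f)) from by
    rw [ha, map_sum]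
    refine Finset.sum_congr rfl fun j _ => ?_
    rw [map_mul, hsub, congrFun hd j]]
  rw [show (∑ j, dB j * MvPolynomial.aeval aB (MvPolynomial.pderiv j f)) = 0 from ?_, map_zero]
  apply ext_ev
  intro g
  rw [map_sum, map_zero]
  have h3 : (∑ j, ev A g (dB j * MvPolynomial.aeval aB (MvPolynomial.pderiv j f))) =
      dd f (v ᵥ* (g : Matrix σ σ ℝ)) (q ᵥ* (g : Matrix σ σ ℝ)) := by
    unfold dd
    refine Finset.sum_congr rfl fun j _ => ?_
    rw [map_mul, hev]
    congr 1
    simp only [dB]
    rw [map_vecMul', map_PhiB]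
    rfl
  rw [h3, ← dd_sub]
  exact h _ (J_comp hfJ g.2)

theorem exists_functional (K : Type) [Field K] [Algebra ℝ K] : ∃ l : K →ₗ[ℝ] ℝ, l 1 = 1 := by
  obtain ⟨l, hl⟩ := LinearMap.exists_leftInverse_of_injective (Algebra.linearMap ℝ K)
    (LinearMap.ker_eq_bot.2 (algebraMap ℝ K).injective)
  refine ⟨l, ?_⟩
  have := LinearMap.congr_fun hl 1
  simpa using this

theorem exists_T (hA : IsAd A) (hU : ∀ x, (A x).trace = 0) (v q : σ → ℝ)
    (h : ∀ f ∈ J A v, dd f v q = 0) :
    ∃ T : Matrix σ σ ℝ, IsDer A T ∧ v ᵥ* T = q ∧ T.trace = 0 ∧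
      ∀ D, IsDer A D → ∃ z, T * D - D * T = A z := by
  obtain ⟨D0, hD0⟩ := exists_D0 v q h
  obtain ⟨l, hl⟩ := exists_functional (KK A)
  have hdet : (Phi A).det = 1 := K2 hU
  let P := Phi A
  let Θ := P.map D0 * P.adjugate
  have hadj : P.adjugate * P = 1 := by rw [Matrix.adjugate_mul, hdet, one_smul]
  have hadj' : P * P.adjugate = 1 := by rw [Matrix.mul_adjugate, hdet, one_smul]
  have hΘ : P.map D0 = Θ * P := by
    simp only [Θ]
    rw [mul_assoc, hadj, mul_one]
  have hcancel : ∀ M N : Matrix σ σ (KK A), M * P = N * P → M = N := by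
    intro M N hMN
    have := congrArg (fun X => X * P.adjugate) hMN
    simpa only [mul_assoc, hadj', mul_one] using this
  -- derivation property on the vectors `P x`
  have hder1 : ∀ x : σ → ℝ, let y : σ → KK A := P *ᵥ (fun i => algebraMap ℝ (KK A) (x i))
      Θ * AR A y - AR A y * Θ = AR A (Θ *ᵥ y) := by
    intro x y
    have h1 := congrArg (fun M => M.map D0) (K1 hA x)
    simp only [map_mul_der, map_real_der, mul_zero, add_zero, AR_der] at h1
    have h2 : (fun i => D0 ((P *ᵥ (fun i => algebraMap ℝ (KK A) (x i))) i)) = Θ *ᵥ y := by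
      funext i
      have : ∀ M : Matrix σ σ (KK A), D0 ((M *ᵥ (fun i => algebraMap ℝ (KK A) (x i))) i) =
          ((M.map D0) *ᵥ (fun i => algebraMap ℝ (KK A) (x i))) i := by
        intro M
        simp only [Matrix.mulVec, dotProduct, map_sum, Derivation.leibniz,
          Derivation.map_algebraMap, smul_eq_mul, mul_zero, zero_add, Matrix.map_apply]
        exact Finset.sum_congr rfl fun j _ => mul_comm _ _
      rw [this, hΘ]
      simp only [y]
      rw [Matrix.mulVec_mulVec]
    apply hcancel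
    have h3 := K1 hA x
    change (P.map D0) * _ = AR A (fun i => D0 ((P *ᵥ (fun i => algebraMap ℝ (KK A) (x i))) i)) * P +
      AR A y * P.map D0 at h1
    change P * _ = AR A y * P at h3
    rw [h2, hΘ, mul_assoc, h3] at h1
    rw [sub_mul, mul_assoc, h1]
    rw [← mul_assoc]
    abel
  have hder2 : ∀ y : σ → KK A, Θ * AR A y - AR A y * Θ = AR A (Θ *ᵥ y) := by
    intro y
    have h1 : y = ∑ j, (P.adjugate *ᵥ y) j •
        (P *ᵥ (fun i => algebraMap ℝ (KK A) ((Pi.single j 1 : σ → ℝ) i))) := by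
      have h2 : y = P *ᵥ (P.adjugate *ᵥ y) := by
        rw [Matrix.mulVec_mulVec, hadj', Matrix.one_mulVec]
      conv_lhs => rw [h2]
      have h3 : ∀ w : σ → KK A, w = ∑ j, w j •
          (fun i => algebraMap ℝ (KK A) ((Pi.single j 1 : σ → ℝ) i)) := by
        intro w
        funext i
        simp [Finset.sum_apply, Pi.single_apply]
      conv_lhs => rw [h3 (P.adjugate *ᵥ y)]
      rw [Matrix.mulVec_sum]
      exact Finset.sum_congr rfl fun j _ => Matrix.mulVec_smul _ _ _
    rw [h1, AR_sum, Finset.mul_sum, Finset.sum_mul, Matrix.mulVec_sum, AR_sum,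
      ← Finset.sum_sub_distrib]
    refine Finset.sum_congr rfl fun j _ => ?_
    rw [AR_smul, Matrix.mulVec_smul, AR_smul, mul_smul_comm, smul_mul_assoc, ← smul_sub]
    congr 1
    exact hder1 (Pi.single j 1)
  -- real matrices and the functional
  have hl_real : ∀ r : ℝ, l (algebraMap ℝ (KK A) r) = r := by
    intro r
    rw [Algebra.algebraMap_eq_smul_one, map_smul, hl, smul_eq_mul, mul_one]
  have hl_mul : ∀ (r : ℝ) (x : KK A), l (algebraMap ℝ (KK A) r * x) = r * l x := by
    intro r x
    rw [← Algebra.smul_def, map_smul, smul_eq_mul]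
  have hl_mul' : ∀ (r : ℝ) (x : KK A), l (x * algebraMap ℝ (KK A) r) = l x * r := by
    intro r x
    rw [mul_comm, hl_mul, mul_comm]
  have hmr : ∀ (M : Matrix σ σ (KK A)) (N : Matrix σ σ ℝ),
      (M * N.map (algebraMap ℝ (KK A))).map l = M.map l * N := by
    intro M N
    ext i j
    simp only [Matrix.map_apply, Matrix.mul_apply, map_sum, hl_mul']
  have hrm : ∀ (M : Matrix σ σ (KK A)) (N : Matrix σ σ ℝ),
      (N.map (algebraMap ℝ (KK A)) * M).map l = N * M.map l := by
    intro M N
    ext i j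
    simp only [Matrix.map_apply, Matrix.mul_apply, map_sum, hl_mul]
  have hARl : ∀ y : σ → KK A, (AR A y).map l = A (fun i => l (y i)) := by
    intro y
    ext i j
    rw [Matrix.map_apply, AR_apply, map_sum, A_apply (A := A)]
    exact Finset.sum_congr rfl fun k _ => hl_mul' _ _
  have hsubl : ∀ M N : Matrix σ σ (KK A), (M - N).map l = M.map l - N.map l := by
    intro M N
    ext i j
    simp
  refine ⟨Θ.map l, ?_, ?_, ?_, ?_⟩
  · intro x
    have h1 := hder2 (fun i => algebraMap ℝ (KK A) (x i))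
    rw [AR_real] at h1
    have h2 := congrArg (fun M => M.map l) h1
    simp only [hsubl, hmr, hrm, hARl] at h2
    rw [h2]
    congr 1
    funext i
    simp only [Matrix.mulVec, dotProduct, map_sum, hl_mul', Matrix.map_apply]
  · funext j
    have h1 : ((fun i => algebraMap ℝ (KK A) (v i)) ᵥ* Θ) = fun i => algebraMap ℝ (KK A) (q i) := by
      simp only [Θ]
      rw [← Matrix.vecMul_vecMul]
      have h2 : ((fun i => algebraMap ℝ (KK A) (v i)) ᵥ* P.map D0) =
          ((fun i => algebraMap ℝ (KK A) (q i)) ᵥ* P) := by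
        funext j
        rw [← vecMul_der, hD0]
      rw [h2, Matrix.vecMul_vecMul, hadj', Matrix.vecMul_one]
    have h3 := congrArg l (congrFun h1 j)
    rw [hl_real] at h3
    rw [← h3]
    simp only [Matrix.vecMul, dotProduct, map_sum, hl_mul, Matrix.map_apply]
  · have h1 := trace_zero_of_det_one D0 P Θ hdet hΘ
    have h2 := congrArg l h1
    rw [map_zero] at h2
    rw [← h2]
    simp only [Matrix.trace, Matrix.diag, map_sum, Matrix.map_apply]
  · intro D hD
    obtain ⟨y, hy⟩ := K3 hA hU hD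
    refine ⟨fun i => l (D0 (y i) - (Θ *ᵥ y) i), ?_⟩
    have h1 := congrArg (fun M => M.map D0) hy
    simp only [map_sub_der, map_mul_der, map_real_der, mul_zero, add_zero, zero_mul, zero_add,
      AR_der] at h1
    change P.map D0 * _ - _ * P.map D0 = AR A (fun i => D0 (y i)) * P + AR A y * P.map D0 at h1
    change P * _ - _ * P = AR A y * P at hy
    have h2 : Θ * D.map (algebraMap ℝ (KK A)) - D.map (algebraMap ℝ (KK A)) * Θ =
        AR A ((fun i => D0 (y i)) - Θ *ᵥ y) := by
      apply hcancel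
      rw [AR_sub, ← hder2 y]
      rw [hΘ] at h1
      have h3 : P * D.map (algebraMap ℝ (KK A)) = D.map (algebraMap ℝ (KK A)) * P + AR A y * P := by
        rw [← hy]; abel
      rw [mul_assoc Θ P, h3] at h1
      have h4 : Θ * (D.map (algebraMap ℝ (KK A)) * P) + Θ * (AR A y * P) -
          D.map (algebraMap ℝ (KK A)) * (Θ * P) =
          AR A (fun i => D0 (y i)) * P + AR A y * (Θ * P) := by
        rw [← mul_add]; exact h1
      simp only [sub_mul, mul_assoc]
      rw [← sub_eq_zero] at h4 ⊢
      rw [← h4]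
      abel
    have h5 := congrArg (fun M => M.map l) h2
    simp only [hsubl, hmr, hrm, hARl] at h5
    exact h5

end

end Pool.Agent.W_8cdb14_h41
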