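import Pool.Agent.W_8cdb14_h41.Defs

/-!
Derivatives of polynomials along curves, the tangent lemma, linear algebra of the coadjoint
action.
-/

set_option linter.unusedSectionVars false

namespace Pool.Agent.W_8cdb14_h41

open Matrix

section
variable {σ : Type} [Fintype σ] [DecidableEq σ]

theorem dd_add_poly (f g : MvPolynomial σ ℝ) (v q : σ → ℝ) : dd (f + g) v q = dd f v q + dd g v q := by
  simp only [dd, map_add, mul_add, Finset.sum_add_distrib]

theorem dd_mul_poly (f g : MvPolynomial σ ℝ) (v q : σ → ℝ) :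
    dd (f * g) v q = dd f v q * MvPolynomial.eval v g + MvPolynomial.eval v f * dd g v q := by
  simp only [dd, Finset.sum_mul, Finset.mul_sum, ← Finset.sum_add_distrib]
  refine Finset.sum_congr rfl fun j _ => ?_
  rw [Derivation.leibniz, map_add, smul_eq_mul, smul_eq_mul, map_mul, map_mul]
  ring

theorem dd_C (c : ℝ) (v q : σ → ℝ) : dd (MvPolynomial.C c : MvPolynomial σ ℝ) v q = 0 := by
  simp [dd]

theorem dd_X (i : σ) (v q : σ → ℝ) : dd (MvPolynomial.X i : MvPolynomial σ ℝ) v q = q i := by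
  simp only [dd, MvPolynomial.pderiv_X]
  rw [Finset.sum_eq_single i]
  · simp
  · intro j _ hj
    simp [Pi.single_apply, hj]
  · intro h; exact absurd (Finset.mem_univ i) h

theorem dd_add_dir (f : MvPolynomial σ ℝ) (v q r : σ → ℝ) : dd f v (q + r) = dd f v q + dd f v r := by
  simp only [dd, Pi.add_apply, add_mul, Finset.sum_add_distrib]

theorem dd_smul_dir (f : MvPolynomial σ ℝ) (v q : σ → ℝ) (c : ℝ) : dd f v (c • q) = c * dd f v q := by
  simp only [dd, Pi.smul_apply, smul_eq_mul, Finset.mul_sum, mul_assoc]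

theorem dd_sub_dir (f : MvPolynomial σ ℝ) (v q r : σ → ℝ) : dd f v (q - r) = dd f v q - dd f v r := by
  simp only [dd, Pi.sub_apply, sub_mul, Finset.sum_sub_distrib]

theorem hasDerivAt_eval (f : MvPolynomial σ ℝ) {p : ℝ → σ → ℝ} {p' : σ → ℝ} {t : ℝ}
    (hp : HasDerivAt p p' t) :
    HasDerivAt (fun s => MvPolynomial.eval (p s) f) (dd f (p t) p') t := by
  induction f using MvPolynomial.induction_on with
  | C c => simpa [dd_C] using hasDerivAt_const t c
  | add f g hf hg =>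
    simp only [map_add, dd_add_poly]
    exact hf.add hg
  | mul_X f i hf =>
    have hX : HasDerivAt (fun s => p s i) (p' i) t := hasDerivAt_pi.1 hp i
    simp only [map_mul, MvPolynomial.eval_X, dd_mul_poly, dd_X]
    exact hf.mul hX

end

/-- The cotangent space `k^⊥` inside the dual of the Lie algebra. -/
def emb (m l : ℕ) : (Fin m → ℝ) →ₗ[ℝ] (Fin m ⊕ Fin l → ℝ) where
  toFun q := Sum.elim q 0
  map_add' q r := by
    funext i; cases i <;> simp
  map_smul' c q := by
    funext i; cases i <;> simp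

theorem emb_inl {m l : ℕ} (q : Fin m → ℝ) (i : Fin m) : emb m l q (Sum.inl i) = q i := rfl

theorem emb_inr {m l : ℕ} (q : Fin m → ℝ) (i : Fin l) : emb m l q (Sum.inr i) = 0 := rfl

theorem emb_injective (m l : ℕ) : Function.Injective (emb m l) := by
  intro q r h
  funext i
  exact congrFun h (Sum.inl i)

theorem continuous_emb (m l : ℕ) : Continuous (emb m l) :=
  LinearMap.continuous_of_finiteDimensional _

theorem eq_emb_of_inr {m l : ℕ} (p : Fin m ⊕ Fin l → ℝ) (h : ∀ i, p (Sum.inr i) = 0) :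
    p = emb m l (fun i => p (Sum.inl i)) := by
  funext i
  cases i with
  | inl i => rfl
  | inr i => exact h i

theorem hasDerivAt_emb {m l : ℕ} {q : ℝ → Fin m → ℝ} {q' : Fin m → ℝ} {t : ℝ}
    (h : HasDerivAt q q' t) : HasDerivAt (fun s => emb m l (q s)) (emb m l q') t := by
  have := (LinearMap.toContinuousLinearMap (emb m l)).hasFDerivAt.comp_hasDerivAt t h
  exact this

/-- The isotropy algebra. -/
def kk (m l : ℕ) : Submodule ℝ (Fin m ⊕ Fin l → ℝ) where
  carrier := {x | ∀ i, x (Sum.inl i) = 0}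
  add_mem' := fun {a b} ha hb i => by simp [ha i, hb i]
  zero_mem' := fun _ => rfl
  smul_mem' := fun c x hx i => by simp [hx i]

theorem mem_kk {m l : ℕ} {x : Fin m ⊕ Fin l → ℝ} : x ∈ kk m l ↔ ∀ i, x (Sum.inl i) = 0 := Iff.rfl

theorem emb_dot_kk {m l : ℕ} (q : Fin m → ℝ) {y : Fin m ⊕ Fin l → ℝ} (hy : y ∈ kk m l) :
    emb m l q ⬝ᵥ y = 0 := by
  rw [dotProduct, Fintype.sum_sum_type]
  simp [emb_inl, emb_inr, mem_kk.1 hy]

theorem perp_kk {m l : ℕ} {r : Fin m ⊕ Fin l → ℝ} (h : ∀ y ∈ kk m l, r ⬝ᵥ y = 0) :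
    r = emb m l (fun i => r (Sum.inl i)) := by
  apply eq_emb_of_inr
  intro i
  have := h (Pi.single (Sum.inr i) 1) (by
    intro j
    simp)
  simpa using this

/-- If `f` vanishes on the unit sphere then its derivative vanishes on the tangent space. -/
theorem tangent {m l : ℕ} {H : (Fin m → ℝ) → ℝ} (hc : Continuous H)
    (hh : ∀ (s : ℝ) (q : Fin m → ℝ), 0 ≤ s → H (s • q) = s * H q)
    (f : MvPolynomial (Fin m ⊕ Fin l) ℝ)
    (hf : ∀ w, H w = 1 → MvPolynomial.eval (emb m l w) f = 0)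
    {v : Fin m → ℝ} (hv : H v = 1) (hd : DifferentiableAt ℝ H v) (q : Fin m → ℝ) :
    dd f (emb m l v) (emb m l (q - (fderiv ℝ H v q) • v)) = 0 := by
  have h1 : HasDerivAt (fun s : ℝ => v + s • q) q 0 := by
    have := ((hasDerivAt_id (0 : ℝ)).smul_const q).const_add v
    simpa using this
  have h2 : HasDerivAt (fun s : ℝ => H (v + s • q)) (fderiv ℝ H v q) 0 := by
    have h3 : HasFDerivAt H (fderiv ℝ H v) (v + (0 : ℝ) • q) := by
      simpa using hd.hasFDerivAt
    exact h3.comp_hasDerivAt (0 : ℝ) h1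
  have h3 : HasDerivAt (fun s : ℝ => (H (v + s • q))⁻¹ • (v + s • q))
      (q - (fderiv ℝ H v q) • v) 0 := by
    have h4 := (h2.fun_inv (by simp [hv])).smul h1
    have : (H (v + (0 : ℝ) • q))⁻¹ • q + (-(fderiv ℝ H v) q / H (v + (0 : ℝ) • q) ^ 2) •
        (v + (0 : ℝ) • q) = q - (fderiv ℝ H v q) • v := by
      rw [zero_smul, add_zero, hv]
      simp [sub_eq_add_neg]
    rw [← this]
    exact h4
  have h5 := hasDerivAt_eval f (hasDerivAt_emb (l := l) h3)
  have h6 : (fun s : ℝ => MvPolynomial.eval (emb m l ((H (v + s • q))⁻¹ • (v + s • q))) f)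
      =ᶠ[nhds 0] fun _ => 0 := by
    have h7 : ContinuousAt (fun s : ℝ => H (v + s • q)) 0 := h2.continuousAt
    have h8 : ∀ᶠ s in nhds (0 : ℝ), 0 < H (v + s • q) := by
      apply h7.eventually (lt_mem_nhds _)
      simp [hv]
    filter_upwards [h8] with s hs
    apply hf
    rw [hh _ _ (inv_nonneg.2 hs.le), inv_mul_cancel₀ hs.ne']
  have h9 := h5.congr_of_eventuallyEq h6.symm
  have h10 := h9.unique (hasDerivAt_const (0 : ℝ) (0 : ℝ))
  have h11 : (H (v + (0 : ℝ) • q))⁻¹ • (v + (0 : ℝ) • q) = v := by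
    rw [zero_smul, add_zero, hv, inv_one, one_smul]
  rw [h11] at h10
  exact h10

/-- Linear algebra: if every element of `ad*(g) p ∩ k^⊥` kills `ξ` then `ad*_ξ p = ad*_y p` for
some `y ∈ k`. -/
theorem exists_isotropy {m l : ℕ}
    {A : (Fin m ⊕ Fin l → ℝ) →ₗ[ℝ] Matrix (Fin m ⊕ Fin l) (Fin m ⊕ Fin l) ℝ} (hA : IsAd A)
    (p ξ : Fin m ⊕ Fin l → ℝ)
    (h : ∀ x, ∀ u : Fin m → ℝ, p ᵥ* A x = emb m l u → emb m l u ⬝ᵥ ξ = 0) :
    ∃ y ∈ kk m l, p ᵥ* A ξ = p ᵥ* A y := by
  classical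
  -- the stabiliser of `p`
  let L : (Fin m ⊕ Fin l → ℝ) →ₗ[ℝ] (Fin m ⊕ Fin l → ℝ) :=
    { toFun := fun x => p ᵥ* A x
      map_add' := fun x y => by rw [map_add, Matrix.vecMul_add]
      map_smul' := fun c x => by rw [map_smul, Matrix.vecMul_smul, RingHom.id_apply] }
  by_contra hcon
  push Not at hcon
  have hξ : ξ ∉ LinearMap.ker L ⊔ kk m l := by
    intro hmem
    obtain ⟨a, ha, y, hy, hay⟩ := Submodule.mem_sup.1 hmem
    apply hcon y hy
    rw [← hay, map_add, Matrix.vecMul_add]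
    have : p ᵥ* A a = 0 := ha
    rw [this, zero_add]
  obtain ⟨φ, hφ1, hφ2⟩ := Submodule.exists_dual_map_eq_bot_of_notMem hξ inferInstance
  -- represent `φ` by a vector
  let r : Fin m ⊕ Fin l → ℝ := fun i => φ (Pi.single i 1)
  have hr : ∀ x, φ x = r ⬝ᵥ x := by
    intro x
    have hx : x = ∑ i, x i • (Pi.single i (1 : ℝ) : Fin m ⊕ Fin l → ℝ) := by
      ext j; simp [Finset.sum_apply, Pi.single_apply]
    conv_lhs => rw [hx]
    rw [map_sum]
    simp only [map_smul, smul_eq_mul, dotProduct, r]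
    exact Finset.sum_congr rfl fun i _ => mul_comm _ _
  have hkill : ∀ x ∈ LinearMap.ker L ⊔ kk m l, φ x = 0 := by
    intro x hx
    have : φ x ∈ Submodule.map φ (LinearMap.ker L ⊔ kk m l) := ⟨x, hx, rfl⟩
    rw [hφ2] at this
    simpa using this
  have hrk : r = emb m l (fun i => r (Sum.inl i)) := by
    apply perp_kk
    intro y hy
    rw [← hr]
    exact hkill y (Submodule.mem_sup_right hy)
  -- `φ` factors through `L`
  have hfac : ∃ ψ : Module.Dual ℝ (Fin m ⊕ Fin l → ℝ), φ = ψ.comp L := by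
    have h1 : φ ∈ (LinearMap.ker L).dualAnnihilator := by
      rw [Submodule.mem_dualAnnihilator]
      intro x hx
      exact hkill x (Submodule.mem_sup_left hx)
    rw [← LinearMap.range_dualMap_eq_dualAnnihilator_ker] at h1
    obtain ⟨ψ, hψ⟩ := h1
    exact ⟨ψ, hψ.symm⟩
  obtain ⟨ψ, hψ⟩ := hfac
  let ρ : Fin m ⊕ Fin l → ℝ := fun i => ψ (Pi.single i 1)
  have hρ : ∀ x, ψ x = ρ ⬝ᵥ x := by
    intro x
    have hx : x = ∑ i, x i • (Pi.single i (1 : ℝ) : Fin m ⊕ Fin l → ℝ) := by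
      ext j; simp [Finset.sum_apply, Pi.single_apply]
    conv_lhs => rw [hx]
    rw [map_sum]
    simp only [map_smul, smul_eq_mul, dotProduct, ρ]
    exact Finset.sum_congr rfl fun i _ => mul_comm _ _
  have h2 : ∀ x, r ⬝ᵥ x = (p ᵥ* A (-ρ)) ⬝ᵥ x := by
    intro x
    rw [← hr, hψ, LinearMap.comp_apply, hρ]
    change ρ ⬝ᵥ (p ᵥ* A x) = _
    rw [dotProduct_comm, ← Matrix.dotProduct_mulVec, ← Matrix.dotProduct_mulVec, hA.skew, map_neg,
      Matrix.neg_mulVec]
  have h3 : p ᵥ* A (-ρ) = r := by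
    have : ∀ i, (p ᵥ* A (-ρ)) i = r i := by
      intro i
      have := h2 (Pi.single i 1)
      simpa using this.symm
    exact funext this
  rw [hrk] at h3
  have h4 := h _ _ h3
  rw [← hrk, ← hr] at h4
  exact hφ1 h4

theorem neg_of_skew {σ : Type} [Fintype σ] [DecidableEq σ] {M : Matrix σ σ ℝ} (h : Mᵀ = -M)
    (hM : M ≠ 0) : (M * M).trace < 0 := by
  have h1 : M * M = -(Mᵀ * M) := by rw [h]; simp
  rw [h1, Matrix.trace_neg, neg_lt_zero]
  have h2 : (Mᵀ * M).trace = ∑ j, ∑ i, M i j * M i j := by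
    simp [Matrix.trace, Matrix.mul_apply]
  rw [h2]
  have h3 : ∃ i j, M i j ≠ 0 := by
    by_contra hcon
    push Not at hcon
    exact hM (by ext i j; simp [hcon i j])
  obtain ⟨i, j, hij⟩ := h3
  calc (0 : ℝ) < M i j * M i j := mul_self_pos.2 hij
    _ ≤ ∑ i, M i j * M i j := Finset.single_le_sum (f := fun i => M i j * M i j)
        (fun i _ => mul_self_nonneg _) (Finset.mem_univ i)
    _ ≤ ∑ j, ∑ i, M i j * M i j := Finset.single_le_sum (f := fun j => ∑ i, M i j * M i j)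
        (fun j _ => Finset.sum_nonneg fun i _ => mul_self_nonneg _) (Finset.mem_univ j)

end Pool.Agent.W_8cdb14_h41
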